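import Mathlib

/-!
# The trace norm of an operator on a separable Hilbert space and its finite sections
-/

open Finset
open scoped InnerProductSpace ENNReal

set_option linter.unusedSectionVars false

namespace Pool.Agent.H39.Tr

variable {E : Type*} [NormedAddCommGroup E] [InnerProductSpace ℂ E] [CompleteSpace E]

/-- `tr |T|`, computed in the Hilbert basis `b`. -/
noncomputable def tnB (b : HilbertBasis ℕ ℂ E) (T : E →L[ℂ] E) : ℝ≥0∞ :=
  ∑' i, ENNReal.ofReal (⟪b i, CFC.abs T (b i)⟫_ℂ).re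

section positive

variable {A : E →L[ℂ] E}

lemma pos_of_nonneg (hA : 0 ≤ A) : A.IsPositive := (ContinuousLinearMap.nonneg_iff_isPositive A).1 hA

/-- square root of a positive operator -/
lemma exists_sqrt (hA : 0 ≤ A) : ∃ S : E →L[ℂ] E, (∀ x y, ⟪S x, y⟫_ℂ = ⟪x, S y⟫_ℂ) ∧
    ∀ x, A x = S (S x) := by
  refine ⟨CFC.sqrt A, ?_, ?_⟩
  · have h : 0 ≤ CFC.sqrt A := CFC.sqrt_nonneg A
    have h2 := (pos_of_nonneg h).isSymmetric
    intro x y
    exact h2 x y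
  · intro x
    have h := CFC.sqrt_mul_sqrt_self A hA
    conv_lhs => rw [← h]
    rfl

end positive

/-- Parseval -/
lemma hasSum_norm_sq (b : HilbertBasis ℕ ℂ E) (x : E) :
    HasSum (fun i => ‖⟪b i, x⟫_ℂ‖ ^ 2) (‖x‖ ^ 2) := by
  have h := b.hasSum_inner_mul_inner x x
  have h2 : HasSum (fun i => (⟪x, b i⟫_ℂ * ⟪b i, x⟫_ℂ).re) (⟪x, x⟫_ℂ).re := Complex.hasSum_re h
  have e1 : ∀ i, (⟪x, b i⟫_ℂ * ⟪b i, x⟫_ℂ).re = ‖⟪b i, x⟫_ℂ‖ ^ 2 := by
    intro i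
    rw [← inner_conj_symm x (b i), ← Complex.normSq_eq_norm_sq]
    rw [mul_comm, Complex.mul_conj, Complex.ofReal_re]
  have e2 : (⟪x, x⟫_ℂ).re = ‖x‖ ^ 2 := by
    rw [inner_self_eq_norm_sq_to_K]
    norm_cast
  simp only [e1, e2] at h2
  exact h2

/-- `(w_i)` is a contractive family -/
def ContrFam {N : ℕ} (w : Fin N → E) : Prop :=
  ∀ c : Fin N → ℂ, ‖∑ i, c i • w i‖ ^ 2 ≤ ∑ i, ‖c i‖ ^ 2

lemma ContrFam.bessel {N : ℕ} {w : Fin N → E} (hw : ContrFam w) (x : E) :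
    ∑ i, ‖⟪w i, x⟫_ℂ‖ ^ 2 ≤ ‖x‖ ^ 2 := by
  set c : Fin N → ℂ := fun i => ⟪w i, x⟫_ℂ with hc
  set Q := ∑ i, ‖c i‖ ^ 2 with hQ
  have hQ0 : 0 ≤ Q := Finset.sum_nonneg fun _ _ => sq_nonneg _
  have h1 : (Q : ℂ) = ⟪∑ i, c i • w i, x⟫_ℂ := by
    rw [sum_inner, hQ]
    push_cast
    apply Finset.sum_congr rfl
    intro i _
    rw [inner_smul_left, hc]
    dsimp only
    rw [mul_comm, Complex.mul_conj, Complex.normSq_eq_norm_sq]
    push_cast
    rfl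
  have h2 : Q ≤ ‖∑ i, c i • w i‖ * ‖x‖ := by
    have h3 : ‖(Q : ℂ)‖ ≤ ‖∑ i, c i • w i‖ * ‖x‖ := by
      rw [h1]
      exact norm_inner_le_norm _ _
    rwa [Complex.norm_real, Real.norm_eq_abs, abs_of_nonneg hQ0] at h3
  have h4 : Q ^ 2 ≤ Q * ‖x‖ ^ 2 := by
    calc Q ^ 2 ≤ (‖∑ i, c i • w i‖ * ‖x‖) ^ 2 := pow_le_pow_left₀ hQ0 h2 2
      _ = ‖∑ i, c i • w i‖ ^ 2 * ‖x‖ ^ 2 := by ring
      _ ≤ Q * ‖x‖ ^ 2 := mul_le_mul_of_nonneg_right (hw c) (sq_nonneg _)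
  rcases hQ0.eq_or_lt with h0 | h0
  · rw [← h0]; positivity
  · nlinarith

lemma ContrFam.norm_le {N : ℕ} {w : Fin N → E} (hw : ContrFam w) (i : Fin N) : ‖w i‖ ≤ 1 := by
  have h := hw (Pi.single i 1)
  have e1 : ∑ j, (Pi.single i (1 : ℂ) : Fin N → ℂ) j • w j = w i := by
    rw [Finset.sum_eq_single i]
    · simp
    · intro j _ hj; simp [Pi.single_eq_of_ne hj]
    · simp
  have e2 : ∑ j, ‖(Pi.single i (1 : ℂ) : Fin N → ℂ) j‖ ^ 2 = 1 := by
    rw [Finset.sum_eq_single i]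
    · simp
    · intro j _ hj; simp [Pi.single_eq_of_ne hj]
    · simp
  rw [e1, e2] at h
  nlinarith [norm_nonneg (w i)]

lemma ContrFam.map {N : ℕ} {w : Fin N → E} (hw : ContrFam w) {C : E →L[ℂ] E}
    (hC : ∀ x, ‖C x‖ ≤ ‖x‖) : ContrFam (fun i => C (w i)) := by
  intro c
  have e : ∑ i, c i • C (w i) = C (∑ i, c i • w i) := by
    rw [map_sum]
    exact Finset.sum_congr rfl fun i _ => (map_smul C _ _).symm
  rw [e]
  exact (pow_le_pow_left₀ (norm_nonneg _) (hC _) 2).trans (hw c)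

/-- trace duality for a positive operator -/
lemma pos_duality (b : HilbertBasis ℕ ℂ E) {A : E →L[ℂ] E} (hA : 0 ≤ A)
    (hs : Summable fun i => (⟪b i, A (b i)⟫_ℂ).re) {N : ℕ} {v : Fin N → E} (hv : ContrFam v) :
    ‖∑ i : Fin N, ⟪v i, A (b i)⟫_ℂ‖ ≤ ∑' i, (⟪b i, A (b i)⟫_ℂ).re := by
  obtain ⟨S, hS1, hS2⟩ := exists_sqrt hA
  have hSn : ∀ x, (⟪x, A x⟫_ℂ).re = ‖S x‖ ^ 2 := by
    intro x
    rw [hS2, ← hS1, inner_self_eq_norm_sq_to_K]
    norm_cast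
  set t := ∑' i, (⟪b i, A (b i)⟫_ℂ).re with ht
  have hs' : Summable fun i => ‖S (b i)‖ ^ 2 := by
    simpa only [hSn] using hs
  have ht' : t = ∑' i, ‖S (b i)‖ ^ 2 := by
    rw [ht]
    simp only [hSn]
  have h1 : ‖∑ i : Fin N, ⟪v i, A (b i)⟫_ℂ‖ ≤ ∑ i : Fin N, ‖S (v i)‖ * ‖S (b i)‖ := by
    refine (norm_sum_le _ _).trans (Finset.sum_le_sum fun i _ => ?_)
    rw [hS2, ← hS1]
    exact norm_inner_le_norm _ _
  have h2 := Finset.sum_mul_sq_le_sq_mul_sq (Finset.univ : Finset (Fin N))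
    (fun i => ‖S (v i)‖) (fun i => ‖S (b i)‖)
  have h3 : ∑ i : Fin N, ‖S (b i)‖ ^ 2 ≤ t := by
    rw [ht', Fin.sum_univ_eq_sum_range (fun i => ‖S (b i)‖ ^ 2)]
    exact hs'.sum_le_tsum _ (fun i _ => sq_nonneg _)
  have h4 : ∑ i : Fin N, ‖S (v i)‖ ^ 2 ≤ t := by
    have e1 : HasSum (fun j => ∑ i : Fin N, ‖⟪b j, S (v i)⟫_ℂ‖ ^ 2)
        (∑ i : Fin N, ‖S (v i)‖ ^ 2) :=
      hasSum_sum fun i _ => hasSum_norm_sq b (S (v i))
    rw [← e1.tsum_eq, ht']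
    apply Summable.tsum_le_tsum _ e1.summable hs'
    intro j
    have h5 := hv.bessel (S (b j))
    refine le_trans (le_of_eq ?_) h5
    apply Finset.sum_congr rfl
    intro i _
    rw [← hS1, ← inner_conj_symm (v i), RCLike.norm_conj]
  have ht0 : 0 ≤ t := (Finset.sum_nonneg fun i _ => sq_nonneg _).trans h4
  have h6 : (∑ i : Fin N, ‖S (v i)‖ * ‖S (b i)‖) ^ 2 ≤ t ^ 2 := by
    refine h2.trans ?_
    rw [pow_two t]
    exact mul_le_mul h4 h3 (Finset.sum_nonneg fun _ _ => sq_nonneg _) ht0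
  refine h1.trans (le_of_sq_le_sq' h6 ht0)
where le_of_sq_le_sq' {a b : ℝ} (h : a ^ 2 ≤ b ^ 2) (hb : 0 ≤ b) : a ≤ b := by
        nlinarith [sq_nonneg (a - b), sq_nonneg (a + b)]

/-- approximate polar decomposition of `T`:
`T = V (|T| + δ)` with `V` a contraction, and `V† T = |T| - δ W`, `‖W‖ ≤ 1`. -/
lemma approx_polar (T : E →L[ℂ] E) {δ : ℝ} (hδ : 0 < δ) :
    ∃ V W : E →L[ℂ] E, (∀ x, ‖V x‖ ≤ ‖x‖) ∧ (∀ x, ‖W x‖ ≤ ‖x‖) ∧
      (∀ x, T x = V (CFC.abs T x) + (δ : ℂ) • V x) ∧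
      (∀ x y, ⟪V x, T y⟫_ℂ = ⟪x, CFC.abs T y⟫_ℂ - (δ : ℂ) * ⟪x, W y⟫_ℂ) := by
  set A := CFC.abs T with hAdef
  have hA : 0 ≤ A := CFC.abs_nonneg T
  have hApos := pos_of_nonneg hA
  have hAsym : ∀ x y, ⟪A x, y⟫_ℂ = ⟪x, A y⟫_ℂ := fun x y => hApos.isSymmetric x y
  have hAA : A * A = star T * T := CFC.abs_mul_abs T
  -- invertibility of `A + δ`
  set G : E →L[ℂ] E := A + (δ : ℂ) • (1 : E →L[ℂ] E) with hG
  have hGunit : IsUnit G := by
    have h1 : (-(δ : ℂ)) ∉ spectrum ℂ A := by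
      intro h
      have h2 := spectrum_nonneg_of_nonneg (𝕜 := ℝ) hA
      have h3 : (-δ : ℝ) ∈ spectrum ℝ A := by
        have hsa : IsSelfAdjoint A := IsSelfAdjoint.of_nonneg hA
        rw [← spectrum.algebraMap_mem_iff ℂ]
        simpa using h
      have := h2 h3
      linarith
    have h2 := spectrum.notMem_iff.1 h1
    have e : algebraMap ℂ (E →L[ℂ] E) (-(δ : ℂ)) - A = -G := by
      rw [hG, Algebra.algebraMap_eq_smul_one, neg_smul]
      abel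
    rw [e] at h2
    simpa using h2.neg
  obtain ⟨u, hu⟩ := hGunit
  set B : E →L[ℂ] E := ((u⁻¹ : (E →L[ℂ] E)ˣ) : E →L[ℂ] E) with hB
  have hGB : G * B = 1 := by rw [← hu, hB]; exact Units.mul_inv u
  have hBG : B * G = 1 := by rw [← hu, hB]; exact Units.inv_mul u
  have hGx : ∀ x, G x = A x + (δ : ℂ) • x := by intro x; rw [hG]; simp
  have hGBx : ∀ x, G (B x) = x := by
    intro x
    have := congrArg (fun C : E →L[ℂ] E => C x) hGB
    simpa using this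
  have hBGx : ∀ x, B (G x) = x := by
    intro x
    have := congrArg (fun C : E →L[ℂ] E => C x) hBG
    simpa using this
  have hGsym : ∀ x y, ⟪G x, y⟫_ℂ = ⟪x, G y⟫_ℂ := by
    intro x y
    rw [hGx, hGx, inner_add_left, inner_add_right, hAsym, inner_smul_left, inner_smul_right,
      Complex.conj_ofReal]
  have hBsym : ∀ x y, ⟪B x, y⟫_ℂ = ⟪x, B y⟫_ℂ := by
    intro x y
    conv_lhs => rw [← hGBx y]
    rw [← hGsym, hGBx]
  have hABcomm : ∀ x, A (B x) = B (A x) := by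
    intro x
    have h1 : A (B x) = x - (δ : ℂ) • B x := by
      have := hGBx x
      rw [hGx] at this
      rw [eq_sub_iff_add_eq, this]
    have h2 : B (A x) = x - (δ : ℂ) • B x := by
      have := hBGx x
      rw [hGx, map_add, map_smul] at this
      rw [eq_sub_iff_add_eq, this]
    rw [h1, h2]
  have hnormG : ∀ x, ‖A x‖ ≤ ‖G x‖ := by
    intro x
    have h1 : ‖G x‖ ^ 2 = ‖A x‖ ^ 2 + 2 * (δ * (⟪A x, x⟫_ℂ).re) + (δ * ‖x‖) ^ 2 := by
      rw [hGx, norm_add_sq (𝕜 := ℂ), inner_smul_right, norm_smul, Complex.norm_real,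
        Real.norm_eq_abs, abs_of_pos hδ]
      congr 2
      rw [RCLike.re_eq_complex_re, Complex.re_ofReal_mul]
    have h2 : 0 ≤ (⟪A x, x⟫_ℂ).re := by
      have := hApos.re_inner_nonneg_left x
      simpa using this
    have h3 : ‖A x‖ ^ 2 ≤ ‖G x‖ ^ 2 := by
      rw [h1]
      have := mul_nonneg hδ.le h2
      nlinarith [sq_nonneg (δ * ‖x‖)]
    nlinarith [norm_nonneg (A x), norm_nonneg (G x)]
  have hTA : ∀ x y, ⟪T x, T y⟫_ℂ = ⟪A x, A y⟫_ℂ := by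
    intro x y
    have h1 : (star T * T) y = (A * A) y := by rw [hAA]
    have h2 : ⟪T x, T y⟫_ℂ = ⟪x, (star T * T) y⟫_ℂ := by
      rw [mul_apply_eq_comp, ContinuousLinearMap.star_eq_adjoint,
        ContinuousLinearMap.adjoint_inner_right]
    rw [h2, h1, mul_apply_eq_comp, ← hAsym]
  have hTAn : ∀ x, ‖T x‖ = ‖A x‖ := by
    intro x
    have h := hTA x x
    rw [inner_self_eq_norm_sq_to_K, inner_self_eq_norm_sq_to_K] at h
    have h2 : ‖T x‖ ^ 2 = ‖A x‖ ^ 2 := by exact_mod_cast h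
    have := norm_nonneg (T x)
    have := norm_nonneg (A x)
    nlinarith
  refine ⟨T * B, B * A, ?_, ?_, ?_, ?_⟩
  · intro x
    rw [mul_apply_eq_comp, hTAn]
    calc ‖A (B x)‖ ≤ ‖G (B x)‖ := hnormG _
      _ = ‖x‖ := by rw [hGBx]
  · intro x
    rw [mul_apply_eq_comp, ← hABcomm]
    calc ‖A (B x)‖ ≤ ‖G (B x)‖ := hnormG _
      _ = ‖x‖ := by rw [hGBx]
  · intro x
    rw [mul_apply_eq_comp, mul_apply_eq_comp, ← map_smul T, ← map_add T,
      ← map_smul B, ← map_add B, ← hGx, hBGx]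
  · intro x y
    rw [mul_apply_eq_comp, mul_apply_eq_comp, hTA, hAsym, hBsym]
    have h1 : B (A (A y)) = A y - (δ : ℂ) • B (A y) := by
      have := hBGx (A y)
      rw [hGx, map_add, map_smul] at this
      rw [eq_sub_iff_add_eq, this]
    rw [h1, inner_sub_right, inner_smul_right]

section

variable (b : HilbertBasis ℕ ℂ E) (T : E →L[ℂ] E)

lemma abs_diag_nonneg (i : ℕ) : 0 ≤ (⟪b i, CFC.abs T (b i)⟫_ℂ).re := by
  have := (pos_of_nonneg (CFC.abs_nonneg T)).re_inner_nonneg_right (b i)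
  simpa using this

variable {b T}

lemma summable_of_tn (hT : tnB b T ≠ ∞) : Summable fun i => (⟪b i, CFC.abs T (b i)⟫_ℂ).re := by
  have h := ENNReal.summable_toReal hT
  have e : ∀ i, (ENNReal.ofReal (⟪b i, CFC.abs T (b i)⟫_ℂ).re).toReal
      = (⟪b i, CFC.abs T (b i)⟫_ℂ).re := fun i => ENNReal.toReal_ofReal (abs_diag_nonneg b T i)
  simpa only [e] using h

lemma tn_toReal (_hT : tnB b T ≠ ∞) :
    (tnB b T).toReal = ∑' i, (⟪b i, CFC.abs T (b i)⟫_ℂ).re := by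
  unfold tnB
  rw [ENNReal.tsum_toReal_eq (fun i => ENNReal.ofReal_ne_top)]
  congr 1
  funext i
  exact ENNReal.toReal_ofReal (abs_diag_nonneg b T i)

/-- trace duality, upper bound -/
theorem duality_upper (hT : tnB b T ≠ ∞) {N : ℕ} {w : Fin N → E} (hw : ContrFam w) :
    ‖∑ i : Fin N, ⟪w i, T (b i)⟫_ℂ‖ ≤ (tnB b T).toReal := by
  rw [tn_toReal hT]
  apply le_of_forall_pos_le_add
  intro η hη
  set δ : ℝ := η / (N + 1) with hδ
  have hδ0 : 0 < δ := by positivity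
  obtain ⟨V, W, hV, -, hTV, -⟩ := approx_polar T hδ0
  have hVad : ∀ x, ‖(ContinuousLinearMap.adjoint V) x‖ ≤ ‖x‖ := by
    intro x
    have h1 : ‖V‖ ≤ 1 := ContinuousLinearMap.opNorm_le_bound _ zero_le_one
      (fun y => by rw [one_mul]; exact hV y)
    calc ‖(ContinuousLinearMap.adjoint V) x‖ ≤ ‖ContinuousLinearMap.adjoint V‖ * ‖x‖ :=
          ContinuousLinearMap.le_opNorm _ _
      _ = ‖V‖ * ‖x‖ := by rw [LinearIsometryEquiv.norm_map]
      _ ≤ 1 * ‖x‖ := by gcongr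
      _ = ‖x‖ := one_mul _
  have e : ∑ i : Fin N, ⟪w i, T (b i)⟫_ℂ
      = (∑ i : Fin N, ⟪(ContinuousLinearMap.adjoint V) (w i), CFC.abs T (b i)⟫_ℂ)
        + (δ : ℂ) * ∑ i : Fin N, ⟪w i, V (b i)⟫_ℂ := by
    rw [Finset.mul_sum, ← Finset.sum_add_distrib]
    apply Finset.sum_congr rfl
    intro i _
    rw [hTV, inner_add_right, inner_smul_right, ContinuousLinearMap.adjoint_inner_left]
  rw [e]
  refine (norm_add_le _ _).trans (add_le_add ?_ ?_)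
  · exact pos_duality b (CFC.abs_nonneg T) (summable_of_tn hT) (hw.map hVad)
  · rw [norm_mul, Complex.norm_real, Real.norm_eq_abs, abs_of_pos hδ0]
    have h1 : ‖∑ i : Fin N, ⟪w i, V (b i)⟫_ℂ‖ ≤ N := by
      refine (norm_sum_le _ _).trans ?_
      have : ∀ i : Fin N, ‖⟪w i, V (b i)⟫_ℂ‖ ≤ 1 := by
        intro i
        refine (norm_inner_le_norm _ _).trans ?_
        have h2 := hw.norm_le i
        have h3 : ‖V (b i)‖ ≤ 1 := (hV _).trans (by rw [b.orthonormal.1 i])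
        calc ‖w i‖ * ‖V (b i)‖ ≤ 1 * 1 := mul_le_mul h2 h3 (norm_nonneg _) zero_le_one
          _ = 1 := one_mul 1
      refine (Finset.sum_le_sum fun i _ => this i).trans (le_of_eq ?_)
      simp
    calc δ * _ ≤ δ * N := mul_le_mul_of_nonneg_left h1 hδ0.le
      _ ≤ δ * (N + 1) := by nlinarith
      _ = η := by rw [hδ]; field_simp

/-- trace duality, lower bound -/
theorem duality_lower (hT : tnB b T ≠ ∞) {η : ℝ} (hη : 0 < η) :
    ∃ (V : E →L[ℂ] E) (M : ℕ), (∀ x, ‖V x‖ ≤ ‖x‖) ∧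
      (tnB b T).toReal - η ≤ (∑ i ∈ range M, ⟪V (b i), T (b i)⟫_ℂ).re := by
  rw [tn_toReal hT]
  set t := ∑' i, (⟪b i, CFC.abs T (b i)⟫_ℂ).re with ht
  have hsum := (summable_of_tn hT).hasSum
  have h1 : ∀ᶠ M in Filter.atTop, t - η / 2 < ∑ i ∈ range M, (⟪b i, CFC.abs T (b i)⟫_ℂ).re := by
    apply hsum.tendsto_sum_nat.eventually
    exact lt_mem_nhds (by linarith)
  obtain ⟨M, hM⟩ := h1.exists
  set δ : ℝ := η / (2 * (M + 1)) with hδ
  have hδ0 : 0 < δ := by positivity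
  obtain ⟨V, W, hV, hW, -, hVT⟩ := approx_polar T hδ0
  refine ⟨V, M, hV, ?_⟩
  have e : ∑ i ∈ range M, ⟪V (b i), T (b i)⟫_ℂ
      = (∑ i ∈ range M, ⟪b i, CFC.abs T (b i)⟫_ℂ) - (δ : ℂ) * ∑ i ∈ range M, ⟪b i, W (b i)⟫_ℂ := by
    rw [Finset.mul_sum, ← Finset.sum_sub_distrib]
    exact Finset.sum_congr rfl fun i _ => hVT _ _
  rw [e, Complex.sub_re, Complex.re_sum, Complex.re_ofReal_mul]
  have h2 : (∑ i ∈ range M, ⟪b i, W (b i)⟫_ℂ).re ≤ M := by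
    refine (Complex.re_le_norm _).trans ((norm_sum_le _ _).trans ?_)
    have : ∀ i ∈ range M, ‖⟪b i, W (b i)⟫_ℂ‖ ≤ 1 := by
      intro i _
      refine (norm_inner_le_norm _ _).trans ?_
      have h3 : ‖W (b i)‖ ≤ 1 := (hW _).trans (by rw [b.orthonormal.1 i])
      rw [b.orthonormal.1 i, one_mul]
      exact h3
    refine (Finset.sum_le_sum this).trans (le_of_eq ?_)
    simp
  have h3 : δ * (∑ i ∈ range M, ⟪b i, W (b i)⟫_ℂ).re ≤ η / 2 := by
    calc δ * _ ≤ δ * M := mul_le_mul_of_nonneg_left h2 hδ0.le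
      _ ≤ δ * (M + 1) := by nlinarith
      _ = η / 2 := by rw [hδ]; field_simp
  linarith

end

end Pool.Agent.H39.Tr
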