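import Pool.Agent.H39.Tr.Near

/-!
# The combinatorial cell argument on the grid `{0..k}^J`
-/

open Finset

set_option linter.unusedSectionVars false

namespace Pool.Agent.H39.Tr

variable {J : Type*} [Fintype J] [DecidableEq J] {k : ℕ}

/-- the lowest corner of a cell -/
def cs (q : J → Fin k) : J → Fin (k + 1) := fun j => (q j).castSucc

/-- the corner `q + ε` of a cell -/
def corner (q : J → Fin k) (ε : J → Bool) : J → Fin (k + 1) :=
  fun j => if ε j then (q j).succ else (q j).castSucc

/-- points at `ℓ_∞`-distance at most `1` -/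
def Near (x y : J → Fin (k + 1)) : Prop :=
  ∀ j, (x j : ℕ) ≤ (y j : ℕ) + 1 ∧ (y j : ℕ) ≤ (x j : ℕ) + 1

lemma near_corner (q : J → Fin k) (ε : J → Bool) : Near (corner q ε) (cs q) := by
  intro j
  unfold corner cs
  split_ifs
  · simp only [Fin.val_succ, Fin.val_castSucc]; omega
  · simp only [Fin.val_castSucc]; omega

lemma near_symm {x y : J → Fin (k + 1)} (h : Near x y) : Near y x := fun j => (h j).symm

lemma near_update {x y : J → Fin (k + 1)} (h : Near x y) (j : J) (t : Fin (k + 1)) :
    Near (Function.update x j t) (Function.update y j t) := by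
  intro i
  by_cases hi : i = j
  · subst hi
    simp only [Function.update_self]
    omega
  · simp only [Function.update_of_ne hi]
    exact h i

lemma sum_update {α β : Type*} [Fintype α] [DecidableEq α] [AddCommMonoid β] (j : J)
    (ψ : (J → α) → β) :
    ∑ q : J → α, ∑ t : α, ψ (Function.update q j t) = Fintype.card α • ∑ q : J → α, ψ q := by
  have hinv : Function.Involutive
      (fun p : (J → α) × α => (Function.update p.1 j p.2, p.1 j)) := by
    rintro ⟨q, t⟩
    simp
  have h1 : ∑ p : (J → α) × α, ψ (Function.update p.1 j p.2)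
      = ∑ p : (J → α) × α, ψ p.1 :=
    Equiv.sum_comp (hinv.toPerm) (fun p : (J → α) × α => ψ p.1)
  rw [Fintype.sum_prod_type, Fintype.sum_prod_type] at h1
  rw [h1]
  simp only [Finset.sum_const, Finset.card_univ]
  rw [← Finset.smul_sum]

lemma sum_flip {β : Type*} [AddCommMonoid β] (j : J) (φ : (J → Bool) → β) :
    ∑ ε : J → Bool, φ (Function.update ε j (!ε j)) = ∑ ε : J → Bool, φ ε := by
  have hinv : Function.Involutive (fun ε : J → Bool => Function.update ε j (!ε j)) := by
    intro ε
    simp
  exact Equiv.sum_comp hinv.toPerm φ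

lemma sum_sgn (j : J) : ∑ ε : J → Bool, sgn (ε j) = 0 := by
  have h := sum_flip j (fun ε : J → Bool => sgn (ε j))
  have e : ∀ ε : J → Bool, sgn (Function.update ε j (!ε j) j) = - sgn (ε j) := by
    intro ε
    rw [Function.update_self]
    cases ε j <;> simp
  simp only [e, Finset.sum_neg_distrib] at h
  linarith

lemma fin_telescope {Y : Type*} [AddCommGroup Y] (g : Fin (k + 1) → Y) :
    g (Fin.last k) - g 0 = ∑ t : Fin k, (g t.succ - g t.castSucc) := by
  rw [Finset.sum_sub_distrib]
  have h1 := Fin.sum_univ_succ g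
  have h2 := Fin.sum_univ_castSucc g
  have h3 : g 0 + ∑ t : Fin k, g t.succ = ∑ t : Fin k, g t.castSucc + g (Fin.last k) := by
    rw [← h1, h2]
  rw [sub_eq_sub_iff_add_eq_add, add_comm, ← h3, add_comm]

variable {X Y : Type*} [AddCommGroup X] [Module ℝ X] [AddCommGroup Y] [Module ℝ Y]

lemma corner_update (q : J → Fin k) (ε : J → Bool) (j : J) (t : Fin k) :
    corner (Function.update q j t) ε
      = Function.update (corner q ε) j (if ε j then t.succ else t.castSucc) := by
  funext i
  unfold corner
  by_cases hi : i = j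
  · subst hi
    simp
  · simp only [Function.update_of_ne hi]

lemma update_corner_flip (q : J → Fin k) (ε : J → Bool) (j : J) (s : Fin (k + 1)) (b : Bool) :
    Function.update (corner q (Function.update ε j b)) j s
      = Function.update (corner q ε) j s := by
  funext i
  by_cases hi : i = j
  · subst hi
    simp
  · simp only [Function.update_of_ne hi, corner]

lemma cell_identity (F : (J → Fin (k + 1)) → Y) (q : J → Fin k) (j : J) (t : Fin k) :
    ∑ ε : J → Bool, (F (Function.update (corner q ε) j t.succ)
        - F (Function.update (corner q ε) j t.castSucc))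
      = (2 : ℝ) • ∑ ε : J → Bool, sgn (ε j) • F (corner (Function.update q j t) ε) := by
  set φ : (J → Bool) → Y := fun ε => sgn (ε j) • F (corner (Function.update q j t) ε) with hφ
  have h1 : (2 : ℝ) • ∑ ε, φ ε = ∑ ε, (φ ε + φ (Function.update ε j (!ε j))) := by
    rw [Finset.sum_add_distrib, sum_flip j φ, two_smul]
  rw [h1]
  apply Finset.sum_congr rfl
  intro ε _
  rw [hφ]
  dsimp only
  rw [corner_update, corner_update, update_corner_flip, Function.update_self]
  cases h : ε j
  · simp [add_comm, sub_eq_add_neg]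
  · simp [sub_eq_add_neg]

/-- The abstract cell estimate. -/
theorem cell_estimate (B : X →ₗ[ℝ] Y →ₗ[ℝ] ℂ) (N : X → ℝ) (c b Tb : ℝ) (hc : 0 ≤ c)
    (F : (J → Fin (k + 1)) → Y)
    (hnear : ∀ (H : X) (x y : J → Fin (k + 1)), Near x y → ‖B H (F x - F y)‖ ≤ N H * c)
    (htype : ∀ H : J → X, (∀ j, N (H j) ≤ b) →
      ∑ ε : J → Bool, N (∑ j, sgn (ε j) • H j) ≤ 2 ^ Fintype.card J * Tb)
    (H : J → (J → Fin (k + 1)) → X) (hH : ∀ j z, N (H j z) ≤ b) :
    ‖∑ j, ∑ q : J → Fin k, B (H j (Function.update (cs q) j 0))
        (F (Function.update (cs q) j (Fin.last k)) - F (Function.update (cs q) j 0))‖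
      ≤ (k : ℝ) ^ Fintype.card J * (2 * Fintype.card J * (b * c) + 2 * k * (Tb * c)) := by
  set n := Fintype.card J with hn
  set E : ℝ := 2 ^ n with hE
  have hEpos : 0 < E := by positivity
  -- decomposition
  set Hq : J → (J → Fin k) → X := fun j q => H j (Function.update (cs q) j 0) with hHq
  have hHqt : ∀ j q (t : Fin k), Hq j (Function.update q j t) = Hq j q := by
    intro j q t
    rw [hHq]
    dsimp only
    congr 1
    funext i
    by_cases hi : i = j
    · subst hi
      simp
    · simp [Function.update_of_ne hi, cs]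
  set err : J → (J → Fin k) → ℂ := fun j q => ∑ ε : J → Bool,
    (B (Hq j q) (F (Function.update (cs q) j (Fin.last k))
        - F (Function.update (corner q ε) j (Fin.last k)))
      + B (Hq j q) (F (Function.update (corner q ε) j 0) - F (Function.update (cs q) j 0)))
    with herr
  set ψ : J → (J → Fin k) → ℂ := fun j q => ∑ ε : J → Bool,
    ((sgn (ε j) : ℝ) : ℂ) * B (Hq j q) (F (corner q ε) - F (cs q)) with hψ
  have key : ∀ j q, (E : ℂ) * B (Hq j q) (F (Function.update (cs q) j (Fin.last k))
        - F (Function.update (cs q) j 0))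
      = err j q + 2 * ∑ t : Fin k, ψ j (Function.update q j t) := by
    intro j q
    have hcard : ((Fintype.card (J → Bool) : ℕ) : ℂ) = (E : ℂ) := by
      rw [Fintype.card_fun, Fintype.card_bool, ← hn, hE]
      push_cast
      rfl
    have h1 : (E : ℂ) * B (Hq j q) (F (Function.update (cs q) j (Fin.last k))
        - F (Function.update (cs q) j 0))
        = ∑ _ε : J → Bool, B (Hq j q) (F (Function.update (cs q) j (Fin.last k))
        - F (Function.update (cs q) j 0)) := by
      rw [Finset.sum_const, Finset.card_univ, nsmul_eq_mul, hcard]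
    have h2 : ∀ ε : J → Bool, B (Hq j q) (F (Function.update (cs q) j (Fin.last k))
        - F (Function.update (cs q) j 0))
        = (B (Hq j q) (F (Function.update (cs q) j (Fin.last k))
            - F (Function.update (corner q ε) j (Fin.last k)))
          + B (Hq j q) (F (Function.update (corner q ε) j 0) - F (Function.update (cs q) j 0)))
          + B (Hq j q) (F (Function.update (corner q ε) j (Fin.last k))
            - F (Function.update (corner q ε) j 0)) := by
      intro ε
      rw [← map_add, ← map_add]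
      congr 1
      abel
    rw [h1, Finset.sum_congr rfl (fun ε _ => h2 ε), Finset.sum_add_distrib]
    congr 1
    have h3 : ∑ ε : J → Bool, B (Hq j q) (F (Function.update (corner q ε) j (Fin.last k))
            - F (Function.update (corner q ε) j 0))
        = B (Hq j q) (∑ t : Fin k, ∑ ε : J → Bool,
            (F (Function.update (corner q ε) j t.succ)
              - F (Function.update (corner q ε) j t.castSucc))) := by
      rw [Finset.sum_comm, map_sum]
      apply Finset.sum_congr rfl
      intro ε _
      congr 1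
      exact fin_telescope (fun s => F (Function.update (corner q ε) j s))
    rw [h3, map_sum, Finset.mul_sum]
    apply Finset.sum_congr rfl
    intro t _
    rw [cell_identity, map_smul, map_sum, hψ]
    dsimp only
    rw [hHqt]
    rw [Complex.real_smul]
    push_cast
    congr 1
    have h4 : ∑ ε : J → Bool, ((sgn (ε j) : ℝ) : ℂ) *
        B (Hq j q) (F (cs (Function.update q j t))) = 0 := by
      rw [← Finset.sum_mul, ← Complex.ofReal_sum, sum_sgn]
      simp
    rw [← sub_zero (∑ ε : J → Bool, B (Hq j q) _), ← h4, ← Finset.sum_sub_distrib]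
    apply Finset.sum_congr rfl
    intro ε _
    rw [map_smul, map_sub, Complex.real_smul, mul_sub]
  have herrb : ∀ j q, ‖err j q‖ ≤ E * (2 * (b * c)) := by
    intro j q
    rw [herr]
    dsimp only
    have hb : N (Hq j q) ≤ b := hH _ _
    have hcard : (Fintype.card (J → Bool) : ℝ) = E := by
      rw [Fintype.card_fun, Fintype.card_bool, ← hn, hE]
      push_cast
      rfl
    refine (norm_sum_le _ _).trans ?_
    rw [← hcard, ← nsmul_eq_mul, ← Finset.card_univ, ← Finset.sum_const]
    apply Finset.sum_le_sum
    intro ε _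
    refine (norm_add_le _ _).trans ?_
    have h1 := hnear (Hq j q) _ _ (near_update (near_symm (near_corner q ε)) j (Fin.last k))
    have h2 := hnear (Hq j q) _ _ (near_update (near_corner q ε) j 0)
    have h3 : N (Hq j q) * c ≤ b * c := mul_le_mul_of_nonneg_right hb hc
    linarith
  have hpsi : ‖∑ j, ∑ q : J → Fin k, ψ j q‖ ≤ (k : ℝ) ^ n * (E * (Tb * c)) := by
    have e : ∑ j, ∑ q : J → Fin k, ψ j q
        = ∑ q : J → Fin k, ∑ ε : J → Bool, B (∑ j, sgn (ε j) • Hq j q)
            (F (corner q ε) - F (cs q)) := by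
      rw [Finset.sum_comm]
      apply Finset.sum_congr rfl
      intro q _
      rw [hψ]
      dsimp only
      rw [Finset.sum_comm]
      apply Finset.sum_congr rfl
      intro ε _
      rw [map_sum, LinearMap.sum_apply]
      apply Finset.sum_congr rfl
      intro j _
      rw [map_smul, LinearMap.smul_apply, Complex.real_smul]
    rw [e]
    refine (norm_sum_le _ _).trans ?_
    have h1 : ∀ q : J → Fin k, ‖∑ ε : J → Bool, B (∑ j, sgn (ε j) • Hq j q)
            (F (corner q ε) - F (cs q))‖ ≤ E * (Tb * c) := by
      intro q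
      refine (norm_sum_le _ _).trans ?_
      calc ∑ ε : J → Bool, ‖B (∑ j, sgn (ε j) • Hq j q) (F (corner q ε) - F (cs q))‖
          ≤ ∑ ε : J → Bool, N (∑ j, sgn (ε j) • Hq j q) * c :=
            Finset.sum_le_sum fun ε _ => hnear _ _ _ (near_corner q ε)
        _ = (∑ ε : J → Bool, N (∑ j, sgn (ε j) • Hq j q)) * c := by rw [Finset.sum_mul]
        _ ≤ (2 ^ Fintype.card J * Tb) * c :=
            mul_le_mul_of_nonneg_right (htype (fun j => Hq j q) (fun j => hH _ _)) hc
        _ = _ := by rw [← hn, ← hE]; ring
    refine (Finset.sum_le_sum fun q _ => h1 q).trans (le_of_eq ?_)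
    rw [Finset.sum_const, Finset.card_univ, Fintype.card_fun, Fintype.card_fin, ← hn,
      nsmul_eq_mul]
    push_cast
    rfl
  have hmain : (E : ℂ) * ∑ j, ∑ q : J → Fin k, B (Hq j q)
        (F (Function.update (cs q) j (Fin.last k)) - F (Function.update (cs q) j 0))
      = (∑ j, ∑ q : J → Fin k, err j q) + 2 * (k * ∑ j, ∑ q : J → Fin k, ψ j q) := by
    rw [Finset.mul_sum, Finset.mul_sum, Finset.mul_sum, ← Finset.sum_add_distrib]
    apply Finset.sum_congr rfl
    intro j _
    rw [Finset.mul_sum, Finset.sum_congr rfl (fun q _ => key j q), Finset.sum_add_distrib]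
    congr 1
    rw [← Finset.mul_sum, sum_update j (ψ j), Fintype.card_fin, nsmul_eq_mul]
  have h5 : E * ‖∑ j, ∑ q : J → Fin k, B (Hq j q)
        (F (Function.update (cs q) j (Fin.last k)) - F (Function.update (cs q) j 0))‖
      ≤ E * ((k : ℝ) ^ n * (2 * n * (b * c) + 2 * k * (Tb * c))) := by
    have h6 : E * ‖∑ j, ∑ q : J → Fin k, B (Hq j q)
        (F (Function.update (cs q) j (Fin.last k)) - F (Function.update (cs q) j 0))‖
        = ‖(∑ j, ∑ q : J → Fin k, err j q) + 2 * (k * ∑ j, ∑ q : J → Fin k, ψ j q)‖ := by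
      rw [← hmain, norm_mul, Complex.norm_real, Real.norm_eq_abs, abs_of_pos hEpos]
    rw [h6]
    refine (norm_add_le _ _).trans ?_
    have h7 : ‖∑ j, ∑ q : J → Fin k, err j q‖ ≤ n * ((k : ℝ) ^ n * (E * (2 * (b * c)))) := by
      refine (norm_sum_le _ _).trans ?_
      have : ∀ j : J, ‖∑ q : J → Fin k, err j q‖ ≤ (k : ℝ) ^ n * (E * (2 * (b * c))) := by
        intro j
        refine (norm_sum_le _ _).trans ((Finset.sum_le_sum fun q _ => herrb j q).trans
          (le_of_eq ?_))
        rw [Finset.sum_const, Finset.card_univ, Fintype.card_fun, Fintype.card_fin, ← hn,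
          nsmul_eq_mul]
        push_cast
        rfl
      refine (Finset.sum_le_sum fun j _ => this j).trans (le_of_eq ?_)
      rw [Finset.sum_const, Finset.card_univ, ← hn, nsmul_eq_mul]
    have h8 : ‖2 * ((k : ℂ) * ∑ j, ∑ q : J → Fin k, ψ j q)‖
        ≤ 2 * (k * ((k : ℝ) ^ n * (E * (Tb * c)))) := by
      rw [norm_mul, norm_mul, Complex.norm_natCast]
      have : ‖(2 : ℂ)‖ = 2 := by simp
      rw [this]
      gcongr
    calc _ ≤ n * ((k : ℝ) ^ n * (E * (2 * (b * c)))) + 2 * (k * ((k : ℝ) ^ n * (E * (Tb * c)))) :=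
          add_le_add h7 h8
      _ = _ := by ring
  exact le_of_mul_le_mul_left h5 hEpos

end Pool.Agent.H39.Tr
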