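import Pool.Agent.H39.Tr.Section

/-!
# The distortion bound for grids in the trace class
-/

open Finset
open scoped InnerProductSpace ENNReal

namespace Pool.Agent.H39.Tr

lemma exists_exponent {y : ℝ} (hy : 1 ≤ y) : ∃ l : ℕ, y ≤ PP l ∧ PP l ≤ 2 * y := by
  have hex : ∃ l : ℕ, y ≤ PP l := by
    obtain ⟨l, hl⟩ := pow_unbounded_of_one_lt y (one_lt_two)
    refine ⟨l, hl.le.trans ?_⟩
    exact pow_le_pow_right₀ (by norm_num) (Nat.le_succ l)
  classical
  refine ⟨Nat.find hex, Nat.find_spec hex, ?_⟩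
  rcases Nat.eq_zero_or_pos (Nat.find hex) with h0 | h0
  · rw [h0]
    have : PP 0 = 2 := by unfold PP; norm_num
    rw [this]
    linarith
  · have h1 := Nat.find_min hex (Nat.sub_one_lt h0.ne')
    rw [not_le] at h1
    have h3 : ∀ i : ℕ, 0 < i → PP i = 2 * PP (i - 1) := by
      intro i hi
      obtain ⟨j, rfl⟩ := Nat.exists_eq_succ_of_ne_zero hi.ne'
      unfold PP
      rw [Nat.succ_sub_one, Nat.succ_eq_add_one, pow_succ 2 (j + 1)]
      ring
    rw [h3 _ h0]
    linarith

/-- the numerical conclusion -/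
lemma numeric {k n D lam : ℝ} (hk : 1 ≤ k) (hn : 1 ≤ n) (hD : 0 < D) (hlam : 0 < lam)
    (hkn : k ≤ 2 * Real.sqrt n) (l : ℕ) (hl1 : 1 + Real.log k ≤ PP l)
    (hl2 : PP l ≤ 2 * (1 + Real.log k))
    (h : 2 * (lam * k) ≤ 16 * (4 * (2 * (D * lam * k))) ^ (1 / PP l)
      * (2 * PP l * (2 * (D * lam))) ^ (1 / qq l)
      * (1 + 2 * k * Real.sqrt (Real.exp 1 * PP l * n) / n)) :
    k ≤ 2000 * (1 + Real.log k) ^ ((3 : ℝ) / 2) * D := by
  set P := PP l with hP
  have hP2 : 2 ≤ P := two_le_PP l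
  have hq : 1 / P + 1 / qq l = 1 := by
    unfold qq
    rw [← hP]
    field_simp
    ring
  have hlog : 0 ≤ Real.log k := Real.log_nonneg hk
  have hk0 : 0 < k := by linarith
  have hDl : 0 < D * lam := by positivity
  -- first factor
  have h1 : (4 * (2 * (D * lam * k))) ^ (1 / P) * (2 * P * (2 * (D * lam))) ^ (1 / qq l)
      ≤ 4 * P * (D * lam) * k ^ (1 / P) := by
    have e1 : (4 * (2 * (D * lam * k))) ^ (1 / P) ≤ (4 * P * (D * lam) * k) ^ (1 / P) := by
      apply Real.rpow_le_rpow (by positivity) _ (by positivity)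
      have : 8 * (D * lam * k) ≤ 4 * P * (D * lam * k) := by
        apply mul_le_mul_of_nonneg_right _ (by positivity)
        linarith
      linarith
    have e2 : 2 * P * (2 * (D * lam)) = 4 * P * (D * lam) := by ring
    rw [e2]
    calc (4 * (2 * (D * lam * k))) ^ (1 / P) * (4 * P * (D * lam)) ^ (1 / qq l)
        ≤ (4 * P * (D * lam) * k) ^ (1 / P) * (4 * P * (D * lam)) ^ (1 / qq l) :=
          mul_le_mul_of_nonneg_right e1 (by positivity)
      _ = k ^ (1 / P) * ((4 * P * (D * lam)) ^ (1 / P) * (4 * P * (D * lam)) ^ (1 / qq l)) := by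
          rw [Real.mul_rpow (by positivity) (by positivity)]
          ring
      _ = k ^ (1 / P) * (4 * P * (D * lam)) := by
          rw [← Real.rpow_add (by positivity), hq, Real.rpow_one]
      _ = _ := by ring
  -- the root of `k`
  have hkP : k ^ (1 / P) ≤ 2.7182818286 := by
    have h2 : k ^ (1 / P) = Real.exp (Real.log k * (1 / P)) := by
      rw [Real.rpow_def_of_pos hk0]
    rw [h2]
    refine le_trans (Real.exp_le_exp.2 ?_) Real.exp_one_lt_d9.le
    rw [mul_one_div, div_le_one (by linarith)]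
    linarith
  -- the last factor
  have hsP : 1 ≤ Real.sqrt P := Real.one_le_sqrt.2 (by linarith)
  have h3 : 1 + 2 * k * Real.sqrt (Real.exp 1 * P * n) / n ≤ 8 * Real.sqrt P := by
    have hsn : 0 < Real.sqrt n := Real.sqrt_pos.2 (by linarith)
    have e1 : Real.sqrt (Real.exp 1 * P * n) = Real.sqrt (Real.exp 1) * Real.sqrt P * Real.sqrt n := by
      rw [Real.sqrt_mul (by positivity), Real.sqrt_mul (by positivity)]
    have e2 : 2 * k * Real.sqrt (Real.exp 1 * P * n) / n
        = 2 * (k / Real.sqrt n) * (Real.sqrt (Real.exp 1) * Real.sqrt P) := by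
      rw [e1]
      have : n = Real.sqrt n * Real.sqrt n := (Real.mul_self_sqrt (by linarith)).symm
      rw [div_eq_iff (by linarith)]
      field_simp
      rw [Real.sq_sqrt (by linarith)]
    have e3 : k / Real.sqrt n ≤ 2 := by
      rw [div_le_iff₀ hsn]
      exact hkn
    have e4 : Real.sqrt (Real.exp 1) ≤ 1.65 := by
      rw [Real.sqrt_le_left (by norm_num)]
      refine Real.exp_one_lt_d9.le.trans ?_
      norm_num
    rw [e2]
    have e5 : (k / Real.sqrt n) * (Real.sqrt (Real.exp 1) * Real.sqrt P)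
        ≤ 2 * (1.65 * Real.sqrt P) := by
      apply mul_le_mul e3 _ (by positivity) (by norm_num)
      exact mul_le_mul_of_nonneg_right e4 (by positivity)
    nlinarith
  -- combine
  have h4 : 2 * (lam * k) ≤ 16 * (4 * P * (D * lam) * 2.7182818286) * (8 * Real.sqrt P) := by
    refine h.trans ?_
    have e1 : 16 * (4 * (2 * (D * lam * k))) ^ (1 / P) * (2 * P * (2 * (D * lam))) ^ (1 / qq l)
        ≤ 16 * (4 * P * (D * lam) * 2.7182818286) := by
      have e2 : 4 * P * (D * lam) * k ^ (1 / P) ≤ 4 * P * (D * lam) * 2.7182818286 :=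
        mul_le_mul_of_nonneg_left hkP (by positivity)
      have e3 := h1.trans e2
      linarith
    apply mul_le_mul e1 h3 (by positivity) (by positivity)
  have h5 : k ≤ 256 * 2.7182818286 * (P * Real.sqrt P) * D := by
    have e1 : lam * (2 * k) ≤ lam * (16 * (4 * P * D * 2.7182818286) * (8 * Real.sqrt P)) := by
      calc lam * (2 * k) = 2 * (lam * k) := by ring
        _ ≤ _ := h4
        _ = _ := by ring
    have e2 := le_of_mul_le_mul_left e1 hlam
    linarith
  have h6 : P * Real.sqrt P ≤ 2.83 * (1 + Real.log k) ^ ((3 : ℝ) / 2) := by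
    have hy : 0 < 1 + Real.log k := by linarith
    have e1 : P * Real.sqrt P = P ^ ((3 : ℝ) / 2) := by
      rw [Real.sqrt_eq_rpow]
      nth_rewrite 1 [← Real.rpow_one P]
      rw [← Real.rpow_add (by linarith)]
      norm_num
    rw [e1]
    calc P ^ ((3 : ℝ) / 2) ≤ (2 * (1 + Real.log k)) ^ ((3 : ℝ) / 2) :=
          Real.rpow_le_rpow (by linarith) hl2 (by norm_num)
      _ = (2 : ℝ) ^ ((3 : ℝ) / 2) * (1 + Real.log k) ^ ((3 : ℝ) / 2) :=
          Real.mul_rpow (by norm_num) hy.le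
      _ ≤ _ := by
          apply mul_le_mul_of_nonneg_right _ (by positivity)
          have e2 : (2 : ℝ) ^ ((3 : ℝ) / 2) = 2 * Real.sqrt 2 := by
            rw [Real.sqrt_eq_rpow, show ((3 : ℝ) / 2) = 1 + 1 / 2 by norm_num,
              Real.rpow_add (by norm_num), Real.rpow_one]
          rw [e2]
          have e3 : Real.sqrt 2 ≤ 1.415 := by
            rw [Real.sqrt_le_left (by norm_num)]
            norm_num
          linarith
  refine h5.trans (mul_le_mul_of_nonneg_right ?_ hD.le)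
  have hpos : 0 ≤ (1 + Real.log k) ^ ((3 : ℝ) / 2) := by positivity
  nlinarith

variable {E : Type*} [NormedAddCommGroup E] [InnerProductSpace ℂ E] [CompleteSpace E]

/-- **The lower bound** for the distortion of grids in the trace class -/
theorem grid_bound (b : HilbertBasis ℕ ℂ E) {n m : ℕ} (hn : 1 ≤ n) (hm : 1 ≤ m)
    (f : (Fin n → Fin (m + 1)) → E →L[ℂ] E) {lam D : ℝ} (hlam : 0 < lam)
    (h : ∀ x y : Fin n → Fin (m + 1),
      ENNReal.ofReal (lam * dist (fun i => ((x i : ℕ) : ℝ)) (fun i => ((y i : ℕ) : ℝ)))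
        ≤ tnB b (f x - f y) ∧
      tnB b (f x - f y)
        ≤ ENNReal.ofReal (D * lam * dist (fun i => ((x i : ℕ) : ℝ)) (fun i => ((y i : ℕ) : ℝ)))) :
    ((min m ⌈Real.sqrt n⌉₊ : ℕ) : ℝ)
      ≤ 2000 * (1 + Real.log ((min m ⌈Real.sqrt n⌉₊ : ℕ) : ℝ)) ^ ((3 : ℝ) / 2) * D := by
  set k : ℕ := min m ⌈Real.sqrt n⌉₊ with hk
  have hn1 : (1 : ℝ) ≤ n := by exact_mod_cast hn
  have hsn : 1 ≤ Real.sqrt n := Real.one_le_sqrt.2 hn1
  have hkm : k ≤ m := min_le_left _ _
  have hk1 : 1 ≤ k := le_min hm (Nat.one_le_ceil_iff.2 (by linarith))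
  have hk1' : (1 : ℝ) ≤ k := by exact_mod_cast hk1
  have hkn : (k : ℝ) ≤ 2 * Real.sqrt n := by
    have h1 : (k : ℝ) ≤ (⌈Real.sqrt n⌉₊ : ℕ) := by exact_mod_cast min_le_right _ _
    have h2 := (Nat.ceil_lt_add_one (Real.sqrt_nonneg (n : ℝ))).le
    linarith
  have hfin : ∀ x y : Fin n → Fin (m + 1), tnB b (f x - f y) ≠ ∞ := fun x y =>
    ((h x y).2.trans_lt ENNReal.ofReal_lt_top).ne
  -- restriction to the smaller grid
  set g : (Fin n → Fin (k + 1)) → (Fin n → Fin (m + 1)) :=
    fun x i => Fin.castLE (Nat.succ_le_succ hkm) (x i) with hg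
  have hup : ∀ (x y : Fin n → Fin (k + 1)) (c : ℝ), 0 ≤ D * lam → 0 ≤ c →
      (∀ i, |((x i : ℕ) : ℝ) - ((y i : ℕ) : ℝ)| ≤ c) →
      (tnB b (f (g x) - f (g y))).toReal ≤ D * lam * c := by
    intro x y c hDl hc hxy
    refine ENNReal.toReal_le_of_le_ofReal (by positivity) ((h (g x) (g y)).2.trans ?_)
    apply ENNReal.ofReal_le_ofReal
    apply mul_le_mul_of_nonneg_left _ hDl
    rw [dist_pi_le_iff hc]
    intro i
    rw [Real.dist_eq]
    exact hxy i
  have hlow : ∀ (x y : Fin n → Fin (k + 1)) (c : ℝ) (i : Fin n),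
      c ≤ |((x i : ℕ) : ℝ) - ((y i : ℕ) : ℝ)| →
      lam * c ≤ (tnB b (f (g x) - f (g y))).toReal := by
    intro x y c i hxy
    have h1 := (ENNReal.ofReal_le_iff_le_toReal (hfin _ _)).1 (h (g x) (g y)).1
    refine le_trans (mul_le_mul_of_nonneg_left ?_ hlam.le) h1
    refine hxy.trans ?_
    have h2 := dist_le_pi_dist (fun i => (((g x) i : ℕ) : ℝ)) (fun i => (((g y) i : ℕ) : ℝ)) i
    rwa [Real.dist_eq] at h2
  have hD : 0 < D := by
    set i₀ : Fin n := ⟨0, hn⟩
    set z : Fin n → Fin (m + 1) := fun _ => 0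
    set w : Fin n → Fin (m + 1) := fun _ => Fin.last m
    have hd : 0 < dist (fun i => ((z i : ℕ) : ℝ)) (fun i => ((w i : ℕ) : ℝ)) := by
      have h2 := dist_le_pi_dist (fun i => ((z i : ℕ) : ℝ)) (fun i => ((w i : ℕ) : ℝ)) i₀
      have h3 : 0 < dist ((fun i => ((z i : ℕ) : ℝ)) i₀) ((fun i => ((w i : ℕ) : ℝ)) i₀) := by
        simp only [z, w, Fin.val_zero, Fin.val_last, Nat.cast_zero, dist_zero_left,
          Real.norm_eq_abs]
        rw [abs_of_nonneg (by positivity)]
        exact_mod_cast hm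
      linarith
    have h3 := (h z w).1.trans (h z w).2
    by_contra hD
    rw [not_lt] at hD
    have h4 : ENNReal.ofReal (D * lam * dist (fun i => ((z i : ℕ) : ℝ)) (fun i => ((w i : ℕ) : ℝ)))
        = 0 := by
      apply ENNReal.ofReal_of_nonpos
      apply mul_nonpos_of_nonpos_of_nonneg _ hd.le
      exact mul_nonpos_of_nonpos_of_nonneg hD hlam.le
    rw [h4] at h3
    have h5 := ENNReal.ofReal_eq_zero.1 (le_antisymm h3 bot_le)
    have : 0 < lam * dist (fun i => ((z i : ℕ) : ℝ)) (fun i => ((w i : ℕ) : ℝ)) := by positivity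
    linarith
  have hDl : 0 < D * lam := by positivity
  have hy : 1 ≤ 1 + Real.log k := by
    have := Real.log_nonneg hk1'
    linarith
  obtain ⟨l, hl1, hl2⟩ := exists_exponent hy
  have : Nonempty (Fin n) := ⟨⟨0, hn⟩⟩
  have hmain := operator_main b hk1 l (fun x => f (g x)) (fun x y => hfin _ _)
    (R := D * lam * k) (Δ := D * lam) (L := lam * k) (by positivity) hDl.le
    (by
      intro x
      apply hup x 0 k hDl.le (by positivity)
      intro i
      have h1 : ((x i : ℕ) : ℝ) ≤ k := by exact_mod_cast Nat.lt_succ_iff.1 (x i).isLt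
      simp only [Pi.zero_apply, Fin.val_zero, Nat.cast_zero, sub_zero]
      rw [abs_of_nonneg (by positivity)]
      exact h1)
    (by
      intro x y hxy
      have h1 := hup x y 1 hDl.le zero_le_one
        (by
          intro i
          obtain ⟨h1, h2⟩ := hxy i
          have h1' : ((x i : ℕ) : ℝ) ≤ ((y i : ℕ) : ℝ) + 1 := by exact_mod_cast h1
          have h2' : ((y i : ℕ) : ℝ) ≤ ((x i : ℕ) : ℝ) + 1 := by exact_mod_cast h2
          rw [abs_le]
          constructor <;> linarith)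
      rwa [mul_one] at h1)
    (by
      intro j z hz
      apply hlow _ _ k j
      rw [Function.update_self, hz]
      simp only [Fin.val_last, Fin.val_zero, Nat.cast_zero, sub_zero]
      exact le_abs_self _)
  rw [Fintype.card_fin] at hmain
  exact numeric hk1' hn1 hD hlam hkn l hl1 hl2 hmain

end Pool.Agent.H39.Tr
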