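import Mathlib

/-!
# Trace Hölder inequality for exponents that are powers of two

`sN l X = tr ((Xᴴ X)^(2^l))`, i.e. `‖X‖_{S_P}^P` with `P = 2^(l+1)`.
-/

open Matrix Finset
open scoped ComplexOrder MatrixOrder

set_option linter.unusedSectionVars false

namespace Pool.Agent.H39.Tr

variable {ι : Type*} [Fintype ι] [DecidableEq ι]

/-- `‖X‖_{S_P}^P` with `P = 2^(l+1)`. -/
noncomputable def sN (l : ℕ) (X : Matrix ι ι ℂ) : ℝ := (trace ((Xᴴ * X) ^ (2 ^ l))).re

lemma trace_mul_pow_comm (U V : Matrix ι ι ℂ) (m : ℕ) :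
    trace ((U * V) ^ m) = trace ((V * U) ^ m) := by
  cases m with
  | zero => simp
  | succ m =>
    have h : ∀ k : ℕ, (U * V) ^ (k + 1) = U * (V * U) ^ k * V := by
      intro k
      induction k with
      | zero => simp
      | succ k ih =>
        rw [pow_succ, ih, pow_succ]
        simp only [mul_assoc]
    rw [h, trace_mul_cycle, ← pow_succ' (V * U) m]

lemma posSemidef_pow_trace_re (A : Matrix ι ι ℂ) (hA : A.PosSemidef) (m : ℕ) :
    0 ≤ (trace (A ^ m)).re ∧ trace (A ^ m) = ((trace (A ^ m)).re : ℂ) := by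
  have h := (hA.pow m).trace_nonneg
  rw [Complex.le_def] at h
  refine ⟨by simpa using h.1, ?_⟩
  apply Complex.ext
  · simp
  · simpa using h.2.symm

lemma sN_nonneg (l : ℕ) (X : Matrix ι ι ℂ) : 0 ≤ sN l X :=
  (posSemidef_pow_trace_re _ (posSemidef_conjTranspose_mul_self X) _).1

lemma sN_coe (l : ℕ) (X : Matrix ι ι ℂ) : trace ((Xᴴ * X) ^ (2 ^ l)) = (sN l X : ℂ) :=
  (posSemidef_pow_trace_re _ (posSemidef_conjTranspose_mul_self X) _).2

lemma norm_trace_sN (l : ℕ) (X : Matrix ι ι ℂ) : ‖trace ((Xᴴ * X) ^ (2 ^ l))‖ = sN l X := by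
  rw [sN_coe, Complex.norm_real, Real.norm_eq_abs, abs_of_nonneg (sN_nonneg l X)]

lemma sN_conjTranspose (l : ℕ) (X : Matrix ι ι ℂ) : sN l Xᴴ = sN l X := by
  unfold sN
  rw [conjTranspose_conjTranspose, trace_mul_pow_comm]

lemma sN_zero_eq (X : Matrix ι ι ℂ) : sN 0 X = ∑ i, ∑ j, ‖X i j‖ ^ 2 := by
  unfold sN
  simp only [pow_zero, pow_one, trace, Matrix.diag, mul_apply, conjTranspose_apply]
  rw [Complex.re_sum]
  rw [Finset.sum_comm]
  apply Finset.sum_congr rfl
  intro i _
  rw [Complex.re_sum]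
  apply Finset.sum_congr rfl
  intro j _
  rw [Complex.star_def, mul_comm, Complex.mul_conj, Complex.normSq_eq_norm_sq, Complex.ofReal_re]

/-- for `A` positive semidefinite, `sN l A = tr (A^(2^(l+1)))`. -/
lemma sN_herm (l : ℕ) (A : Matrix ι ι ℂ) (hA : A.IsHermitian) :
    sN l A = (trace (A ^ (2 ^ (l + 1)))).re := by
  unfold sN
  rw [hA.eq, ← pow_two, ← pow_mul, pow_succ, mul_comm]

lemma sN_conj_mul_self (l : ℕ) (X : Matrix ι ι ℂ) : sN l (Xᴴ * X) = sN (l + 1) X := by
  rw [sN_herm l _ (isHermitian_conjTranspose_mul_self X)]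
  rfl

lemma sN_mul_self_conj (l : ℕ) (X : Matrix ι ι ℂ) : sN l (X * Xᴴ) = sN (l + 1) X := by
  rw [sN_herm l _ (isHermitian_mul_conjTranspose_self X), trace_mul_pow_comm]
  rfl

/-- Cauchy–Schwarz for the trace. -/
lemma norm_trace_mul_sq_le (X Y : Matrix ι ι ℂ) : ‖trace (X * Y)‖ ^ 2 ≤ sN 0 X * sN 0 Y := by
  have h1 : ‖trace (X * Y)‖ ≤ ∑ p : ι × ι, ‖X p.1 p.2‖ * ‖Y p.2 p.1‖ := by
    rw [Fintype.sum_prod_type]
    simp only [trace, Matrix.diag, mul_apply]
    refine (norm_sum_le _ _).trans (Finset.sum_le_sum fun i _ => ?_)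
    refine (norm_sum_le _ _).trans (Finset.sum_le_sum fun j _ => ?_)
    rw [norm_mul]
  have h2 := Finset.sum_mul_sq_le_sq_mul_sq (Finset.univ : Finset (ι × ι))
    (fun p => ‖X p.1 p.2‖) (fun p => ‖Y p.2 p.1‖)
  have h3 : ∑ p : ι × ι, ‖X p.1 p.2‖ ^ 2 = sN 0 X := by
    rw [Fintype.sum_prod_type, sN_zero_eq]
  have h4 : ∑ p : ι × ι, ‖Y p.2 p.1‖ ^ 2 = sN 0 Y := by
    rw [Fintype.sum_prod_type, sN_zero_eq, Finset.sum_comm]
  rw [h3, h4] at h2
  exact (pow_le_pow_left₀ (norm_nonneg _) h1 2).trans h2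

/-- multiply adjacent entries. -/
def pairUp : List (Matrix ι ι ℂ) → List (Matrix ι ι ℂ)
  | a :: b :: L => (a * b) :: pairUp L
  | _ => []

lemma pairUp_spec (f g : Matrix ι ι ℂ → ℝ) (hf : ∀ X, 0 ≤ f X) (hg : ∀ X, 0 ≤ g X)
    (hfg : ∀ X Y, f (X * Y) ^ 2 ≤ g X * g Y) : ∀ (m : ℕ) (L : List (Matrix ι ι ℂ)),
    L.length = 2 * m → (pairUp L).length = m ∧ (pairUp L).prod = L.prod ∧
      0 ≤ ((pairUp L).map f).prod ∧ 0 ≤ (L.map g).prod ∧
      ((pairUp L).map f).prod ^ 2 ≤ (L.map g).prod := by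
  intro m
  induction m with
  | zero =>
    intro L hL
    have : L = [] := List.length_eq_zero_iff.1 (by simpa using hL)
    subst this
    simp [pairUp]
  | succ m ih =>
    intro L hL
    match L, hL with
    | a :: b :: L, hL =>
      have hL' : L.length = 2 * m := by
        simp only [List.length_cons] at hL
        omega
      obtain ⟨h1, h2, h3, h4, h5⟩ := ih L hL'
      refine ⟨by simp [pairUp, h1], by simp [pairUp, h2, mul_assoc], ?_, ?_, ?_⟩
      · simp only [pairUp, List.map_cons, List.prod_cons]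
        exact mul_nonneg (hf _) h3
      · simp only [List.map_cons, List.prod_cons]
        exact mul_nonneg (hg _) (mul_nonneg (hg _) h4)
      · simp only [pairUp, List.map_cons, List.prod_cons]
        rw [mul_pow, ← mul_assoc]
        exact mul_le_mul (hfg _ _) h5 (sq_nonneg _) (mul_nonneg (hg _) (hg _))

lemma sN_list_prod_nonneg (l : ℕ) (L : List (Matrix ι ι ℂ)) : 0 ≤ (L.map (sN l)).prod := by
  apply List.prod_nonneg
  intro a ha
  obtain ⟨X, _, rfl⟩ := List.mem_map.1 ha
  exact sN_nonneg l X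

/-- the list `A, B, A, B, …` of length `2 h`. -/
def altList (A B : Matrix ι ι ℂ) : ℕ → List (Matrix ι ι ℂ)
  | 0 => []
  | h + 1 => A :: B :: altList A B h

lemma altList_length (A B : Matrix ι ι ℂ) (h : ℕ) : (altList A B h).length = 2 * h := by
  induction h with
  | zero => rfl
  | succ h ih => simp [altList, ih]; omega

lemma altList_prod (A B : Matrix ι ι ℂ) (h : ℕ) : (altList A B h).prod = (A * B) ^ h := by
  induction h with
  | zero => simp [altList]
  | succ h ih => simp [altList, ih, pow_succ', mul_assoc]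

lemma altList_map_prod (A B : Matrix ι ι ℂ) (f : Matrix ι ι ℂ → ℝ) (h : ℕ) :
    ((altList A B h).map f).prod = (f A * f B) ^ h := by
  induction h with
  | zero => simp [altList]
  | succ h ih => simp [altList, ih, pow_succ', mul_assoc]

/-- **Trace Hölder inequality** for `2^(l+1)` factors. -/
theorem norm_trace_list_prod_le (l : ℕ) : ∀ L : List (Matrix ι ι ℂ), L.length = 2 ^ (l + 1) →
    ‖trace L.prod‖ ^ (2 ^ (l + 1)) ≤ (L.map (sN l)).prod := by
  induction l with
  | zero =>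
    intro L hL
    match L, hL with
    | [X, Y], _ =>
      simpa using norm_trace_mul_sq_le X Y
  | succ l ih =>
    have key : ∀ X Y : Matrix ι ι ℂ, sN l (X * Y) ^ 2 ≤ sN (l + 1) X * sN (l + 1) Y := by
      intro X Y
      set A := Xᴴ * X
      set B := Y * Yᴴ
      have e1 : trace (((X * Y)ᴴ * (X * Y)) ^ (2 ^ l)) = trace ((A * B) ^ (2 ^ l)) := by
        have : (X * Y)ᴴ * (X * Y) = Yᴴ * (A * Y) := by
          rw [conjTranspose_mul]; simp only [A, mul_assoc]
        rw [this, trace_mul_pow_comm]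
        simp only [B, mul_assoc]
      have e2 : sN l (X * Y) = ‖trace (altList A B (2 ^ l)).prod‖ := by
        rw [altList_prod, ← e1, norm_trace_sN]
      have h1 := ih (altList A B (2 ^ l)) (by rw [altList_length, pow_succ]; ring)
      rw [← e2, altList_map_prod, pow_succ, mul_comm (2 ^ l) 2, pow_mul] at h1
      have h2 : sN l (X * Y) ^ 2 ≤ sN l A * sN l B :=
        le_of_pow_le_pow_left₀ (pow_ne_zero l two_ne_zero)
          (mul_nonneg (sN_nonneg _ _) (sN_nonneg _ _)) h1
      simpa only [A, B, sN_conj_mul_self, sN_mul_self_conj] using h2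
    intro L hL
    obtain ⟨h1, h2, h3, h4, h5⟩ := pairUp_spec (sN l) (sN (l + 1)) (sN_nonneg l)
      (sN_nonneg (l + 1)) key (2 ^ (l + 1)) L (by rw [hL, pow_succ 2 (l + 1)]; ring)
    have h6 := ih (pairUp L) h1
    rw [h2] at h6
    calc ‖trace L.prod‖ ^ (2 ^ (l + 1 + 1)) = (‖trace L.prod‖ ^ (2 ^ (l + 1))) ^ 2 := by
          rw [← pow_mul, ← pow_succ]
      _ ≤ (((pairUp L).map (sN l)).prod) ^ 2 := pow_le_pow_left₀ (by positivity) h6 2
      _ ≤ _ := h5

/-- trace of a product of two positive semidefinite matrices is nonnegative. -/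
lemma trace_mul_re_nonneg {A B : Matrix ι ι ℂ} (hA : A.PosSemidef) (hB : B.PosSemidef) :
    0 ≤ (trace (A * B)).re := by
  obtain ⟨C, rfl⟩ : ∃ C : Matrix ι ι ℂ, B = star C * C :=
    CStarAlgebra.nonneg_iff_eq_star_mul_self.mp hB.nonneg
  rw [star_eq_conjTranspose, ← mul_assoc, trace_mul_comm, ← mul_assoc]
  have h := (hA.mul_mul_conjTranspose_same C).trace_nonneg
  rw [Complex.le_def] at h
  simpa using h.1

/-- monotonicity of `A ↦ tr (A^(2^l))` on positive semidefinite matrices. -/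
lemma trace_pow_mono (l : ℕ) {S T : Matrix ι ι ℂ} (hS : S.PosSemidef) (hT : T.PosSemidef)
    (hST : (T - S).PosSemidef) : (trace (S ^ (2 ^ l))).re ≤ (trace (T ^ (2 ^ l))).re := by
  cases l with
  | zero =>
    simp only [pow_zero, pow_one]
    have h := hST.trace_nonneg
    rw [trace_sub, Complex.le_def] at h
    simpa using h.1
  | succ l =>
    set u := (trace (S ^ (2 ^ (l + 1)))).re with hu
    set v := (trace (T ^ (2 ^ (l + 1)))).re with hv
    have hu0 : 0 ≤ u := (posSemidef_pow_trace_re S hS _).1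
    have hv0 : 0 ≤ v := (posSemidef_pow_trace_re T hT _).1
    set κ := 2 ^ (l + 1) with hκ
    have hκ1 : 1 ≤ κ := Nat.one_le_two_pow
    have h1 : u ≤ (trace (S ^ (κ - 1) * T)).re := by
      have h := trace_mul_re_nonneg (hS.pow (κ - 1)) hST
      rw [mul_sub, trace_sub, Complex.sub_re, ← pow_succ, Nat.sub_add_cancel hκ1] at h
      linarith
    have h2 := norm_trace_list_prod_le l (List.replicate (κ - 1) S ++ [T])
      (by simp; omega)
    simp only [List.prod_append, List.prod_replicate, List.prod_singleton, List.map_append,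
      List.map_replicate, List.map_cons, List.map_nil] at h2
    rw [sN_herm l S hS.isHermitian, sN_herm l T hT.isHermitian, ← hκ, ← hu, ← hv] at h2
    have h3 : u ^ κ ≤ u ^ (κ - 1) * v := by
      refine le_trans (pow_le_pow_left₀ hu0 (h1.trans ?_) κ) h2
      exact Complex.re_le_norm _
    rcases hu0.eq_or_lt with h0 | h0
    · rw [← h0]; exact hv0
    · have h4 : u ^ κ = u ^ (κ - 1) * u := by rw [← pow_succ, Nat.sub_add_cancel hκ1]
      rw [h4] at h3
      exact le_of_mul_le_mul_left h3 (pow_pos h0 _)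

end Pool.Agent.H39.Tr
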