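import Pool.Agent.H39.Tr.Hoelder

/-!
# Ideal property, diagonal and rank inequalities for `sN l X = ‖X‖_{S_P}^P`, `P = 2^(l+1)`
-/

open Matrix Finset
open scoped ComplexOrder MatrixOrder Matrix.Norms.L2Operator

set_option linter.unusedSectionVars false

namespace Pool.Agent.H39.Tr

variable {ι : Type*} [Fintype ι] [DecidableEq ι]

lemma posSemidef_norm_sq_sub (A : Matrix ι ι ℂ) :
    (((‖A‖ ^ 2 : ℝ) : ℂ) • (1 : Matrix ι ι ℂ) - Aᴴ * A).PosSemidef := by
  have h := CStarAlgebra.star_mul_le_algebraMap_norm_sq (a := A)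
  rw [Matrix.le_iff] at h
  have e : (algebraMap ℝ (Matrix ι ι ℂ)) (‖A‖ ^ 2) = ((‖A‖ ^ 2 : ℝ) : ℂ) • (1 : Matrix ι ι ℂ) := by
    rw [Algebra.algebraMap_eq_smul_one]
    ext i j
    simp
  rwa [e, star_eq_conjTranspose] at h

lemma trace_pow_smul (c : ℂ) (A : Matrix ι ι ℂ) (m : ℕ) :
    trace ((c • A) ^ m) = c ^ m * trace (A ^ m) := by
  rw [smul_pow, trace_smul, smul_eq_mul]

lemma sN_smul (l : ℕ) (c : ℂ) (X : Matrix ι ι ℂ) :
    sN l (c • X) = ‖c‖ ^ (2 ^ (l + 1)) * sN l X := by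
  unfold sN
  have e : (c • X)ᴴ * (c • X) = ((‖c‖ ^ 2 : ℝ) : ℂ) • (Xᴴ * X) := by
    rw [conjTranspose_smul, smul_mul_smul_comm]
    congr 1
    rw [Complex.star_def, mul_comm, Complex.mul_conj, Complex.normSq_eq_norm_sq]
  rw [e, trace_pow_smul, ← Complex.ofReal_pow, Complex.re_ofReal_mul, ← pow_mul]
  congr 2
  rw [pow_succ]; ring

theorem sN_mul_left_le (l : ℕ) (A X : Matrix ι ι ℂ) :
    sN l (A * X) ≤ ‖A‖ ^ (2 ^ (l + 1)) * sN l X := by
  set c : ℂ := ((‖A‖ ^ 2 : ℝ) : ℂ) with hc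
  have h1 := posSemidef_norm_sq_sub A
  have h2 : (c • (Xᴴ * X)).PosSemidef := by
    apply (posSemidef_conjTranspose_mul_self X).smul
    rw [hc]
    exact_mod_cast sq_nonneg ‖A‖
  have h3 : (c • (Xᴴ * X) - (A * X)ᴴ * (A * X)).PosSemidef := by
    have h := h1.conjTranspose_mul_mul_same X
    have e : Xᴴ * (c • (1 : Matrix ι ι ℂ) - Aᴴ * A) * X
        = c • (Xᴴ * X) - (A * X)ᴴ * (A * X) := by
      rw [conjTranspose_mul, mul_sub, sub_mul, mul_smul_comm, mul_one, smul_mul_assoc]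
      simp only [mul_assoc]
    rwa [← e]
  have h4 := trace_pow_mono l (posSemidef_conjTranspose_mul_self (A * X)) h2 h3
  have h5 : (trace ((c • (Xᴴ * X)) ^ (2 ^ l))).re = ‖A‖ ^ (2 ^ (l + 1)) * sN l X := by
    rw [trace_pow_smul, sN_coe, hc]
    rw [← Complex.ofReal_pow, ← Complex.ofReal_mul, Complex.ofReal_re, ← pow_mul, pow_succ 2 l,
      mul_comm (2 ^ l) 2]
  rw [h5] at h4
  exact h4

theorem sN_mul_right_le (l : ℕ) (X A : Matrix ι ι ℂ) :
    sN l (X * A) ≤ ‖A‖ ^ (2 ^ (l + 1)) * sN l X := by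
  rw [← sN_conjTranspose l (X * A), conjTranspose_mul, ← sN_conjTranspose l X,
    ← l2_opNorm_conjTranspose A]
  exact sN_mul_left_le l Aᴴ Xᴴ

/-- unitary invariance -/
lemma sN_unitary (l : ℕ) (U X : Matrix ι ι ℂ) (hU : U * Uᴴ = 1) :
    sN l (Uᴴ * X * U) = sN l X := by
  unfold sN
  have hU' : Uᴴ * U = 1 := mul_eq_one_comm.1 hU
  have e : (Uᴴ * X * U)ᴴ * (Uᴴ * X * U) = Uᴴ * ((Xᴴ * X) * U) := by
    rw [conjTranspose_mul, conjTranspose_mul, conjTranspose_conjTranspose]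
    calc Uᴴ * (Xᴴ * U) * (Uᴴ * X * U) = Uᴴ * Xᴴ * (U * Uᴴ) * X * U := by
          simp only [mul_assoc]
      _ = _ := by rw [hU]; simp only [mul_assoc, mul_one]
  rw [e, trace_mul_pow_comm, mul_assoc, hU, mul_one]

lemma diag_pow_le {B : Matrix ι ι ℂ} (hB : B.PosSemidef) (n : ι) (l : ℕ) :
    (B n n).re ^ (2 ^ l) ≤ ((B ^ (2 ^ l)) n n).re := by
  induction l generalizing B with
  | zero => simp
  | succ l ih =>
    have h0 : 0 ≤ (B n n).re := by
      have := hB.diag_nonneg (i := n)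
      rw [Complex.le_def] at this
      simpa using this.1
    have h1 : (B n n).re ^ 2 ≤ ((B ^ 2) n n).re := by
      rw [pow_two B, mul_apply, Complex.re_sum]
      have h2 : ∀ i, (B n i * B i n).re = ‖B i n‖ ^ 2 := by
        intro i
        have : B n i = star (B i n) := (hB.isHermitian.apply n i).symm
        rw [this, Complex.star_def, mul_comm, Complex.mul_conj, Complex.normSq_eq_norm_sq,
          Complex.ofReal_re]
      simp only [h2]
      refine le_trans ?_ (Finset.single_le_sum (f := fun i => ‖B i n‖ ^ 2)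
        (fun i _ => sq_nonneg _) (Finset.mem_univ n))
      exact pow_le_pow_left₀ h0 (Complex.re_le_norm _) 2
    calc (B n n).re ^ (2 ^ (l + 1)) = ((B n n).re ^ 2) ^ (2 ^ l) := by
          rw [← pow_mul, pow_succ 2 l, mul_comm]
      _ ≤ ((B ^ 2) n n).re ^ (2 ^ l) := pow_le_pow_left₀ (sq_nonneg _) h1 _
      _ ≤ (((B ^ 2) ^ (2 ^ l)) n n).re := ih (hB.pow 2)
      _ = _ := by rw [← pow_mul, pow_succ 2 l, mul_comm (2 ^ l) 2]

/-- the diagonal inequality -/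
theorem sum_diag_pow_le (l : ℕ) (K : Matrix ι ι ℂ) :
    ∑ n, ‖K n n‖ ^ (2 ^ (l + 1)) ≤ sN l K := by
  have hB := posSemidef_conjTranspose_mul_self K
  have h1 : ∀ n, ‖K n n‖ ^ (2 ^ (l + 1)) ≤ (((Kᴴ * K) ^ (2 ^ l)) n n).re := by
    intro n
    refine le_trans ?_ (diag_pow_le hB n l)
    rw [pow_succ 2 l, mul_comm (2 ^ l) 2, pow_mul]
    apply pow_le_pow_left₀ (sq_nonneg _)
    rw [mul_apply, Complex.re_sum]
    have h2 : ∀ i, (Kᴴ n i * K i n).re = ‖K i n‖ ^ 2 := by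
      intro i
      rw [conjTranspose_apply, Complex.star_def, mul_comm, Complex.mul_conj,
        Complex.normSq_eq_norm_sq, Complex.ofReal_re]
    simp only [h2]
    exact Finset.single_le_sum (f := fun i => ‖K i n‖ ^ 2)
      (fun i _ => sq_nonneg _) (Finset.mem_univ n)
  refine (Finset.sum_le_sum fun n _ => h1 n).trans ?_
  rw [← Complex.re_sum]
  exact le_of_eq rfl

/-- Diagonalisation of a Hermitian matrix. -/
lemma exists_diagonalization {A : Matrix ι ι ℂ} (hA : A.IsHermitian) :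
    ∃ U : Matrix ι ι ℂ, U * Uᴴ = 1 ∧ Uᴴ * U = 1 ∧
      Uᴴ * A * U = diagonal (fun i => (hA.eigenvalues i : ℂ)) := by
  refine ⟨hA.eigenvectorUnitary, ?_, ?_, ?_⟩
  · exact (Matrix.mem_unitaryGroup_iff).1 hA.eigenvectorUnitary.2
  · exact (Matrix.mem_unitaryGroup_iff').1 hA.eigenvectorUnitary.2
  · have h := hA.conjStarAlgAut_star_eigenvectorUnitary
    rw [Unitary.conjStarAlgAut_star_apply] at h
    exact h

/-- `|tr X|^P ≤ N^(P-1) ‖X‖_{S_P}^P` if `rank X ≤ N`. -/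
theorem norm_trace_pow_le_of_rank (l : ℕ) (X : Matrix ι ι ℂ) (N : ℕ) (hX : X.rank ≤ N) :
    ‖trace X‖ ^ (2 ^ (l + 1)) ≤ (N : ℝ) ^ (2 ^ (l + 1) - 1) * sN l X := by
  have hH := isHermitian_conjTranspose_mul_self X
  obtain ⟨U, hU1, hU2, hU3⟩ := exists_diagonalization hH
  set Y := Uᴴ * X * U with hY
  have htr : trace Y = trace X := by
    rw [hY, trace_mul_cycle, hU1, one_mul]
  have hYY : Yᴴ * Y = diagonal (fun i => (hH.eigenvalues i : ℂ)) := by
    rw [← hU3, hY, conjTranspose_mul, conjTranspose_mul, conjTranspose_conjTranspose]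
    calc Uᴴ * (Xᴴ * U) * (Uᴴ * X * U) = Uᴴ * Xᴴ * (U * Uᴴ) * X * U := by
          simp only [mul_assoc]
      _ = _ := by rw [hU1]; simp only [mul_assoc, mul_one]
  have hzero : ∀ n, hH.eigenvalues n = 0 → Y n n = 0 := by
    intro n hn
    have h1 : (Yᴴ * Y) n n = 0 := by rw [hYY, diagonal_apply_eq, hn]; simp
    rw [mul_apply] at h1
    have h2 : ∑ i, ((‖Y i n‖ ^ 2 : ℝ) : ℂ) = 0 := by
      rw [← h1]
      apply Finset.sum_congr rfl
      intro i _
      rw [conjTranspose_apply, Complex.star_def, mul_comm, Complex.mul_conj,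
        Complex.normSq_eq_norm_sq]
    have h3 : ∑ i, ‖Y i n‖ ^ 2 = 0 := by exact_mod_cast h2
    rw [Finset.sum_eq_zero_iff_of_nonneg (fun i _ => sq_nonneg _)] at h3
    simpa using h3 n (Finset.mem_univ n)
  set S : Finset ι := Finset.univ.filter (fun i => hH.eigenvalues i ≠ 0) with hS
  have hcard : S.card ≤ N := by
    refine le_trans (le_of_eq ?_) hX
    rw [← rank_conjTranspose_mul_self X, hH.rank_eq_card_non_zero_eigs, Fintype.card_subtype]
  have h1 : ‖trace X‖ ≤ ∑ n ∈ S, ‖Y n n‖ := by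
    rw [← htr, trace]
    refine (norm_sum_le _ _).trans (le_of_eq ?_)
    rw [hS, Finset.sum_filter_of_ne]
    · rfl
    · intro n _ hn h0
      apply hn
      rw [hzero n h0, norm_zero]
  have hP : 2 ^ (l + 1) - 1 + 1 = 2 ^ (l + 1) := Nat.sub_add_cancel Nat.one_le_two_pow
  have hsum : 0 ≤ ∑ n ∈ S, ‖Y n n‖ := Finset.sum_nonneg fun _ _ => norm_nonneg _
  have h2 : (∑ n ∈ S, ‖Y n n‖) ^ (2 ^ (l + 1))
      ≤ (S.card : ℝ) ^ (2 ^ (l + 1) - 1) * ∑ n ∈ S, ‖Y n n‖ ^ (2 ^ (l + 1)) := by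
    rcases S.eq_empty_or_nonempty with h0 | h0
    · rw [h0]
      simp
    · have h4 := pow_sum_div_card_le_sum_pow (s := S) (f := fun n => ‖Y n n‖)
        (fun i _ => norm_nonneg _) (2 ^ (l + 1) - 1)
      have hc0 : (0 : ℝ) < (S.card : ℝ) ^ (2 ^ (l + 1) - 1) :=
        pow_pos (by exact_mod_cast h0.card_pos) _
      rw [hP, div_le_iff₀ hc0] at h4
      rw [mul_comm]
      exact h4
  have h5 : ∑ n ∈ S, ‖Y n n‖ ^ (2 ^ (l + 1)) ≤ sN l X := by
    refine le_trans ?_ ((sum_diag_pow_le l Y).trans (le_of_eq (sN_unitary l U X hU1)))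
    exact Finset.sum_le_sum_of_subset_of_nonneg (Finset.subset_univ _) (fun _ _ _ => by positivity)
  calc ‖trace X‖ ^ (2 ^ (l + 1)) ≤ (∑ n ∈ S, ‖Y n n‖) ^ (2 ^ (l + 1)) :=
        pow_le_pow_left₀ (norm_nonneg _) h1 _
    _ ≤ _ := h2
    _ ≤ (N : ℝ) ^ (2 ^ (l + 1) - 1) * sN l X := by
        apply mul_le_mul _ h5 (Finset.sum_nonneg fun _ _ => by positivity) (by positivity)
        exact pow_le_pow_left₀ (by positivity) (by exact_mod_cast hcard) _

end Pool.Agent.H39.Tr
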