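import Pool.Agent.H39.Tr.Cell

/-!
# The distortion inequality for grids of Hermitian matrices with the trace norm
-/

open Matrix Finset
open scoped ComplexOrder MatrixOrder Matrix.Norms.L2Operator

set_option linter.unusedSectionVars false

namespace Pool.Agent.H39.Tr

variable {ι : Type*} [Fintype ι] [DecidableEq ι]
variable {J : Type*} [Fintype J] [DecidableEq J] {k : ℕ}

/-- the weights `s 2^i` -/
noncomputable def wt (s : ℝ) (i : ℕ) : ℝ := s * 2 ^ i

/-- the pairing `∑_i w_i tr (H_i F_i)` -/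
noncomputable def pairing (s : ℝ) (M : ℕ) :
    (ℕ → Matrix ι ι ℂ) →ₗ[ℝ] (ℕ → Matrix ι ι ℂ) →ₗ[ℝ] ℂ :=
  LinearMap.mk₂ ℝ (fun H F => ∑ i ∈ range M, ((wt s i : ℝ) : ℂ) * trace (H i * F i))
    (by intro H₁ H₂ F; simp only [Pi.add_apply, add_mul, trace_add, mul_add,
          Finset.sum_add_distrib])
    (by intro c H F; simp only [Pi.smul_apply, smul_mul_assoc, trace_smul, Finset.smul_sum,
          mul_smul_comm])
    (by intro H F₁ F₂; simp only [Pi.add_apply, trace_add, mul_add, Finset.sum_add_distrib])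
    (by intro c H F; simp only [Pi.smul_apply, trace_smul, Finset.smul_sum, mul_smul_comm])

lemma pairing_apply (s : ℝ) (M : ℕ) (H F : ℕ → Matrix ι ι ℂ) :
    pairing s M H F = ∑ i ∈ range M, ((wt s i : ℝ) : ℂ) * trace (H i * F i) := rfl

/-- the sum `∑_i w_i ‖H_i‖_P^P` -/
noncomputable def sS (l : ℕ) (s : ℝ) (M : ℕ) (H : ℕ → Matrix ι ι ℂ) : ℝ :=
  ∑ i ∈ range M, wt s i * sN l (H i)

lemma sS_nonneg (l : ℕ) {s : ℝ} (hs : 0 < s) (M : ℕ) (H : ℕ → Matrix ι ι ℂ) :
    0 ≤ sS l s M H :=
  Finset.sum_nonneg fun i _ => mul_nonneg (by unfold wt; positivity) (sN_nonneg _ _)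

/-- type 2 for the direct sum -/
lemma type_two (l : ℕ) {s : ℝ} (hs : 0 < s) (M : ℕ) (H : J → ℕ → Matrix ι ι ℂ) {b : ℝ}
    (hb : 0 ≤ b) (hH : ∀ j, sS l s M (H j) ^ (1 / PP l) ≤ b) :
    ∑ ε : J → Bool, sS l s M (∑ j, sgn (ε j) • H j) ^ (1 / PP l)
      ≤ 2 ^ Fintype.card J *
        (2 * Real.sqrt (Real.exp 1 * PP l * Fintype.card J) * b) := by
  set P := PP l with hP
  have hP2 : 2 ≤ P := two_le_PP l
  set n := Fintype.card J with hn
  have hsP : ∀ j, sS l s M (H j) ≤ b ^ (2 ^ (l + 1)) := by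
    intro j
    have h0 := sS_nonneg l hs M (H j)
    have h1 : (sS l s M (H j) ^ (1 / P)) ^ (2 ^ (l + 1)) ≤ b ^ (2 ^ (l + 1)) :=
      pow_le_pow_left₀ (Real.rpow_nonneg h0 _) (hH j) _
    rw [← rpow_PP, ← Real.rpow_mul h0, ← hP, one_div, inv_mul_cancel₀ (by linarith),
      Real.rpow_one] at h1
    exact h1
  -- total moment
  have htot : ∑ ε : J → Bool, sS l s M (∑ j, sgn (ε j) • H j)
      ≤ 2 ^ n * (2 * (Real.exp 1 * P * n) ^ (2 ^ l) * b ^ (2 ^ (l + 1))) := by
    have e1 : ∑ ε : J → Bool, sS l s M (∑ j, sgn (ε j) • H j)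
        = ∑ i ∈ range M, wt s i * ∑ ε : J → Bool,
            sN l (∑ j, ((sgn (ε j) : ℝ) : ℂ) • H j i) := by
      unfold sS
      rw [Finset.sum_comm]
      apply Finset.sum_congr rfl
      intro i _
      rw [Finset.mul_sum]
      apply Finset.sum_congr rfl
      intro ε _
      congr 2
      rw [Finset.sum_apply]
      apply Finset.sum_congr rfl
      intro j _
      rw [Pi.smul_apply]
      ext a b
      simp
    rw [e1]
    set K : ℝ := 2 * 2 ^ n * (Real.exp 1 * 2 ^ (l + 1)) ^ (2 ^ l) * (n : ℝ) ^ (2 ^ l - 1) with hK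
    have hK0 : 0 ≤ K := by positivity
    calc ∑ i ∈ range M, wt s i * ∑ ε : J → Bool, sN l (∑ j, ((sgn (ε j) : ℝ) : ℂ) • H j i)
        ≤ ∑ i ∈ range M, wt s i * (K * ∑ j, sN l (H j i)) := by
          apply Finset.sum_le_sum
          intro i _
          apply mul_le_mul_of_nonneg_left _ (by unfold wt; positivity)
          refine (sum_sN_sgn_le l (fun j => H j i)).trans (le_of_eq ?_)
          rw [hK]
          ring
      _ = K * ∑ j, sS l s M (H j) := by
          unfold sS
          rw [Finset.sum_comm, Finset.mul_sum]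
          apply Finset.sum_congr rfl
          intro i _
          rw [Finset.mul_sum, Finset.mul_sum, Finset.mul_sum]
          exact Finset.sum_congr rfl fun j _ => by ring
      _ ≤ K * ∑ j : J, b ^ (2 ^ (l + 1)) :=
          mul_le_mul_of_nonneg_left (Finset.sum_le_sum fun j _ => hsP j) hK0
      _ = _ := by
          rw [Finset.sum_const, Finset.card_univ, ← hn, nsmul_eq_mul, hK]
          have h2 : (Real.exp 1 * P * n) ^ (2 ^ l)
              = (Real.exp 1 * 2 ^ (l + 1)) ^ (2 ^ l) * ((n : ℝ) ^ (2 ^ l - 1) * n) := by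
            rw [mul_pow (Real.exp 1 * P), ← pow_succ, Nat.sub_add_cancel Nat.one_le_two_pow]
            rfl
          rw [h2]
          ring
  have hjen := Real.arith_mean_le_rpow_mean (Finset.univ : Finset (J → Bool))
    (fun _ => (1 : ℝ) / 2 ^ n) (fun ε => sS l s M (∑ j, sgn (ε j) • H j) ^ (1 / P))
    (fun _ _ => by positivity)
    (by
      rw [Finset.sum_const, Finset.card_univ, Fintype.card_fun, Fintype.card_bool, ← hn,
        nsmul_eq_mul]
      push_cast
      field_simp)
    (fun ε _ => Real.rpow_nonneg (sS_nonneg l hs M _) _) (p := P) (by linarith)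
  have e2 : ∀ ε : J → Bool, (sS l s M (∑ j, sgn (ε j) • H j) ^ (1 / P)) ^ P
      = sS l s M (∑ j, sgn (ε j) • H j) := by
    intro ε
    rw [← Real.rpow_mul (sS_nonneg l hs M _), one_div, inv_mul_cancel₀ (by linarith),
      Real.rpow_one]
  simp only [e2] at hjen
  rw [← Finset.mul_sum, ← Finset.mul_sum] at hjen
  have hE : (0 : ℝ) < 2 ^ n := by positivity
  have h3 : (1 / 2 ^ n * ∑ ε : J → Bool, sS l s M (∑ j, sgn (ε j) • H j)) ^ (1 / P)
      ≤ 2 * Real.sqrt (Real.exp 1 * P * n) * b := by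
    have h4 : 1 / 2 ^ n * ∑ ε : J → Bool, sS l s M (∑ j, sgn (ε j) • H j)
        ≤ (2 * Real.sqrt (Real.exp 1 * P * n) * b) ^ P := by
      rw [one_div, inv_mul_le_iff₀ hE]
      refine htot.trans (mul_le_mul_of_nonneg_left ?_ hE.le)
      rw [hP, rpow_PP, ← hP, mul_pow (2 * Real.sqrt (Real.exp 1 * P * n)) b,
        mul_pow 2 (Real.sqrt (Real.exp 1 * P * n))]
      have h5 : Real.sqrt (Real.exp 1 * P * n) ^ (2 ^ (l + 1))
          = (Real.exp 1 * P * n) ^ (2 ^ l) := by
        rw [pow_succ, mul_comm (2 ^ l) 2, pow_mul, Real.sq_sqrt (by positivity)]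
      rw [h5]
      have h6 : (2 : ℝ) ≤ 2 ^ (2 ^ (l + 1)) := by
        calc (2 : ℝ) = 2 ^ 1 := by norm_num
          _ ≤ _ := pow_le_pow_right₀ (by norm_num) Nat.one_le_two_pow
      gcongr
    have h7 := Real.rpow_le_rpow (mul_nonneg (by positivity)
      (Finset.sum_nonneg fun ε _ => sS_nonneg l hs M _)) h4 (z := 1 / P) (by positivity)
    rwa [← Real.rpow_mul (by positivity), mul_one_div_cancel (by linarith), Real.rpow_one] at h7
  have h8 := hjen.trans h3
  rw [one_div, inv_mul_le_iff₀ hE] at h8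
  exact h8

lemma norm_diag_le (Y : Matrix ι ι ℂ) (i : ι) : ‖Y i i‖ ≤ ‖Y‖ := by
  have h := l2_opNorm_mulVec Y (EuclideanSpace.single i 1)
  have h1 : ‖(EuclideanSpace.single i (1 : ℂ))‖ = 1 := by simp
  rw [h1, mul_one] at h
  refine le_trans ?_ h
  have h2 := PiLp.norm_apply_le (WithLp.toLp 2 (Y *ᵥ (EuclideanSpace.single i (1 : ℂ)).ofLp)) i
  refine le_trans (le_of_eq ?_) h2
  simp

lemma norm_trace_le (Y : Matrix ι ι ℂ) : ‖trace Y‖ ≤ Fintype.card ι * ‖Y‖ := by
  unfold trace
  refine (norm_sum_le _ _).trans ((Finset.sum_le_sum fun i _ => norm_diag_le Y i).trans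
    (le_of_eq ?_))
  rw [Finset.sum_const, Finset.card_univ, nsmul_eq_mul]

lemma norm_sub_mul_phi_le {σ : ℝ} (hσ : 0 < σ) {a : Matrix ι ι ℂ} (ha : a.IsHermitian) :
    ‖a - a * phi σ a‖ ≤ σ := by
  obtain ⟨U, h1, h2, h3⟩ := herm_cj ha
  set v := ha.eigenvalues
  rw [h3, phi_cj hσ h1 h2, cj_mul h2, ← cj_sub, diagonal_mul_diagonal, diagonal_sub]
  refine (norm_cj_le h2 _).trans (norm_diagonal_le hσ.le fun i => ?_)
  have e1 := sub_I_ne_zero (v i) hσ
  have e2 : (v i : ℂ) - (v i : ℂ) * ((v i : ℂ) * ((v i : ℂ) - Complex.I * σ)⁻¹)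
      = -(Complex.I * σ) * ((v i : ℂ) * ((v i : ℂ) - Complex.I * σ)⁻¹) := by
    field_simp
    ring
  rw [e2, norm_mul, norm_neg, norm_mul, Complex.norm_I, one_mul, Complex.norm_real,
    Real.norm_eq_abs, abs_of_pos hσ]
  have h4 : ‖(v i : ℂ) * ((v i : ℂ) - Complex.I * σ)⁻¹‖ ≤ 1 := by
    rw [norm_mul, norm_inv, Complex.norm_real, Real.norm_eq_abs, ← div_eq_mul_inv]
    exact div_le_one_of_le₀ (abs_le_norm_sub_I _ _) (norm_nonneg _)
  nlinarith

lemma norm_mul_phi_le {σ : ℝ} (hσ : 0 < σ) {a : Matrix ι ι ℂ} (ha : a.IsHermitian) :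
    ‖a * phi σ a‖ ≤ ‖a‖ ^ 2 / σ := by
  unfold phi
  calc ‖a * (a * res σ a)‖ ≤ ‖a‖ * (‖a‖ * ‖res σ a‖) := by
        refine (norm_mul_le _ _).trans ?_
        exact mul_le_mul_of_nonneg_left (norm_mul_le _ _) (norm_nonneg _)
    _ ≤ ‖a‖ * (‖a‖ * (1 / σ)) := by
        have := norm_res_le hσ ha
        gcongr
    _ = _ := by ring

/-- the error of the reconstruction formula -/
noncomputable def Err (s : ℝ) (M : ℕ) (a : Matrix ι ι ℂ) : Matrix ι ι ℂ :=
  (a - a * phi s a) + a * phi (wt s M) a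

lemma reconstruct {s : ℝ} (hs : 0 < s) (M : ℕ) {a : Matrix ι ι ℂ} (ha : a.IsHermitian) :
    a = (∑ i ∈ range M, (-(Complex.I * (wt s i : ℝ))) • (phi (wt s i) a * phi (2 * wt s i) a))
      + Err s M a := by
  have h1 : ∀ i, (-(Complex.I * (wt s i : ℝ))) • (phi (wt s i) a * phi (2 * wt s i) a)
      = a * phi (wt s i) a - a * phi (wt s (i + 1)) a := by
    intro i
    have hw : 0 < wt s i := by unfold wt; positivity
    rw [phi_mul_phi hw ha]
    have : 2 * wt s i = wt s (i + 1) := by unfold wt; rw [pow_succ]; ring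
    rw [this]
  rw [Finset.sum_congr rfl (fun i _ => h1 i), Finset.sum_range_sub']
  have h0 : wt s 0 = s := by unfold wt; simp
  rw [h0]
  unfold Err
  abel

lemma trace_reconstruct {s : ℝ} (hs : 0 < s) (M : ℕ) {a b : Matrix ι ι ℂ} (ha : a.IsHermitian)
    (hb : b.IsHermitian) (Z : Matrix ι ι ℂ) :
    trace (Z * (a - b))
      = (-Complex.I) * (∑ i ∈ range M, ((wt s i : ℝ) : ℂ) *
          trace ((Z * phi (wt s i) a) * (phi (2 * wt s i) a - phi (2 * wt s i) b)))
        + (-Complex.I) * (∑ i ∈ range M, ((wt s i : ℝ) : ℂ) *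
          trace ((phi (2 * wt s i) b * Z) * (phi (wt s i) a - phi (wt s i) b)))
        + trace (Z * (Err s M a - Err s M b)) := by
  have h1 : a - b = (∑ i ∈ range M, (-(Complex.I * (wt s i : ℝ))) •
      (phi (wt s i) a * (phi (2 * wt s i) a - phi (2 * wt s i) b)
        + (phi (wt s i) a - phi (wt s i) b) * phi (2 * wt s i) b)) + (Err s M a - Err s M b) := by
    conv_lhs => rw [reconstruct hs M ha, reconstruct hs M hb]
    rw [add_sub_add_comm, ← Finset.sum_sub_distrib]
    congr 1
    apply Finset.sum_congr rfl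
    intro i _
    rw [← smul_sub]
    congr 1
    rw [mul_sub, sub_mul]
    abel
  conv_lhs => rw [h1]
  rw [mul_add, trace_add]
  congr 1
  rw [Finset.mul_sum, trace_sum, Finset.mul_sum, Finset.mul_sum, ← Finset.sum_add_distrib]
  apply Finset.sum_congr rfl
  intro i _
  rw [mul_smul_comm, trace_smul, smul_eq_mul, mul_add, trace_add]
  have h2 : trace (Z * ((phi (wt s i) a - phi (wt s i) b) * phi (2 * wt s i) b))
      = trace ((phi (2 * wt s i) b * Z) * (phi (wt s i) a - phi (wt s i) b)) := by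
    rw [← mul_assoc, trace_mul_comm, ← mul_assoc]
  rw [h2, ← mul_assoc Z]
  ring

/-- size of the dual families -/
lemma dual_size (l : ℕ) {s : ℝ} (hs : 0 < s) (M : ℕ) {a : Matrix ι ι ℂ} (ha : a.IsHermitian)
    {R : ℝ} (hR : ∀ S : Matrix ι ι ℂ, ‖S‖ ≤ 1 → (trace (S * a)).re ≤ R)
    {τ : ℕ → ℝ} (hτ : ∀ i, wt s i ≤ τ i) :
    ∑ i ∈ range M, wt s i * sN l (phi (τ i) a) ≤ 4 * R := by
  have hsum := sum_abs_eigenvalues_le ha hR
  have hwpos : ∀ i, 0 < wt s i := fun i => by unfold wt; positivity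
  calc ∑ i ∈ range M, wt s i * sN l (phi (τ i) a)
      ≤ ∑ i ∈ range M, wt s i * ∑ n, min 1 (|ha.eigenvalues n| / wt s i) ^ 2 := by
        apply Finset.sum_le_sum
        intro i _
        apply mul_le_mul_of_nonneg_left _ (hwpos i).le
        have hτp : 0 < τ i := lt_of_lt_of_le (hwpos i) (hτ i)
        refine (sN_phi_le l hτp ha).trans (Finset.sum_le_sum fun n _ => ?_)
        apply pow_le_pow_left₀ (le_min zero_le_one (by positivity))
        exact min_le_min_left _ (div_le_div_of_nonneg_left (abs_nonneg _) (hwpos i) (hτ i))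
    _ = ∑ n, ∑ i ∈ range M, s * 2 ^ i * min 1 (|ha.eigenvalues n| / (s * 2 ^ i)) ^ 2 := by
        rw [Finset.sum_comm]
        apply Finset.sum_congr rfl
        intro i _
        rw [Finset.mul_sum]
        rfl
    _ ≤ ∑ n, 4 * |ha.eigenvalues n| :=
        Finset.sum_le_sum fun n _ => geom_two (abs_nonneg _) M hs
    _ = 4 * ∑ n, |ha.eigenvalues n| := by rw [Finset.mul_sum]
    _ ≤ _ := by linarith

/-- **The distortion inequality for Hermitian matrices.** -/
theorem matrix_main [Nonempty J] (hk : 1 ≤ k) (l : ℕ) (f : (J → Fin (k + 1)) → Matrix ι ι ℂ)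
    (hf : ∀ x, (f x).IsHermitian) {R Δ L : ℝ} (hR0 : 0 ≤ R) (hΔ0 : 0 ≤ Δ)
    (hR : ∀ x, ∀ S : Matrix ι ι ℂ, ‖S‖ ≤ 1 → (trace (S * f x)).re ≤ R)
    (hΔ : ∀ x y, Near x y → ∀ S : Matrix ι ι ℂ, ‖S‖ ≤ 1 → (trace (S * (f x - f y))).re ≤ Δ)
    (hL : ∀ j z, z j = 0 → ∃ Z : Matrix ι ι ℂ, ‖Z‖ ≤ 1 ∧
      L ≤ (trace (Z * (f (Function.update z j (Fin.last k)) - f z))).re) :
    L ≤ 16 * (4 * R) ^ (1 / PP l) * (2 * PP l * Δ) ^ (1 / qq l) *
      (1 + 2 * k * Real.sqrt (Real.exp 1 * PP l * Fintype.card J) / Fintype.card J) := by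
  classical
  set P := PP l with hP
  have hP2 : 2 ≤ P := two_le_PP l
  have hq1 : 1 < qq l := one_lt_qq l
  set n := Fintype.card J with hn
  have hnpos : (0 : ℝ) < n := by
    have := Fintype.card_pos (α := J)
    exact_mod_cast this
  have hk0 : (0 : ℝ) < k := by exact_mod_cast hk
  -- choose the contractions
  have hZ : ∀ j z, ∃ Z : Matrix ι ι ℂ, ‖Z‖ ≤ 1 ∧
      (z j = 0 → L ≤ (trace (Z * (f (Function.update z j (Fin.last k)) - f z))).re) := by
    intro j z
    by_cases h : z j = 0
    · obtain ⟨Z, h1, h2⟩ := hL j z h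
      exact ⟨Z, h1, fun _ => h2⟩
    · exact ⟨0, by simp, fun h' => absurd h' h⟩
  choose Z hZ1 hZ2 using hZ
  -- a bound for all norms
  obtain ⟨A, hA0, hA⟩ : ∃ A : ℝ, 0 ≤ A ∧ ∀ x, ‖f x‖ ≤ A := by
    refine ⟨∑ x, ‖f x‖, Finset.sum_nonneg fun _ _ => norm_nonneg _, fun x => ?_⟩
    exact Finset.single_le_sum (f := fun x => ‖f x‖) (fun _ _ => norm_nonneg _)
      (Finset.mem_univ x)
  set b : ℝ := (4 * R) ^ (1 / P) with hb
  have hb0 : 0 ≤ b := by positivity
  set c : ℝ := 4 * (2 * P * Δ) ^ (1 / qq l) with hc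
  have hc0 : 0 ≤ c := by
    have : 0 ≤ (2 * P * Δ) ^ (1 / qq l) := Real.rpow_nonneg (by positivity) _
    linarith
  set Tb : ℝ := 2 * Real.sqrt (Real.exp 1 * P * n) * b with hTb
  have hTb0 : 0 ≤ Tb := by positivity
  -- main estimate with error
  have hmain : ∀ η : ℝ, 0 < η → L ≤ 4 * (b * c) + 4 * k * (Tb * c) / n + η := by
    intro η hη
    set m : ℝ := Fintype.card ι + 1 with hm
    have hm0 : 0 < m := by positivity
    set s : ℝ := η / (4 * m) with hs
    have hs0 : 0 < s := by positivity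
    obtain ⟨M, hM⟩ : ∃ M : ℕ, 4 * m * (A ^ 2 / s) / η < 2 ^ M :=
      pow_unbounded_of_one_lt _ (by norm_num)
    have hM2 : A ^ 2 / wt s M ≤ η / (4 * m) := by
      unfold wt
      rw [div_lt_iff₀ hη] at hM
      rw [div_le_div_iff₀ (by positivity) (by positivity)]
      have h1 : A ^ 2 * (4 * m) = s * (4 * m * (A ^ 2 / s)) := by field_simp
      rw [h1]
      nlinarith
    have hErr : ∀ x, ‖Err s M (f x)‖ ≤ η / (2 * m) := by
      intro x
      unfold Err
      have hwM : 0 < wt s M := by unfold wt; positivity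
      calc ‖f x - f x * phi s (f x) + f x * phi (wt s M) (f x)‖
          ≤ s + ‖f x‖ ^ 2 / wt s M := (norm_add_le _ _).trans
            (add_le_add (norm_sub_mul_phi_le hs0 (hf x)) (norm_mul_phi_le hwM (hf x)))
        _ ≤ s + A ^ 2 / wt s M := by
            have := hA x
            have h0 := norm_nonneg (f x)
            gcongr
        _ ≤ η / (4 * m) + η / (4 * m) := by linarith
        _ = η / (2 * m) := by field_simp; norm_num
    have hwpos : ∀ i, 0 < wt s i := fun i => by unfold wt; positivity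
    -- the two families
    set H1 : J → (J → Fin (k + 1)) → ℕ → Matrix ι ι ℂ := fun j z i =>
      Z j z * phi (wt s i) (f (Function.update z j (Fin.last k))) with hH1
    set H2 : J → (J → Fin (k + 1)) → ℕ → Matrix ι ι ℂ := fun j z i =>
      phi (2 * wt s i) (f z) * Z j z with hH2
    set F1 : (J → Fin (k + 1)) → ℕ → Matrix ι ι ℂ := fun x i => phi (2 * wt s i) (f x) with hF1
    set F2 : (J → Fin (k + 1)) → ℕ → Matrix ι ι ℂ := fun x i => phi (wt s i) (f x) with hF2
    have hbsize : ∀ H : ℕ → Matrix ι ι ℂ, sS l s M H ≤ 4 * R → sS l s M H ^ (1 / P) ≤ b :=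
      fun H hH => Real.rpow_le_rpow (sS_nonneg l hs0 M H) hH (by positivity)
    have hN1 : ∀ j z, sS l s M (H1 j z) ^ (1 / P) ≤ b := by
      intro j z
      apply hbsize
      refine le_trans ?_ (dual_size l hs0 M (hf (Function.update z j (Fin.last k)))
        (hR (Function.update z j (Fin.last k))) (τ := wt s) (fun i => le_rfl))
      apply Finset.sum_le_sum
      intro i _
      apply mul_le_mul_of_nonneg_left _ (hwpos i).le
      refine (sN_mul_left_le l _ _).trans ?_
      have h1 : ‖Z j z‖ ^ (2 ^ (l + 1)) ≤ 1 := pow_le_one₀ (norm_nonneg _) (hZ1 j z)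
      have h2 := sN_nonneg l (phi (wt s i) (f (Function.update z j (Fin.last k))))
      nlinarith
    have hN2 : ∀ j z, sS l s M (H2 j z) ^ (1 / P) ≤ b := by
      intro j z
      apply hbsize
      refine le_trans ?_ (dual_size l hs0 M (hf z) (hR z) (τ := fun i => 2 * wt s i)
        (fun i => by have := hwpos i; linarith))
      apply Finset.sum_le_sum
      intro i _
      apply mul_le_mul_of_nonneg_left _ (hwpos i).le
      refine (sN_mul_right_le l _ _).trans ?_
      have h1 : ‖Z j z‖ ^ (2 ^ (l + 1)) ≤ 1 := pow_le_one₀ (norm_nonneg _) (hZ1 j z)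
      have h2 := sN_nonneg l (phi (2 * wt s i) (f z))
      nlinarith
    have htype : ∀ H : J → ℕ → Matrix ι ι ℂ, (∀ j, sS l s M (H j) ^ (1 / P) ≤ b) →
        ∑ ε : J → Bool, sS l s M (∑ j, sgn (ε j) • H j) ^ (1 / P)
          ≤ 2 ^ Fintype.card J * Tb := by
      intro H hH
      exact type_two l hs0 M H hb0 hH
    have hnear1 : ∀ (H : ℕ → Matrix ι ι ℂ) (x y : J → Fin (k + 1)), Near x y →
        ‖pairing s M H (F1 x - F1 y)‖ ≤ sS l s M H ^ (1 / P) * c := by
      intro H x y hxy
      rw [pairing_apply]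
      exact near_sum l hs0 M (τ := fun i => 2 * wt s i)
        (fun i => by have := hwpos i; unfold wt at *; linarith) (hf x) (hf y) (hΔ x y hxy) H
    have hnear2 : ∀ (H : ℕ → Matrix ι ι ℂ) (x y : J → Fin (k + 1)), Near x y →
        ‖pairing s M H (F2 x - F2 y)‖ ≤ sS l s M H ^ (1 / P) * c := by
      intro H x y hxy
      rw [pairing_apply]
      exact near_sum l hs0 M (τ := fun i => wt s i)
        (fun i => le_rfl) (hf x) (hf y) (hΔ x y hxy) H
    have hc1 := cell_estimate (J := J) (k := k) (pairing s M)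
      (fun H => sS l s M H ^ (1 / P)) c b Tb hc0 F1 hnear1 htype H1 hN1
    have hc2 := cell_estimate (J := J) (k := k) (pairing s M)
      (fun H => sS l s M H ^ (1 / P)) c b Tb hc0 F2 hnear2 htype H2 hN2
    rw [← hn] at hc1 hc2
    set S1 := ∑ j, ∑ q : J → Fin k, pairing s M (H1 j (Function.update (cs q) j 0))
        (F1 (Function.update (cs q) j (Fin.last k)) - F1 (Function.update (cs q) j 0)) with hS1
    set S2 := ∑ j, ∑ q : J → Fin k, pairing s M (H2 j (Function.update (cs q) j 0))
        (F2 (Function.update (cs q) j (Fin.last k)) - F2 (Function.update (cs q) j 0)) with hS2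
    set S3 := ∑ j, ∑ q : J → Fin k, trace (Z j (Function.update (cs q) j 0) *
        (Err s M (f (Function.update (cs q) j (Fin.last k)))
          - Err s M (f (Function.update (cs q) j 0)))) with hS3
    have hSS : ∑ j, ∑ q : J → Fin k, trace (Z j (Function.update (cs q) j 0) *
        (f (Function.update (cs q) j (Fin.last k)) - f (Function.update (cs q) j 0)))
        = (-Complex.I) * S1 + (-Complex.I) * S2 + S3 := by
      rw [hS1, hS2, hS3, Finset.mul_sum, Finset.mul_sum, ← Finset.sum_add_distrib,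
        ← Finset.sum_add_distrib]
      apply Finset.sum_congr rfl
      intro j _
      rw [Finset.mul_sum, Finset.mul_sum, ← Finset.sum_add_distrib,
        ← Finset.sum_add_distrib]
      apply Finset.sum_congr rfl
      intro q _
      rw [trace_reconstruct hs0 M (hf _) (hf _), pairing_apply, pairing_apply]
      simp only [hH1, hH2, hF1, hF2, Pi.sub_apply, Function.update_idem]
    have hS3b : ‖S3‖ ≤ n * (k : ℝ) ^ n * η := by
      rw [hS3]
      refine (norm_sum_le _ _).trans ?_
      have : ∀ j : J, ‖∑ q : J → Fin k, trace (Z j (Function.update (cs q) j 0) *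
        (Err s M (f (Function.update (cs q) j (Fin.last k)))
          - Err s M (f (Function.update (cs q) j 0))))‖ ≤ (k : ℝ) ^ n * η := by
        intro j
        refine (norm_sum_le _ _).trans ?_
        have h1 : ∀ q : J → Fin k, ‖trace (Z j (Function.update (cs q) j 0) *
          (Err s M (f (Function.update (cs q) j (Fin.last k)))
            - Err s M (f (Function.update (cs q) j 0))))‖ ≤ η := by
          intro q
          refine (norm_trace_le _).trans ?_
          have h2 : ‖Z j (Function.update (cs q) j 0) *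
            (Err s M (f (Function.update (cs q) j (Fin.last k)))
              - Err s M (f (Function.update (cs q) j 0)))‖ ≤ η / m := by
            refine (norm_mul_le _ _).trans ?_
            have h3 := hZ1 j (Function.update (cs q) j 0)
            have h4 : ‖Err s M (f (Function.update (cs q) j (Fin.last k)))
              - Err s M (f (Function.update (cs q) j 0))‖ ≤ η / m := by
              refine (norm_sub_le _ _).trans ((add_le_add (hErr _) (hErr _)).trans
                (le_of_eq ?_))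
              field_simp
              norm_num
            calc _ ≤ 1 * (η / m) := mul_le_mul h3 h4 (norm_nonneg _) zero_le_one
              _ = _ := one_mul _
          calc (Fintype.card ι : ℝ) * _ ≤ (Fintype.card ι : ℝ) * (η / m) :=
                mul_le_mul_of_nonneg_left h2 (by positivity)
            _ ≤ m * (η / m) := by
                apply mul_le_mul_of_nonneg_right _ (by positivity)
                rw [hm]; linarith
            _ = η := by field_simp
        refine (Finset.sum_le_sum fun q _ => h1 q).trans (le_of_eq ?_)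
        rw [Finset.sum_const, Finset.card_univ, Fintype.card_fun, Fintype.card_fin, ← hn,
          nsmul_eq_mul]
        push_cast
        rfl
      refine (Finset.sum_le_sum fun j _ => this j).trans (le_of_eq ?_)
      rw [Finset.sum_const, Finset.card_univ, ← hn, nsmul_eq_mul]
      ring
    have hlow : n * (k : ℝ) ^ n * L ≤ ‖∑ j, ∑ q : J → Fin k,
        trace (Z j (Function.update (cs q) j 0) *
        (f (Function.update (cs q) j (Fin.last k)) - f (Function.update (cs q) j 0)))‖ := by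
      refine le_trans ?_ (Complex.re_le_norm _)
      rw [Complex.re_sum]
      have h1 : ∀ j : J, (k : ℝ) ^ n * L ≤ (∑ q : J → Fin k,
        trace (Z j (Function.update (cs q) j 0) *
        (f (Function.update (cs q) j (Fin.last k)) - f (Function.update (cs q) j 0)))).re := by
        intro j
        rw [Complex.re_sum]
        have h2 : ∀ q : J → Fin k, L ≤ (trace (Z j (Function.update (cs q) j 0) *
          (f (Function.update (cs q) j (Fin.last k)) - f (Function.update (cs q) j 0)))).re := by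
          intro q
          have := hZ2 j (Function.update (cs q) j 0) (by simp)
          rwa [Function.update_idem] at this
        refine le_trans (le_of_eq ?_) (Finset.sum_le_sum fun q _ => h2 q)
        rw [Finset.sum_const, Finset.card_univ, Fintype.card_fun, Fintype.card_fin, ← hn,
          nsmul_eq_mul]
        push_cast
        rfl
      refine le_trans (le_of_eq ?_) (Finset.sum_le_sum fun j _ => h1 j)
      rw [Finset.sum_const, Finset.card_univ, ← hn, nsmul_eq_mul]
      ring
    have hI : ‖(-Complex.I : ℂ)‖ = 1 := by simp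
    have hup : ‖∑ j, ∑ q : J → Fin k, trace (Z j (Function.update (cs q) j 0) *
        (f (Function.update (cs q) j (Fin.last k)) - f (Function.update (cs q) j 0)))‖
        ≤ ‖S1‖ + ‖S2‖ + ‖S3‖ := by
      rw [hSS]
      refine (norm_add_le _ _).trans (add_le_add_left ((norm_add_le _ _).trans ?_) _)
      rw [norm_mul, norm_mul, hI, one_mul, one_mul]
    have hkn : (0 : ℝ) < (k : ℝ) ^ n := by positivity
    have htot : n * (k : ℝ) ^ n * L ≤ n * (k : ℝ) ^ n *
        (4 * (b * c) + 4 * k * (Tb * c) / n + η) := by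
      calc n * (k : ℝ) ^ n * L ≤ ‖S1‖ + ‖S2‖ + ‖S3‖ := hlow.trans hup
        _ ≤ (k : ℝ) ^ n * (2 * n * (b * c) + 2 * k * (Tb * c))
            + (k : ℝ) ^ n * (2 * n * (b * c) + 2 * k * (Tb * c)) + n * (k : ℝ) ^ n * η :=
            add_le_add (add_le_add hc1 hc2) hS3b
        _ = _ := by field_simp; ring
    exact le_of_mul_le_mul_left htot (by positivity)
  have hfin : L ≤ 4 * (b * c) + 4 * k * (Tb * c) / n := le_of_forall_pos_le_add hmain
  refine hfin.trans (le_of_eq ?_)
  rw [hTb, hc]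
  field_simp
  ring

end Pool.Agent.H39.Tr
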