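import Pool.Agent.H39.Tr.Resolvent

/-!
# Upper estimates for the dyadic resolvent map
-/

open Matrix Finset
open scoped ComplexOrder MatrixOrder Matrix.Norms.L2Operator

set_option linter.unusedSectionVars false

namespace Pool.Agent.H39.Tr

variable {ι : Type*} [Fintype ι] [DecidableEq ι]

/-- the exponent `P = 2^(l+1)` -/
noncomputable def PP (l : ℕ) : ℝ := 2 ^ (l + 1)

/-- the conjugate exponent -/
noncomputable def qq (l : ℕ) : ℝ := PP l / (PP l - 1)

lemma two_le_PP (l : ℕ) : 2 ≤ PP l := by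
  unfold PP
  rw [pow_succ]
  have : (1 : ℝ) ≤ 2 ^ l := one_le_pow₀ (by norm_num)
  linarith

lemma PP_pos (l : ℕ) : 0 < PP l := by linarith [two_le_PP l]

lemma qq_sub_one (l : ℕ) : qq l - 1 = 1 / (PP l - 1) := by
  have := two_le_PP l
  unfold qq
  rw [div_sub_one (by linarith)]
  congr 1
  ring

lemma one_lt_qq (l : ℕ) : 1 < qq l := by
  have h := qq_sub_one l
  have := two_le_PP l
  have : 0 < 1 / (PP l - 1) := by apply one_div_pos.2; linarith
  linarith

lemma qq_le_two (l : ℕ) : qq l ≤ 2 := by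
  have h := qq_sub_one l
  have h2 := two_le_PP l
  have : 1 / (PP l - 1) ≤ 1 := by rw [div_le_one (by linarith)]; linarith
  linarith

lemma qq_conj (l : ℕ) : (qq l).HolderConjugate (PP l) := by
  rw [Real.holderConjugate_comm, Real.holderConjugate_iff_eq_conjExponent
    (by linarith [two_le_PP l])]
  rfl

/-- `‖X‖_{S_P}` -/
noncomputable def NN (l : ℕ) (X : Matrix ι ι ℂ) : ℝ := sN l X ^ (1 / PP l)

lemma NN_nonneg (l : ℕ) (X : Matrix ι ι ℂ) : 0 ≤ NN l X := Real.rpow_nonneg (sN_nonneg _ _) _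

lemma rpow_PP (l : ℕ) (x : ℝ) : x ^ (PP l) = x ^ (2 ^ (l + 1)) := by
  rw [← Real.rpow_natCast]
  unfold PP
  push_cast
  rfl

lemma NN_pow (l : ℕ) (X : Matrix ι ι ℂ) : NN l X ^ (2 ^ (l + 1)) = sN l X := by
  rw [← rpow_PP]
  unfold NN
  rw [← Real.rpow_mul (sN_nonneg _ _), one_div, inv_mul_cancel₀ (PP_pos l).ne', Real.rpow_one]

lemma geomA {q : ℝ} {c : ℝ} (hc0 : 0 ≤ c) (hc : 1 + c * 2 ^ (1 - q) = c) {t : ℝ}
    (ht : 0 ≤ t) : ∀ (M : ℕ) (s : ℝ), 0 < s →
    ∑ i ∈ range M, s * 2 ^ i * (t / (s * 2 ^ i)) ^ q ≤ c * (t ^ q * s ^ (1 - q)) := by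
  intro M
  induction M with
  | zero => intro s hs; simp; positivity
  | succ M ih =>
    intro s hs
    rw [Finset.sum_range_succ']
    have h1 := ih (2 * s) (by positivity)
    have e1 : ∑ i ∈ range M, s * 2 ^ (i + 1) * (t / (s * 2 ^ (i + 1))) ^ q
        = ∑ i ∈ range M, 2 * s * 2 ^ i * (t / (2 * s * 2 ^ i)) ^ q := by
      apply Finset.sum_congr rfl
      intro i _
      have : s * 2 ^ (i + 1) = 2 * s * 2 ^ i := by rw [pow_succ]; ring
      rw [this]
    rw [e1, pow_zero, mul_one]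
    have e2 : s * (t / s) ^ q = t ^ q * s ^ (1 - q) := by
      rw [Real.div_rpow ht hs.le, Real.rpow_sub hs, Real.rpow_one]
      ring
    have e3 : (2 * s) ^ (1 - q) = 2 ^ (1 - q) * s ^ (1 - q) :=
      Real.mul_rpow (by norm_num) hs.le
    rw [e2]
    rw [e3] at h1
    calc _ ≤ c * (t ^ q * (2 ^ (1 - q) * s ^ (1 - q))) + t ^ q * s ^ (1 - q) := by linarith
      _ = (1 + c * 2 ^ (1 - q)) * (t ^ q * s ^ (1 - q)) := by ring
      _ = _ := by rw [hc]

lemma geomB {q : ℝ} (hq : 1 < q) {c : ℝ} (hc0 : 0 ≤ c) (hc : 1 + c * 2 ^ (1 - q) = c) {t : ℝ}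
    (ht : 0 ≤ t) : ∀ (M : ℕ) (s : ℝ), 0 < s → s ≤ t →
    ∑ i ∈ range M, s * 2 ^ i * min 1 (t / (s * 2 ^ i)) ^ q ≤ 2 * t - s + c * t := by
  intro M
  induction M with
  | zero => intro s hs hst; simp; nlinarith
  | succ M ih =>
    intro s hs hst
    rw [Finset.sum_range_succ']
    have e1 : ∑ i ∈ range M, s * 2 ^ (i + 1) * min 1 (t / (s * 2 ^ (i + 1))) ^ q
        = ∑ i ∈ range M, 2 * s * 2 ^ i * min 1 (t / (2 * s * 2 ^ i)) ^ q := by
      apply Finset.sum_congr rfl
      intro i _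
      have : s * 2 ^ (i + 1) = 2 * s * 2 ^ i := by rw [pow_succ]; ring
      rw [this]
    rw [e1, pow_zero, mul_one, min_eq_left ((one_le_div hs).2 hst), Real.one_rpow, mul_one]
    rcases le_or_gt (2 * s) t with h | h
    · have := ih (2 * s) (by positivity) h
      linarith
    · have h1 := geomA hc0 hc ht M (2 * s) (by positivity)
      have h2 : ∑ i ∈ range M, 2 * s * 2 ^ i * min 1 (t / (2 * s * 2 ^ i)) ^ q
          ≤ ∑ i ∈ range M, 2 * s * 2 ^ i * (t / (2 * s * 2 ^ i)) ^ q := by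
        apply Finset.sum_le_sum
        intro i _
        apply mul_le_mul_of_nonneg_left _ (by positivity)
        exact Real.rpow_le_rpow (le_min zero_le_one (by positivity)) (min_le_right _ _)
          (by linarith)
      have h3 : t ^ q * (2 * s) ^ (1 - q) ≤ t := by
        rcases ht.eq_or_lt with h0 | h0
        · rw [← h0, Real.zero_rpow (by linarith), zero_mul]
        · have h4 : (2 * s) ^ (1 - q) ≤ t ^ (1 - q) :=
            Real.rpow_le_rpow_of_nonpos h0 h.le (by linarith)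
          calc t ^ q * (2 * s) ^ (1 - q) ≤ t ^ q * t ^ (1 - q) :=
                mul_le_mul_of_nonneg_left h4 (by positivity)
            _ = t := by rw [← Real.rpow_add h0]; simp
      nlinarith

/-- the geometric sum estimate -/
lemma geom {q : ℝ} (hq : 1 < q) {c : ℝ} (hc0 : 0 ≤ c) (hc : 1 + c * 2 ^ (1 - q) = c) {t : ℝ}
    (ht : 0 ≤ t) (M : ℕ) {s : ℝ} (hs : 0 < s) :
    ∑ i ∈ range M, s * 2 ^ i * min 1 (t / (s * 2 ^ i)) ^ q ≤ (2 + c) * t := by
  rcases le_or_gt s t with h | h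
  · have := geomB hq hc0 hc ht M s hs h
    nlinarith
  · have h1 := geomA hc0 hc ht M s hs
    have h2 : ∑ i ∈ range M, s * 2 ^ i * min 1 (t / (s * 2 ^ i)) ^ q
        ≤ ∑ i ∈ range M, s * 2 ^ i * (t / (s * 2 ^ i)) ^ q := by
      apply Finset.sum_le_sum
      intro i _
      apply mul_le_mul_of_nonneg_left _ (by positivity)
      exact Real.rpow_le_rpow (le_min zero_le_one (by positivity)) (min_le_right _ _)
        (by linarith)
    have h3 : t ^ q * s ^ (1 - q) ≤ t := by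
      rcases ht.eq_or_lt with h0 | h0
      · rw [← h0, Real.zero_rpow (by linarith), zero_mul]
      · have h4 : s ^ (1 - q) ≤ t ^ (1 - q) :=
          Real.rpow_le_rpow_of_nonpos h0 h.le (by linarith)
        calc t ^ q * s ^ (1 - q) ≤ t ^ q * t ^ (1 - q) :=
              mul_le_mul_of_nonneg_left h4 (by positivity)
          _ = t := by rw [← Real.rpow_add h0]; simp
    nlinarith

lemma geom_two {t : ℝ} (ht : 0 ≤ t) (M : ℕ) {s : ℝ} (hs : 0 < s) :
    ∑ i ∈ range M, s * 2 ^ i * min 1 (t / (s * 2 ^ i)) ^ 2 ≤ 4 * t := by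
  have h := geom (q := 2) (by norm_num) (c := 2) (by norm_num)
    (by norm_num [Real.rpow_neg_one]) ht M hs
  have e : ∀ i : ℕ, min 1 (t / (s * 2 ^ i)) ^ (2 : ℝ) = min 1 (t / (s * 2 ^ i)) ^ 2 := by
    intro i
    exact Real.rpow_two _
  simp only [e] at h
  linarith

lemma geom_qq (l : ℕ) {t : ℝ} (ht : 0 ≤ t) (M : ℕ) {s : ℝ} (hs : 0 < s) :
    ∑ i ∈ range M, s * 2 ^ i * min 1 (t / (s * 2 ^ i)) ^ (qq l) ≤ 2 * PP l * t := by
  have hP := two_le_PP l
  have hx := qq_sub_one l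
  have hx0 : 0 ≤ qq l - 1 := by linarith [one_lt_qq l]
  have hx1 : qq l - 1 ≤ 1 := by linarith [qq_le_two l]
  have h1 := rpow_one_add_le_one_add_mul_self (s := -(1 / 2)) (by norm_num) hx0 hx1
  have e1 : (1 + -(1 / 2 : ℝ)) ^ (qq l - 1) = 2 ^ (1 - qq l) := by
    have : (1 + -(1 / 2 : ℝ)) = 2⁻¹ := by norm_num
    rw [this, Real.inv_rpow (by norm_num), ← Real.rpow_neg (by norm_num)]
    congr 1
    ring
  rw [e1] at h1
  set y : ℝ := 2 ^ (1 - qq l) with hy
  have hy1 : 1 - y ≥ (qq l - 1) / 2 := by linarith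
  have hpos : 0 < (qq l - 1) / 2 := by linarith [one_lt_qq l]
  have hy2 : 0 < 1 - y := by linarith
  set c : ℝ := 1 / (1 - y) with hc
  have hc0 : 0 ≤ c := by positivity
  have hceq : 1 + c * 2 ^ (1 - qq l) = c := by
    rw [← hy, hc]
    field_simp
    ring
  have h2 := geom (one_lt_qq l) hc0 hceq ht M hs
  have hcle : c ≤ 2 * (PP l - 1) := by
    rw [hc]
    have : 1 / (1 - y) ≤ 1 / ((qq l - 1) / 2) := one_div_le_one_div_of_le hpos hy1
    refine this.trans (le_of_eq ?_)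
    rw [hx]
    field_simp
  nlinarith

/-- The estimate for one value of `σ`. -/
theorem near_one (l : ℕ) {σ : ℝ} (hσ : 0 < σ) {a b : Matrix ι ι ℂ} (ha : a.IsHermitian)
    (hb : b.IsHermitian) (H : Matrix ι ι ℂ) :
    ‖trace (H * (phi σ a - phi σ b))‖
      ≤ 4 * NN l H * (∑ n, min 1 (|(ha.sub hb).eigenvalues n| / σ) ^ (qq l)) ^ (1 / qq l) := by
  set d := a - b with hd
  have hdH : d.IsHermitian := ha.sub hb
  obtain ⟨U, hU1, hU2, hU3⟩ := herm_cj hdH
  set δ := hdH.eigenvalues with hδ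
  set q := qq l with hq
  set P := PP l with hP
  have hq1 : 1 < q := one_lt_qq l
  have hP2 : 2 ≤ P := two_le_PP l
  have hconj : q.HolderConjugate P := qq_conj l
  set S : Finset ι := Finset.univ.filter (fun n => σ < |δ n|) with hS
  set v1 : ι → ℂ := fun n => if σ < |δ n| then (δ n : ℂ) else 0 with hv1
  set v2 : ι → ℂ := fun n => if σ < |δ n| then 0 else (δ n : ℂ) with hv2
  set d1 := cj U (diagonal v1) with hd1
  set d2 := cj U (diagonal v2) with hd2
  have hdd : d = d1 + d2 := by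
    rw [hd1, hd2, ← cj_add, diagonal_add, hU3]
    congr 2
    funext n
    rw [hv1, hv2]
    dsimp only
    split_ifs <;> simp
  set D1 := (-(Complex.I * σ)) • (res σ a * d1 * res σ b) with hD1
  set D2 := (-(Complex.I * σ)) • (res σ a * d2 * res σ b) with hD2
  have hDD : phi σ a - phi σ b = D1 + D2 := by
    rw [phi_sub_phi hσ ha hb, ← hd, hdd, mul_add, add_mul, smul_add]
  have hra := norm_res_le hσ ha
  have hrb := norm_res_le hσ hb
  have hz : ‖(-(Complex.I * σ) : ℂ)‖ = σ := by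
    rw [norm_neg, norm_mul, Complex.norm_I, one_mul, Complex.norm_real, Real.norm_eq_abs,
      abs_of_pos hσ]
  -- the small part
  have hK : ‖trace (H * D2)‖ ≤ NN l H * (∑ n ∈ Sᶜ, (|δ n| / σ) ^ q) ^ (1 / q) := by
    set K := Uᴴ * (res σ b * H * res σ a) * U with hKdef
    have e1 : trace (H * D2) = (-(Complex.I * σ)) * ∑ n, K n n * v2 n := by
      rw [hD2, mul_smul_comm, trace_smul, smul_eq_mul]
      congr 1
      rw [hd2]
      unfold cj
      have : trace (H * (res σ a * (U * diagonal v2 * Uᴴ) * res σ b))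
          = trace (K * diagonal v2) := by
        rw [hKdef]
        rw [← mul_assoc, trace_mul_comm]
        rw [show res σ b * (H * (res σ a * (U * diagonal v2 * Uᴴ)))
          = (res σ b * H * res σ a * U * diagonal v2) * Uᴴ by simp only [mul_assoc]]
        rw [trace_mul_comm]
        simp only [mul_assoc]
      rw [this]
      simp only [trace, Matrix.diag, mul_diagonal]
    have hsK : sN l K ≤ (1 / σ) ^ (2 ^ (l + 1)) * ((1 / σ) ^ (2 ^ (l + 1)) * sN l H) := by
      rw [hKdef, sN_unitary l U _ hU1]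
      refine (sN_mul_right_le l _ _).trans ?_
      have h1 : sN l (res σ b * H) ≤ (1 / σ) ^ (2 ^ (l + 1)) * sN l H := by
        refine (sN_mul_left_le l _ _).trans ?_
        exact mul_le_mul_of_nonneg_right (pow_le_pow_left₀ (norm_nonneg _) hrb _) (sN_nonneg _ _)
      exact mul_le_mul (pow_le_pow_left₀ (norm_nonneg _) hra _) h1 (sN_nonneg _ _) (by positivity)
    have hNK : NN l K ≤ (1 / σ) * ((1 / σ) * NN l H) := by
      have h1 : NN l K ^ (2 ^ (l + 1)) ≤ ((1 / σ) * ((1 / σ) * NN l H)) ^ (2 ^ (l + 1)) := by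
        rw [NN_pow, mul_pow, mul_pow, NN_pow]; exact hsK
      exact le_of_pow_le_pow_left₀ (by positivity)
        (by have := NN_nonneg l H; positivity) h1
    have h2 : ‖∑ n, K n n * v2 n‖ ≤ ∑ n ∈ Sᶜ, |δ n| * ‖K n n‖ := by
      refine (norm_sum_le _ _).trans ?_
      rw [hS, ← Finset.sum_filter_add_sum_filter_not Finset.univ (fun n => σ < |δ n|)]
      have h3 : ∑ n ∈ Finset.univ.filter (fun n => σ < |δ n|), ‖K n n * v2 n‖ = 0 := by
        apply Finset.sum_eq_zero
        intro n hn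
        rw [hv2]
        dsimp only
        rw [if_pos (Finset.mem_filter.1 hn).2, mul_zero, norm_zero]
      rw [h3, zero_add, Finset.compl_filter]
      apply le_of_eq
      apply Finset.sum_congr rfl
      intro n hn
      rw [hv2]
      dsimp only
      rw [if_neg (Finset.mem_filter.1 hn).2, norm_mul, Complex.norm_real, Real.norm_eq_abs,
        mul_comm]
    have h3 := Real.inner_le_Lp_mul_Lq_of_nonneg (s := Sᶜ) (f := fun n => |δ n|)
      (g := fun n => ‖K n n‖) hconj (fun _ _ => abs_nonneg _) (fun _ _ => norm_nonneg _)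
    have h4 : (∑ n ∈ Sᶜ, ‖K n n‖ ^ P) ^ (1 / P) ≤ NN l K := by
      unfold NN
      apply Real.rpow_le_rpow (Finset.sum_nonneg fun _ _ => by positivity) _ (by positivity)
      refine le_trans ?_ (sum_diag_pow_le l K)
      refine le_trans (Finset.sum_le_sum_of_subset_of_nonneg (Finset.subset_univ _)
        (fun _ _ _ => by positivity)) (le_of_eq ?_)
      apply Finset.sum_congr rfl
      intro n _
      rw [hP, rpow_PP]
    have h5 : (∑ n ∈ Sᶜ, |δ n| ^ q) ^ (1 / q) = σ * (∑ n ∈ Sᶜ, (|δ n| / σ) ^ q) ^ (1 / q) := by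
      have : ∑ n ∈ Sᶜ, |δ n| ^ q = σ ^ q * ∑ n ∈ Sᶜ, (|δ n| / σ) ^ q := by
        rw [Finset.mul_sum]
        apply Finset.sum_congr rfl
        intro n _
        rw [Real.div_rpow (abs_nonneg _) hσ.le]
        field_simp
      rw [this, Real.mul_rpow (by positivity) (Finset.sum_nonneg fun _ _ => by positivity),
        ← Real.rpow_mul hσ.le, mul_one_div_cancel (by linarith), Real.rpow_one]
    rw [e1, norm_mul, hz]
    have hN0 := NN_nonneg l H
    have hs0 : 0 ≤ (∑ n ∈ Sᶜ, (|δ n| / σ) ^ q) ^ (1 / q) := by positivity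
    calc σ * ‖∑ n, K n n * v2 n‖ ≤ σ * ((∑ n ∈ Sᶜ, |δ n| ^ q) ^ (1 / q) *
            (∑ n ∈ Sᶜ, ‖K n n‖ ^ P) ^ (1 / P)) :=
          mul_le_mul_of_nonneg_left (h2.trans h3) hσ.le
      _ ≤ σ * ((σ * (∑ n ∈ Sᶜ, (|δ n| / σ) ^ q) ^ (1 / q)) * ((1 / σ) * ((1 / σ) * NN l H))) := by
          apply mul_le_mul_of_nonneg_left _ hσ.le
          rw [h5]
          exact mul_le_mul_of_nonneg_left (h4.trans hNK) (by positivity)
      _ = NN l H * (∑ n ∈ Sᶜ, (|δ n| / σ) ^ q) ^ (1 / q) := by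
          field_simp
  -- the large part
  have hD2n : ‖D2‖ ≤ 1 := by
    rw [hD2, norm_smul, hz]
    have h1 : ‖d2‖ ≤ σ := by
      rw [hd2]
      refine (norm_cj_le hU2 _).trans (norm_diagonal_le hσ.le fun n => ?_)
      rw [hv2]
      dsimp only
      split_ifs with h
      · simpa using hσ.le
      · rw [Complex.norm_real, Real.norm_eq_abs]
        exact not_lt.1 h
    calc σ * ‖res σ a * d2 * res σ b‖ ≤ σ * (((1 / σ) * σ) * (1 / σ)) := by
          apply mul_le_mul_of_nonneg_left _ hσ.le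
          refine (norm_mul_le _ _).trans (mul_le_mul ?_ hrb (norm_nonneg _) (by positivity))
          exact (norm_mul_le _ _).trans (mul_le_mul hra h1 (norm_nonneg _) (by positivity))
      _ = 1 := by field_simp
  have hD1n : ‖D1‖ ≤ 3 := by
    have e : D1 = (phi σ a - phi σ b) - D2 := by rw [hDD]; abel
    rw [e]
    have h1 := norm_phi_le hσ ha
    have h2 := norm_phi_le hσ hb
    calc ‖phi σ a - phi σ b - D2‖ ≤ ‖phi σ a - phi σ b‖ + ‖D2‖ := norm_sub_le _ _
      _ ≤ (‖phi σ a‖ + ‖phi σ b‖) + ‖D2‖ := by gcongr; exact norm_sub_le _ _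
      _ ≤ 3 := by linarith
  have hrank : (H * D1).rank ≤ S.card := by
    refine (rank_mul_le_right _ _).trans ?_
    have e : D1 = ((-(Complex.I * σ)) • (res σ a * U)) * diagonal v1 * (Uᴴ * res σ b) := by
      rw [hD1, hd1]
      unfold cj
      simp only [smul_mul_assoc, mul_assoc]
    rw [e]
    refine (rank_mul_le_left _ _).trans ((rank_mul_le_right _ _).trans ?_)
    rw [rank_diagonal, Fintype.card_subtype]
    apply Finset.card_le_card
    intro n hn
    rw [Finset.mem_filter] at hn ⊢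
    refine ⟨hn.1, ?_⟩
    by_contra h
    apply hn.2
    rw [hv1]
    dsimp only
    rw [if_neg h]
  obtain ⟨Nc, hNc⟩ : ∃ Nc : ℕ, Nc = S.card := ⟨_, rfl⟩
  rw [← hNc] at hrank
  have hL : ‖trace (H * D1)‖ ≤ 3 * NN l H * (Nc : ℝ) ^ (1 / q) := by
    have h1 := norm_trace_pow_le_of_rank l (H * D1) Nc hrank
    have h2 : sN l (H * D1) ≤ 3 ^ (2 ^ (l + 1)) * sN l H :=
      (sN_mul_right_le l _ _).trans
        (mul_le_mul_of_nonneg_right (pow_le_pow_left₀ (norm_nonneg _) hD1n _) (sN_nonneg _ _))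
    have h3 : ((Nc : ℝ) ^ (1 / q)) ^ (2 ^ (l + 1)) = (Nc : ℝ) ^ (2 ^ (l + 1) - 1) := by
      rw [← rpow_PP, ← Real.rpow_mul (by positivity), ← Real.rpow_natCast]
      congr 1
      rw [Nat.cast_sub Nat.one_le_two_pow]
      push_cast
      have hP1 : P - 1 ≠ 0 := by linarith
      have : (2 : ℝ) ^ (l + 1) = P := rfl
      rw [this, hq]
      unfold qq
      rw [← hP]
      field_simp
    have h4 : ‖trace (H * D1)‖ ^ (2 ^ (l + 1))
        ≤ (3 * NN l H * (Nc : ℝ) ^ (1 / q)) ^ (2 ^ (l + 1)) := by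
      rw [mul_pow, mul_pow, NN_pow, h3]
      calc _ ≤ (Nc : ℝ) ^ (2 ^ (l + 1) - 1) * sN l (H * D1) := h1
        _ ≤ (Nc : ℝ) ^ (2 ^ (l + 1) - 1) * (3 ^ (2 ^ (l + 1)) * sN l H) :=
            mul_le_mul_of_nonneg_left h2 (by positivity)
        _ = _ := by ring
    have hN0 := NN_nonneg l H
    exact le_of_pow_le_pow_left₀ (by positivity) (by positivity) h4
  -- combine
  set A : ℝ := (Nc : ℝ) with hA
  set B : ℝ := ∑ n ∈ Sᶜ, (|δ n| / σ) ^ q with hB
  have hB0 : 0 ≤ B := Finset.sum_nonneg fun _ _ => by positivity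
  have hA0 : 0 ≤ A := by positivity
  have hsum : ∑ n, min 1 (|δ n| / σ) ^ q = A + B := by
    rw [← Finset.sum_add_sum_compl S]
    congr 1
    · rw [hA, hNc, Finset.card_eq_sum_ones, Nat.cast_sum]
      apply Finset.sum_congr rfl
      intro n hn
      have : σ < |δ n| := (Finset.mem_filter.1 hn).2
      rw [min_eq_left ((one_le_div hσ).2 this.le), Real.one_rpow, Nat.cast_one]
    · apply Finset.sum_congr rfl
      intro n hn
      have : ¬ σ < |δ n| := by
        intro h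
        exact (Finset.mem_compl.1 hn) (Finset.mem_filter.2 ⟨Finset.mem_univ _, h⟩)
      rw [min_eq_right ((div_le_one hσ).2 (not_lt.1 this))]
  rw [hsum, hDD, mul_add, trace_add]
  have hN0 := NN_nonneg l H
  have m1 : A ^ (1 / q) ≤ (A + B) ^ (1 / q) :=
    Real.rpow_le_rpow hA0 (by linarith) (by positivity)
  have m2 : B ^ (1 / q) ≤ (A + B) ^ (1 / q) :=
    Real.rpow_le_rpow hB0 (by linarith) (by positivity)
  calc ‖trace (H * D1) + trace (H * D2)‖ ≤ ‖trace (H * D1)‖ + ‖trace (H * D2)‖ :=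
        norm_add_le _ _
    _ ≤ 3 * NN l H * A ^ (1 / q) + NN l H * B ^ (1 / q) := add_le_add hL hK
    _ ≤ 3 * NN l H * (A + B) ^ (1 / q) + NN l H * (A + B) ^ (1 / q) := by gcongr
    _ = _ := by ring

/-- The estimate for a dyadic family of `σ`'s. -/
theorem near_sum (l : ℕ) {s : ℝ} (hs : 0 < s) (M : ℕ) {τ : ℕ → ℝ}
    (hτ : ∀ i, s * 2 ^ i ≤ τ i) {a b : Matrix ι ι ℂ} (ha : a.IsHermitian)
    (hb : b.IsHermitian) {Δ : ℝ}
    (hΔ : ∀ S : Matrix ι ι ℂ, ‖S‖ ≤ 1 → (trace (S * (a - b))).re ≤ Δ)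
    (H : ℕ → Matrix ι ι ℂ) :
    ‖∑ i ∈ range M, ((s * 2 ^ i : ℝ) : ℂ) * trace (H i * (phi (τ i) a - phi (τ i) b))‖
      ≤ (∑ i ∈ range M, s * 2 ^ i * sN l (H i)) ^ (1 / PP l) *
        (4 * (2 * PP l * Δ) ^ (1 / qq l)) := by
  set δ := (ha.sub hb).eigenvalues with hδ
  have hδΔ : ∑ n, |δ n| ≤ Δ := sum_abs_eigenvalues_le (ha.sub hb) hΔ
  set q := qq l with hq
  set P := PP l with hP
  have hq1 : 1 < q := one_lt_qq l
  have hP2 : 2 ≤ P := two_le_PP l
  have hconj : q.HolderConjugate P := qq_conj l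
  have hτpos : ∀ i, 0 < τ i := fun i => lt_of_lt_of_le (by positivity) (hτ i)
  set w : ℕ → ℝ := fun i => s * 2 ^ i with hw
  have hwpos : ∀ i, 0 < w i := fun i => by rw [hw]; positivity
  set C : ℕ → ℝ := fun i => ∑ n, min 1 (|δ n| / w i) ^ q with hC
  have hC0 : ∀ i, 0 ≤ C i := fun i => Finset.sum_nonneg fun n _ =>
    Real.rpow_nonneg (le_min zero_le_one (by have := hwpos i; positivity)) _
  have h1 : ∀ i, ‖trace (H i * (phi (τ i) a - phi (τ i) b))‖ ≤ 4 * NN l (H i) * C i ^ (1 / q) := by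
    intro i
    refine (near_one l (hτpos i) ha hb (H i)).trans ?_
    apply mul_le_mul_of_nonneg_left _ (by have := NN_nonneg l (H i); positivity)
    apply Real.rpow_le_rpow (Finset.sum_nonneg fun n _ =>
      Real.rpow_nonneg (le_min zero_le_one (by have := hτpos i; positivity)) _) _ (by positivity)
    apply Finset.sum_le_sum
    intro n _
    apply Real.rpow_le_rpow (le_min zero_le_one (by have := hτpos i; positivity)) _ (by linarith)
    exact min_le_min_left _ (div_le_div_of_nonneg_left (abs_nonneg _) (hwpos i) (hτ i))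
  have h2 : ∑ i ∈ range M, w i * C i ≤ 2 * P * Δ := by
    have e : ∑ i ∈ range M, w i * C i
        = ∑ n, ∑ i ∈ range M, s * 2 ^ i * min 1 (|δ n| / (s * 2 ^ i)) ^ q := by
      rw [Finset.sum_comm]
      apply Finset.sum_congr rfl
      intro i _
      rw [hC]
      dsimp only
      rw [Finset.mul_sum]
    rw [e]
    calc _ ≤ ∑ n, 2 * P * |δ n| :=
          Finset.sum_le_sum fun n _ => geom_qq l (abs_nonneg _) M hs
      _ = 2 * P * ∑ n, |δ n| := by rw [Finset.mul_sum]
      _ ≤ _ := mul_le_mul_of_nonneg_left hδΔ (by positivity)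
  have h3 := Real.inner_le_Lp_mul_Lq_of_nonneg (s := range M)
    (f := fun i => (w i * C i) ^ (1 / q)) (g := fun i => (w i * sN l (H i)) ^ (1 / P)) hconj
    (fun i _ => Real.rpow_nonneg (mul_nonneg (hwpos i).le (hC0 i)) _)
    (fun i _ => Real.rpow_nonneg (mul_nonneg (hwpos i).le (sN_nonneg _ _)) _)
  have e1 : ∀ i, ((w i * C i) ^ (1 / q)) ^ q = w i * C i := by
    intro i
    rw [← Real.rpow_mul (mul_nonneg (hwpos i).le (hC0 i)), one_div,
      inv_mul_cancel₀ (by linarith), Real.rpow_one]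
  have e2 : ∀ i, ((w i * sN l (H i)) ^ (1 / P)) ^ P = w i * sN l (H i) := by
    intro i
    rw [← Real.rpow_mul (mul_nonneg (hwpos i).le (sN_nonneg _ _)), one_div,
      inv_mul_cancel₀ (by linarith), Real.rpow_one]
  simp only [e1, e2] at h3
  have e3 : ∀ i, (w i * C i) ^ (1 / q) * (w i * sN l (H i)) ^ (1 / P)
      = w i * (NN l (H i) * C i ^ (1 / q)) := by
    intro i
    rw [Real.mul_rpow (hwpos i).le (hC0 i), Real.mul_rpow (hwpos i).le (sN_nonneg _ _)]
    unfold NN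
    rw [← hP]
    have : w i ^ (1 / q) * w i ^ (1 / P) = w i := by
      rw [← Real.rpow_add (hwpos i)]
      have := hconj.inv_add_inv_eq_one
      rw [one_div, one_div, this, Real.rpow_one]
    calc _ = (w i ^ (1 / q) * w i ^ (1 / P)) * (sN l (H i) ^ (1 / P) * C i ^ (1 / q)) := by ring
      _ = _ := by rw [this]
  simp only [e3] at h3
  calc ‖∑ i ∈ range M, ((w i : ℝ) : ℂ) * trace (H i * (phi (τ i) a - phi (τ i) b))‖
      ≤ ∑ i ∈ range M, w i * (4 * NN l (H i) * C i ^ (1 / q)) := by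
        refine (norm_sum_le _ _).trans (Finset.sum_le_sum fun i _ => ?_)
        rw [norm_mul, Complex.norm_real, Real.norm_eq_abs, abs_of_pos (hwpos i)]
        exact mul_le_mul_of_nonneg_left (h1 i) (hwpos i).le
    _ = 4 * ∑ i ∈ range M, w i * (NN l (H i) * C i ^ (1 / q)) := by
        rw [Finset.mul_sum]
        exact Finset.sum_congr rfl fun i _ => by ring
    _ ≤ 4 * ((∑ i ∈ range M, w i * C i) ^ (1 / q) *
          (∑ i ∈ range M, w i * sN l (H i)) ^ (1 / P)) := by linarith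
    _ ≤ 4 * ((2 * P * Δ) ^ (1 / q) * (∑ i ∈ range M, w i * sN l (H i)) ^ (1 / P)) := by
        have hn0 : 0 ≤ ∑ i ∈ range M, w i * sN l (H i) :=
          Finset.sum_nonneg fun i _ => mul_nonneg (hwpos i).le (sN_nonneg _ _)
        have hn1 : 0 ≤ ∑ i ∈ range M, w i * C i :=
          Finset.sum_nonneg fun i _ => mul_nonneg (hwpos i).le (hC0 i)
        have := Real.rpow_le_rpow hn1 h2 (z := 1 / q) (by positivity)
        have h5 : 0 ≤ (∑ i ∈ range M, w i * sN l (H i)) ^ (1 / P) := Real.rpow_nonneg hn0 _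
        nlinarith
    _ = _ := by ring

end Pool.Agent.H39.Tr
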