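import Pool.Agent.H39.Tr.Type2

/-!
# Resolvents of Hermitian matrices

`res σ a = (a - iσ)⁻¹`, `phi σ a = a (a - iσ)⁻¹`.
-/

open Matrix Finset
open scoped ComplexOrder MatrixOrder Matrix.Norms.L2Operator

set_option linter.unusedSectionVars false

namespace Pool.Agent.H39.Tr

variable {ι : Type*} [Fintype ι] [DecidableEq ι]

/-- conjugation by a unitary -/
def cj (U X : Matrix ι ι ℂ) : Matrix ι ι ℂ := U * X * Uᴴ

lemma cj_mul {U : Matrix ι ι ℂ} (hU : Uᴴ * U = 1) (X Y : Matrix ι ι ℂ) :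
    cj U X * cj U Y = cj U (X * Y) := by
  unfold cj
  calc U * X * Uᴴ * (U * Y * Uᴴ) = U * X * (Uᴴ * U) * Y * Uᴴ := by simp only [mul_assoc]
    _ = _ := by rw [hU]; simp only [mul_assoc, mul_one]

lemma cj_one {U : Matrix ι ι ℂ} (hU : U * Uᴴ = 1) : cj U 1 = 1 := by
  unfold cj; rw [mul_one, hU]

lemma cj_add (U X Y : Matrix ι ι ℂ) : cj U (X + Y) = cj U X + cj U Y := by
  unfold cj; rw [mul_add, add_mul]

lemma cj_sub (U X Y : Matrix ι ι ℂ) : cj U (X - Y) = cj U X - cj U Y := by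
  unfold cj; rw [mul_sub, sub_mul]

lemma cj_smul (U X : Matrix ι ι ℂ) (c : ℂ) : cj U (c • X) = c • cj U X := by
  unfold cj; rw [mul_smul_comm, smul_mul_assoc]

lemma norm_unitary_le_one {U : Matrix ι ι ℂ} (hU : Uᴴ * U = 1) : ‖U‖ ≤ 1 := by
  have h := l2_opNorm_conjTranspose_mul_self U
  rw [hU] at h
  have h1 : ‖(1 : Matrix ι ι ℂ)‖ ≤ 1 := by
    rw [← diagonal_one, l2_opNorm_diagonal]
    refine (pi_norm_le_iff_of_nonneg zero_le_one).2 fun i => ?_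
    simp
  rw [h] at h1
  nlinarith [norm_nonneg U]

lemma norm_cj_le {U : Matrix ι ι ℂ} (hU : Uᴴ * U = 1) (X : Matrix ι ι ℂ) : ‖cj U X‖ ≤ ‖X‖ := by
  have h1 := norm_unitary_le_one hU
  have h2 : ‖Uᴴ‖ ≤ 1 := by rw [l2_opNorm_conjTranspose]; exact h1
  unfold cj
  calc ‖U * X * Uᴴ‖ ≤ ‖U * X‖ * ‖Uᴴ‖ := norm_mul_le _ _
    _ ≤ (‖U‖ * ‖X‖) * ‖Uᴴ‖ := by
        apply mul_le_mul_of_nonneg_right (norm_mul_le _ _) (norm_nonneg _)
    _ ≤ (1 * ‖X‖) * 1 := by gcongr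
    _ = ‖X‖ := by ring

lemma norm_diagonal_le {v : ι → ℂ} {c : ℝ} (hc : 0 ≤ c) (h : ∀ i, ‖v i‖ ≤ c) :
    ‖(diagonal v : Matrix ι ι ℂ)‖ ≤ c := by
  rw [l2_opNorm_diagonal]
  exact (pi_norm_le_iff_of_nonneg hc).2 h

/-- Hermitian matrices are conjugates of diagonal ones. -/
lemma herm_cj {a : Matrix ι ι ℂ} (ha : a.IsHermitian) : ∃ U : Matrix ι ι ℂ,
    U * Uᴴ = 1 ∧ Uᴴ * U = 1 ∧ a = cj U (diagonal (fun i => (ha.eigenvalues i : ℂ))) := by
  obtain ⟨U, h1, h2, h3⟩ := exists_diagonalization ha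
  refine ⟨U, h1, h2, ?_⟩
  unfold cj
  rw [← h3]
  calc a = (U * Uᴴ) * a * (U * Uᴴ) := by rw [h1, one_mul, mul_one]
    _ = _ := by simp only [mul_assoc]

/-- the resolvent `(a - iσ)⁻¹` -/
noncomputable def res (σ : ℝ) (a : Matrix ι ι ℂ) : Matrix ι ι ℂ :=
  (a - (Complex.I * σ) • (1 : Matrix ι ι ℂ))⁻¹

/-- `a (a - iσ)⁻¹` -/
noncomputable def phi (σ : ℝ) (a : Matrix ι ι ℂ) : Matrix ι ι ℂ := a * res σ a

lemma sub_I_ne_zero (x : ℝ) {σ : ℝ} (hσ : 0 < σ) : (x : ℂ) - Complex.I * σ ≠ 0 := by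
  intro h
  have := congrArg Complex.im h
  simp at this
  exact hσ.ne' this

lemma norm_sub_I_sq (x σ : ℝ) : ‖(x : ℂ) - Complex.I * σ‖ ^ 2 = x ^ 2 + σ ^ 2 := by
  rw [← Complex.normSq_eq_norm_sq, Complex.normSq_apply]
  simp
  ring

lemma le_norm_sub_I {σ : ℝ} (hσ : 0 < σ) (x : ℝ) : σ ≤ ‖(x : ℂ) - Complex.I * σ‖ := by
  have h := norm_sub_I_sq x σ
  nlinarith [norm_nonneg ((x : ℂ) - Complex.I * σ), sq_nonneg x]

lemma abs_le_norm_sub_I (σ x : ℝ) : |x| ≤ ‖(x : ℂ) - Complex.I * σ‖ := by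
  have h := norm_sub_I_sq x σ
  have h2 : |x| ^ 2 ≤ ‖(x : ℂ) - Complex.I * σ‖ ^ 2 := by rw [h, sq_abs]; nlinarith [sq_nonneg σ]
  exact le_of_sq_le_sq h2 (norm_nonneg _) 
where le_of_sq_le_sq {a b : ℝ} (h : a ^ 2 ≤ b ^ 2) (hb : 0 ≤ b) : a ≤ b := by
        nlinarith [sq_nonneg (a - b), sq_nonneg (a + b)]

lemma res_cj {σ : ℝ} (hσ : 0 < σ) {U : Matrix ι ι ℂ} (hU : U * Uᴴ = 1) (hU' : Uᴴ * U = 1)
    (v : ι → ℝ) : res σ (cj U (diagonal (fun i => (v i : ℂ))))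
      = cj U (diagonal (fun i => ((v i : ℂ) - Complex.I * σ)⁻¹)) := by
  unfold res
  have e : cj U (diagonal (fun i => (v i : ℂ))) - (Complex.I * σ) • (1 : Matrix ι ι ℂ)
      = cj U (diagonal (fun i => (v i : ℂ) - Complex.I * σ)) := by
    rw [← cj_one hU, ← cj_smul, ← cj_sub]
    congr 1
    rw [smul_one_eq_diagonal, diagonal_sub]
  rw [e]
  apply Matrix.inv_eq_left_inv
  rw [cj_mul hU', diagonal_mul_diagonal]
  have : (fun i => ((v i : ℂ) - Complex.I * σ)⁻¹ * ((v i : ℂ) - Complex.I * σ)) = fun _ => 1 := by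
    funext i
    exact inv_mul_cancel₀ (sub_I_ne_zero _ hσ)
  rw [this, diagonal_one, cj_one hU]

lemma phi_cj {σ : ℝ} (hσ : 0 < σ) {U : Matrix ι ι ℂ} (hU : U * Uᴴ = 1) (hU' : Uᴴ * U = 1)
    (v : ι → ℝ) : phi σ (cj U (diagonal (fun i => (v i : ℂ))))
      = cj U (diagonal (fun i => (v i : ℂ) * ((v i : ℂ) - Complex.I * σ)⁻¹)) := by
  unfold phi
  rw [res_cj hσ hU hU', cj_mul hU', diagonal_mul_diagonal]

lemma norm_res_le {σ : ℝ} (hσ : 0 < σ) {a : Matrix ι ι ℂ} (ha : a.IsHermitian) :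
    ‖res σ a‖ ≤ 1 / σ := by
  obtain ⟨U, h1, h2, h3⟩ := herm_cj ha
  rw [h3, res_cj hσ h1 h2]
  refine (norm_cj_le h2 _).trans (norm_diagonal_le (by positivity) fun i => ?_)
  rw [norm_inv, one_div]
  exact inv_anti₀ hσ (le_norm_sub_I hσ _)

lemma norm_phi_le {σ : ℝ} (hσ : 0 < σ) {a : Matrix ι ι ℂ} (ha : a.IsHermitian) :
    ‖phi σ a‖ ≤ 1 := by
  obtain ⟨U, h1, h2, h3⟩ := herm_cj ha
  rw [h3, phi_cj hσ h1 h2]
  refine (norm_cj_le h2 _).trans (norm_diagonal_le zero_le_one fun i => ?_)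
  rw [norm_mul, norm_inv, Complex.norm_real, Real.norm_eq_abs, ← div_eq_mul_inv]
  exact div_le_one_of_le₀ (abs_le_norm_sub_I _ _) (norm_nonneg _)

/-- resolvent identity -/
lemma phi_sub_phi {σ : ℝ} (hσ : 0 < σ) {a b : Matrix ι ι ℂ} (ha : a.IsHermitian)
    (hb : b.IsHermitian) :
    phi σ a - phi σ b = (-(Complex.I * σ)) • (res σ a * (a - b) * res σ b) := by
  have inv : ∀ {c : Matrix ι ι ℂ}, c.IsHermitian →
      res σ c * (c - (Complex.I * σ) • (1 : Matrix ι ι ℂ)) = 1 ∧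
      (c - (Complex.I * σ) • (1 : Matrix ι ι ℂ)) * res σ c = 1 := by
    intro c hc
    have h : res σ c * (c - (Complex.I * σ) • (1 : Matrix ι ι ℂ)) = 1 := by
      obtain ⟨U, h1, h2, h3⟩ := herm_cj hc
      set v := hc.eigenvalues
      rw [h3, res_cj hσ h1 h2]
      have e : cj U (diagonal (fun i => (v i : ℂ))) - (Complex.I * σ) • (1 : Matrix ι ι ℂ)
          = cj U (diagonal (fun i => (v i : ℂ) - Complex.I * σ)) := by
        rw [← cj_one h1, ← cj_smul, ← cj_sub]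
        congr 1
        rw [smul_one_eq_diagonal, diagonal_sub]
      rw [e, cj_mul h2, diagonal_mul_diagonal]
      have : (fun i => ((v i : ℂ) - Complex.I * σ)⁻¹ * ((v i : ℂ) - Complex.I * σ))
          = fun _ => 1 := by
        funext i
        exact inv_mul_cancel₀ (sub_I_ne_zero _ hσ)
      rw [this, diagonal_one, cj_one h1]
    exact ⟨h, mul_eq_one_comm.1 h⟩
  obtain ⟨ha1, ha2⟩ := inv ha
  obtain ⟨hb1, hb2⟩ := inv hb
  set z : ℂ := Complex.I * σ with hz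
  have ea : phi σ a = 1 + z • res σ a := by
    unfold phi
    have : a * res σ a = (a - z • 1) * res σ a + z • res σ a := by
      rw [sub_mul, smul_mul_assoc, one_mul, sub_add_cancel]
    rw [this, ha2]
  have eb : phi σ b = 1 + z • res σ b := by
    unfold phi
    have : b * res σ b = (b - z • 1) * res σ b + z • res σ b := by
      rw [sub_mul, smul_mul_assoc, one_mul, sub_add_cancel]
    rw [this, hb2]
  have ed : res σ a * (a - b) * res σ b = res σ b - res σ a := by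
    have : a - b = (a - z • 1) - (b - z • 1) := by abel
    rw [this, mul_sub, sub_mul, ha1, one_mul, mul_assoc, hb2, mul_one]
  rw [ea, eb, ed, add_sub_add_left_eq_sub, ← smul_sub, neg_smul, ← smul_neg, neg_sub]

/-- the product identity behind the reconstruction formula -/
lemma phi_mul_phi {σ : ℝ} (hσ : 0 < σ) {a : Matrix ι ι ℂ} (ha : a.IsHermitian) :
    (-(Complex.I * σ)) • (phi σ a * phi (2 * σ) a) = a * phi σ a - a * phi (2 * σ) a := by
  obtain ⟨U, h1, h2, h3⟩ := herm_cj ha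
  set v := ha.eigenvalues
  have h2σ : 0 < 2 * σ := by positivity
  rw [h3, phi_cj hσ h1 h2, phi_cj h2σ h1 h2]
  rw [cj_mul h2, cj_mul h2, cj_mul h2, ← cj_sub, ← cj_smul]
  congr 1
  rw [diagonal_mul_diagonal, diagonal_mul_diagonal, diagonal_mul_diagonal, diagonal_sub,
    ← diagonal_smul]
  congr 1
  funext i
  have e1 := sub_I_ne_zero (v i) hσ
  have e2 := sub_I_ne_zero (v i) h2σ
  simp only [Pi.smul_apply, smul_eq_mul]
  set A : ℂ := (v i : ℂ) - Complex.I * σ with hA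
  set B : ℂ := (v i : ℂ) - Complex.I * ((2 * σ : ℝ) : ℂ) with hB
  have hAB : B - A = -(Complex.I * σ) := by
    rw [hA, hB]; push_cast; ring
  have h4 : A⁻¹ - B⁻¹ = (B - A) * (A⁻¹ * B⁻¹) := by field_simp
  rw [← hAB]
  linear_combination (-(v i : ℂ) ^ 2) * h4

/-- the size of `phi σ a` in the Schatten norm -/
lemma sN_phi_le (l : ℕ) {σ : ℝ} (hσ : 0 < σ) {a : Matrix ι ι ℂ} (ha : a.IsHermitian) :
    sN l (phi σ a) ≤ ∑ n, min 1 (|ha.eigenvalues n| / σ) ^ 2 := by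
  obtain ⟨U, h1, h2, h3⟩ := herm_cj ha
  set v := ha.eigenvalues
  have e : sN l (phi σ a) = ∑ n, (‖(v n : ℂ) * ((v n : ℂ) - Complex.I * σ)⁻¹‖ ^ 2) ^ (2 ^ l) := by
    rw [h3, phi_cj hσ h1 h2]
    set w : ι → ℂ := fun i => (v i : ℂ) * ((v i : ℂ) - Complex.I * σ)⁻¹
    have : cj U (diagonal w) = (Uᴴ)ᴴ * diagonal w * Uᴴ := by
      rw [conjTranspose_conjTranspose]; rfl
    rw [this, sN_unitary l Uᴴ (diagonal w) (by rw [conjTranspose_conjTranspose, h2])]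
    unfold sN
    rw [diagonal_conjTranspose, diagonal_mul_diagonal, diagonal_pow, trace_diagonal, Complex.re_sum]
    apply Finset.sum_congr rfl
    intro n _
    rw [Pi.pow_apply, Pi.star_apply, Complex.star_def, mul_comm, Complex.mul_conj,
      Complex.normSq_eq_norm_sq, ← Complex.ofReal_pow, Complex.ofReal_re]
  rw [e]
  apply Finset.sum_le_sum
  intro n _
  set x := ‖(v n : ℂ) * ((v n : ℂ) - Complex.I * σ)⁻¹‖ with hx
  have hx0 : 0 ≤ x := norm_nonneg _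
  have hx1 : x ≤ 1 := by
    rw [hx, norm_mul, norm_inv, Complex.norm_real, Real.norm_eq_abs, ← div_eq_mul_inv]
    exact div_le_one_of_le₀ (abs_le_norm_sub_I _ _) (norm_nonneg _)
  have hx2 : x ≤ |v n| / σ := by
    rw [hx, norm_mul, norm_inv, Complex.norm_real, Real.norm_eq_abs, ← div_eq_mul_inv]
    exact div_le_div_of_nonneg_left (abs_nonneg _) hσ (le_norm_sub_I hσ _)
  calc (x ^ 2) ^ (2 ^ l) ≤ (x ^ 2) ^ 1 :=
        pow_le_pow_of_le_one (sq_nonneg x) (by nlinarith) Nat.one_le_two_pow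
    _ = x ^ 2 := pow_one _
    _ ≤ _ := pow_le_pow_left₀ hx0 (le_min hx1 hx2) 2

/-- the trace norm of a Hermitian matrix is attained on a contraction -/
lemma sum_abs_eigenvalues_le {a : Matrix ι ι ℂ} (ha : a.IsHermitian) {Δ : ℝ}
    (h : ∀ S : Matrix ι ι ℂ, ‖S‖ ≤ 1 → (trace (S * a)).re ≤ Δ) :
    ∑ n, |ha.eigenvalues n| ≤ Δ := by
  obtain ⟨U, h1, h2, h3⟩ := herm_cj ha
  set v := ha.eigenvalues
  set S := cj U (diagonal (fun i => ((SignType.sign (v i) : ℝ) : ℂ)))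
  have hS : ‖S‖ ≤ 1 := by
    refine (norm_cj_le h2 _).trans (norm_diagonal_le zero_le_one fun i => ?_)
    rw [Complex.norm_real]
    rcases lt_trichotomy (v i) 0 with hv | hv | hv
    · simp [sign_neg hv]
    · simp [hv]
    · simp [sign_pos hv]
  have h4 := h S hS
  refine le_trans (le_of_eq ?_) h4
  rw [h3, cj_mul h2, diagonal_mul_diagonal]
  unfold cj
  rw [trace_mul_cycle, h2, one_mul, trace_diagonal, Complex.re_sum]
  apply Finset.sum_congr rfl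
  intro i _
  rw [← Complex.ofReal_mul, Complex.ofReal_re, sign_mul_self]

end Pool.Agent.H39.Tr
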