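import Pool.Agent.H39.Tr.Bridge
import Pool.Agent.H39.Tr.MatrixMain

/-!
# Finite sections, Hermitian dilations and the distortion inequality for operators
-/

open Matrix Finset
open scoped InnerProductSpace ENNReal
open scoped ComplexOrder MatrixOrder Matrix.Norms.L2Operator

set_option linter.unusedSectionVars false

namespace Pool.Agent.H39.Tr

section norms

variable {m n : Type*} [Fintype m] [Fintype n] [DecidableEq m] [DecidableEq n]

lemma sum_mulVec_le {A : Matrix m n ℂ} (hA : ‖A‖ ≤ 1) (c : n → ℂ) :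
    ∑ j, ‖(A *ᵥ c) j‖ ^ 2 ≤ ∑ i, ‖c i‖ ^ 2 := by
  have h := A.l2_opNorm_mulVec (WithLp.toLp 2 c)
  have h1 : ‖(EuclideanSpace.equiv m ℂ).symm (A *ᵥ c)‖ ^ 2 = ∑ j, ‖(A *ᵥ c) j‖ ^ 2 := by
    rw [EuclideanSpace.norm_sq_eq]
    rfl
  have h2 : ‖(WithLp.toLp 2 c : EuclideanSpace ℂ n)‖ ^ 2 = ∑ i, ‖c i‖ ^ 2 := by
    rw [EuclideanSpace.norm_sq_eq]
  rw [← h1, ← h2]
  apply pow_le_pow_left₀ (norm_nonneg _)
  refine h.trans ?_
  calc ‖A‖ * ‖(WithLp.toLp 2 c : EuclideanSpace ℂ n)‖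
      ≤ 1 * ‖(WithLp.toLp 2 c : EuclideanSpace ℂ n)‖ := by gcongr
    _ = _ := one_mul _

lemma norm_le_one_of {A : Matrix m n ℂ}
    (h : ∀ c : n → ℂ, ∑ j, ‖(A *ᵥ c) j‖ ^ 2 ≤ ∑ i, ‖c i‖ ^ 2) : ‖A‖ ≤ 1 := by
  rw [Matrix.l2_opNorm_def]
  apply ContinuousLinearMap.opNorm_le_bound _ zero_le_one
  intro x
  rw [one_mul]
  have h1 := h (WithLp.ofLp x)
  have e1 : ‖((toEuclideanLin (𝕜 := ℂ) (m := m) (n := n)).trans
      LinearMap.toContinuousLinearMap A) x‖ ^ 2 = ∑ j, ‖(A *ᵥ (WithLp.ofLp x)) j‖ ^ 2 := by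
    rw [EuclideanSpace.norm_sq_eq]
    rfl
  have e2 : ‖x‖ ^ 2 = ∑ i, ‖(WithLp.ofLp x) i‖ ^ 2 := by
    rw [EuclideanSpace.norm_sq_eq]
  rw [← e1, ← e2] at h1
  exact (pow_le_pow_iff_left₀ (norm_nonneg _) (norm_nonneg _) two_ne_zero).1 h1

end norms

section dilation

variable {m : Type*} [Fintype m] [DecidableEq m]

lemma trace_fromBlocks' (A B C D : Matrix m m ℂ) :
    trace (fromBlocks A B C D) = trace A + trace D := by
  simp [Matrix.trace, Fintype.sum_sum_type]

/-- the Hermitian dilation -/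
def dil (A : Matrix m m ℂ) : Matrix (m ⊕ m) (m ⊕ m) ℂ := fromBlocks 0 A Aᴴ 0

lemma dil_isHermitian (A : Matrix m m ℂ) : (dil A).IsHermitian := by
  unfold dil Matrix.IsHermitian
  rw [fromBlocks_conjTranspose]
  simp

lemma dil_sub (A B : Matrix m m ℂ) : dil (A - B) = dil A - dil B := by
  unfold dil
  ext i j
  rcases i with i | i <;> rcases j with j | j <;> simp [Matrix.sub_apply]

lemma trace_dil_le {A : Matrix m m ℂ} {t : ℝ} (hA : ∀ W : Matrix m m ℂ, ‖W‖ ≤ 1 →
    (trace (W * A)).re ≤ t) (S : Matrix (m ⊕ m) (m ⊕ m) ℂ) (hS : ‖S‖ ≤ 1) :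
    (trace (S * dil A)).re ≤ 2 * t := by
  have e : trace (S * dil A) = trace (S.toBlocks₁₂ * Aᴴ) + trace (S.toBlocks₂₁ * A) := by
    conv_lhs => rw [← fromBlocks_toBlocks S]
    unfold dil
    rw [fromBlocks_multiply, trace_fromBlocks']
    simp
  have hblock1 : ‖S.toBlocks₂₁‖ ≤ 1 := by
    apply norm_le_one_of
    intro c
    have h := sum_mulVec_le hS (Sum.elim c 0)
    rw [Fintype.sum_sum_type, Fintype.sum_sum_type] at h
    simp only [Sum.elim_inl, Sum.elim_inr, Pi.zero_apply, norm_zero, ne_eq, OfNat.ofNat_ne_zero,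
      not_false_eq_true, zero_pow, Finset.sum_const_zero, add_zero] at h
    refine le_trans ?_ h
    have h2 : ∀ j, (S.toBlocks₂₁ *ᵥ c) j = (S *ᵥ (Sum.elim c 0)) (Sum.inr j) := by
      intro j
      simp [Matrix.mulVec, dotProduct, Fintype.sum_sum_type, toBlocks₂₁]
    simp only [h2]
    exact le_add_of_nonneg_left (Finset.sum_nonneg fun _ _ => sq_nonneg _)
  have hblock2 : ‖S.toBlocks₁₂ᴴ‖ ≤ 1 := by
    rw [l2_opNorm_conjTranspose]
    apply norm_le_one_of
    intro c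
    have h := sum_mulVec_le hS (Sum.elim 0 c)
    rw [Fintype.sum_sum_type, Fintype.sum_sum_type] at h
    simp only [Sum.elim_inl, Sum.elim_inr, Pi.zero_apply, norm_zero, ne_eq, OfNat.ofNat_ne_zero,
      not_false_eq_true, zero_pow, Finset.sum_const_zero, zero_add] at h
    refine le_trans ?_ h
    have h2 : ∀ j, (S.toBlocks₁₂ *ᵥ c) j = (S *ᵥ (Sum.elim 0 c)) (Sum.inl j) := by
      intro j
      simp [Matrix.mulVec, dotProduct, Fintype.sum_sum_type, toBlocks₁₂]
    simp only [h2]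
    exact le_add_of_nonneg_right (Finset.sum_nonneg fun _ _ => sq_nonneg _)
  have e2 : (trace (S.toBlocks₁₂ * Aᴴ)).re = (trace (S.toBlocks₁₂ᴴ * A)).re := by
    have h1 : S.toBlocks₁₂ * Aᴴ = (A * S.toBlocks₁₂ᴴ)ᴴ := by
      rw [conjTranspose_mul, conjTranspose_conjTranspose]
    rw [h1, trace_conjTranspose, trace_mul_comm]
    exact Complex.conj_re _
  rw [e, Complex.add_re, e2]
  have h1 := hA _ hblock1
  have h2 := hA _ hblock2
  linarith

lemma exists_dil {A Z : Matrix m m ℂ} (hZ : ‖Z‖ ≤ 1) :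
    ∃ S : Matrix (m ⊕ m) (m ⊕ m) ℂ, ‖S‖ ≤ 1 ∧ (trace (S * dil A)).re = 2 * (trace (Z * A)).re := by
  refine ⟨fromBlocks 0 Zᴴ Z 0, ?_, ?_⟩
  · apply norm_le_one_of
    intro c
    rw [Fintype.sum_sum_type, Fintype.sum_sum_type]
    have hZ' : ‖Zᴴ‖ ≤ 1 := by rwa [l2_opNorm_conjTranspose]
    have h1 := sum_mulVec_le hZ' (fun i => c (Sum.inr i))
    have h2 := sum_mulVec_le hZ (fun i => c (Sum.inl i))
    have e1 : ∀ j, ((fromBlocks 0 Zᴴ Z 0) *ᵥ c) (Sum.inl j) = (Zᴴ *ᵥ (fun i => c (Sum.inr i))) j := by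
      intro j
      simp [Matrix.mulVec, dotProduct, Fintype.sum_sum_type]
    have e2 : ∀ j, ((fromBlocks 0 Zᴴ Z 0) *ᵥ c) (Sum.inr j) = (Z *ᵥ (fun i => c (Sum.inl i))) j := by
      intro j
      simp [Matrix.mulVec, dotProduct, Fintype.sum_sum_type]
    simp only [e1, e2]
    linarith
  · unfold dil
    rw [fromBlocks_multiply, trace_fromBlocks']
    simp only [zero_add, add_zero, mul_zero]
    have h1 : Zᴴ * Aᴴ = (A * Z)ᴴ := by rw [conjTranspose_mul]
    rw [h1, trace_conjTranspose, trace_mul_comm, Complex.add_re]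
    have : (star (trace (Z * A))).re = (trace (Z * A)).re := Complex.conj_re _
    rw [this]
    ring

end dilation

variable {E : Type*} [NormedAddCommGroup E] [InnerProductSpace ℂ E] [CompleteSpace E]

/-- the finite section of `T` -/
noncomputable def comp (b : HilbertBasis ℕ ℂ E) (N : ℕ) (T : E →L[ℂ] E) :
    Matrix (Fin N) (Fin N) ℂ := Matrix.of fun i j => ⟪b i, T (b j)⟫_ℂ

lemma comp_sub (b : HilbertBasis ℕ ℂ E) (N : ℕ) (T T' : E →L[ℂ] E) :
    comp b N (T - T') = comp b N T - comp b N T' := by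
  ext i j
  simp [comp]

lemma norm_sum_smul_basis (b : HilbertBasis ℕ ℂ E) {N : ℕ} (c : Fin N → ℂ) :
    ‖∑ i : Fin N, c i • b i‖ ^ 2 = ∑ i, ‖c i‖ ^ 2 := by
  have ho : Orthonormal ℂ (fun i : Fin N => b (i : ℕ)) :=
    b.orthonormal.comp _ Fin.val_injective
  have h1 := ho.inner_sum c c Finset.univ
  have h3 := inner_self_eq_norm_sq_to_K (𝕜 := ℂ) (∑ i : Fin N, c i • b i)
  have h2 : ((‖∑ i : Fin N, c i • b i‖ ^ 2 : ℝ) : ℂ) = ((∑ i, ‖c i‖ ^ 2 : ℝ) : ℂ) := by
    push_cast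
    refine (h3.symm.trans h1).trans ?_
    apply Finset.sum_congr rfl
    intro i _
    rw [mul_comm, Complex.mul_conj, Complex.normSq_eq_norm_sq]
    push_cast
    rfl
  exact_mod_cast h2

/-- trace duality for finite sections: upper bound -/
lemma section_upper (b : HilbertBasis ℕ ℂ E) {T : E →L[ℂ] E} (hT : tnB b T ≠ ∞) {N : ℕ}
    (W : Matrix (Fin N) (Fin N) ℂ) (hW : ‖W‖ ≤ 1) :
    (trace (W * comp b N T)).re ≤ (tnB b T).toReal := by
  set w : Fin N → E := fun i => ∑ j : Fin N, (starRingEnd ℂ (W i j)) • b j with hw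
  have hcf : ContrFam w := by
    intro c
    have e1 : ∑ i, c i • w i = ∑ j : Fin N, (Wᴴ *ᵥ c) j • b j := by
      rw [hw]
      simp only [Finset.smul_sum, smul_smul]
      rw [Finset.sum_comm]
      apply Finset.sum_congr rfl
      intro j _
      rw [← Finset.sum_smul]
      congr 1
      simp only [Matrix.mulVec, dotProduct, conjTranspose_apply]
      exact Finset.sum_congr rfl fun i _ => mul_comm _ _
    rw [e1, norm_sum_smul_basis]
    exact sum_mulVec_le (by rwa [l2_opNorm_conjTranspose]) c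
  have e : trace (W * comp b N T) = ∑ i : Fin N, ⟪w i, T (b i)⟫_ℂ := by
    rw [Matrix.trace]
    apply Finset.sum_congr rfl
    intro i _
    rw [diag_apply, mul_apply, hw]
    dsimp only
    rw [sum_inner]
    apply Finset.sum_congr rfl
    intro j _
    rw [inner_smul_left, Complex.conj_conj]
    rfl
  rw [e]
  exact (Complex.re_le_norm _).trans (duality_upper hT hcf)

/-- trace duality for finite sections: lower bound -/
lemma section_lower (b : HilbertBasis ℕ ℂ E) {T : E →L[ℂ] E} (hT : tnB b T ≠ ∞) {η : ℝ}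
    (hη : 0 < η) : ∀ᶠ N in Filter.atTop, ∃ Z : Matrix (Fin N) (Fin N) ℂ, ‖Z‖ ≤ 1 ∧
      (tnB b T).toReal - η ≤ (trace (Z * comp b N T)).re := by
  obtain ⟨V, M, hV, hVM⟩ := duality_lower (b := b) hT (half_pos hη)
  -- convergence of the Parseval sums
  have h1 : Filter.Tendsto (fun N => (∑ i ∈ range M, ∑ j ∈ range N,
      ⟪V (b i), b j⟫_ℂ * ⟪b j, T (b i)⟫_ℂ).re) Filter.atTop
      (nhds (∑ i ∈ range M, ⟪V (b i), T (b i)⟫_ℂ).re) := by
    apply (Complex.continuous_re.tendsto _).comp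
    apply tendsto_finset_sum
    intro i _
    exact (b.hasSum_inner_mul_inner (V (b i)) (T (b i))).tendsto_sum_nat
  have h2 : ∀ᶠ N in Filter.atTop, (∑ i ∈ range M, ⟪V (b i), T (b i)⟫_ℂ).re - η / 2 <
      (∑ i ∈ range M, ∑ j ∈ range N, ⟪V (b i), b j⟫_ℂ * ⟪b j, T (b i)⟫_ℂ).re :=
    h1.eventually (lt_mem_nhds (by linarith))
  filter_upwards [h2, Filter.eventually_ge_atTop M] with N hN hMN
  refine ⟨Matrix.of fun i j => if (i : ℕ) < M then ⟪V (b i), b j⟫_ℂ else 0, ?_, ?_⟩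
  · set Z : Matrix (Fin N) (Fin N) ℂ :=
      Matrix.of fun i j => if (i : ℕ) < M then ⟪V (b i), b j⟫_ℂ else 0 with hZ
    rw [← l2_opNorm_conjTranspose]
    apply norm_le_one_of
    intro c
    set c' : Fin N → ℂ := fun i => if (i : ℕ) < M then c i else 0 with hc'
    have e1 : ∀ j : Fin N, (Zᴴ *ᵥ c) j = ⟪b j, V (∑ i : Fin N, c' i • b i)⟫_ℂ := by
      intro j
      rw [map_sum, inner_sum]
      simp only [Matrix.mulVec, dotProduct, conjTranspose_apply]
      apply Finset.sum_congr rfl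
      intro i _
      rw [map_smul, inner_smul_right, hc', hZ]
      dsimp only [Matrix.of_apply]
      split_ifs
      · rw [mul_comm]
        congr 1
        exact inner_conj_symm _ _
      · simp
    simp only [e1]
    have h3 : ∑ j : Fin N, ‖⟪b j, V (∑ i : Fin N, c' i • b i)⟫_ℂ‖ ^ 2
        ≤ ‖V (∑ i : Fin N, c' i • b i)‖ ^ 2 := by
      have hs := hasSum_norm_sq b (V (∑ i : Fin N, c' i • b i))
      rw [Fin.sum_univ_eq_sum_range (fun j => ‖⟪b j, V (∑ i : Fin N, c' i • b i)⟫_ℂ‖ ^ 2),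
        ← hs.tsum_eq]
      exact hs.summable.sum_le_tsum _ (fun i _ => sq_nonneg _)
    refine h3.trans ((pow_le_pow_left₀ (norm_nonneg _) (hV _) 2).trans ?_)
    rw [norm_sum_smul_basis]
    apply Finset.sum_le_sum
    intro i _
    rw [hc']
    dsimp only
    split_ifs
    · exact le_rfl
    · simp
  · have e : trace ((Matrix.of fun i j : Fin N => if (i : ℕ) < M then ⟪V (b i), b j⟫_ℂ else 0) *
        comp b N T) = ∑ i ∈ range M, ∑ j ∈ range N, ⟪V (b i), b j⟫_ℂ * ⟪b j, T (b i)⟫_ℂ := by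
      rw [Matrix.trace]
      simp only [diag_apply, mul_apply, Matrix.of_apply, comp, ite_mul, zero_mul]
      have e1 : ∀ i : Fin N, (∑ j : Fin N, if (i : ℕ) < M then
          ⟪V (b i), b j⟫_ℂ * ⟪b j, T (b i)⟫_ℂ else 0) =
          if (i : ℕ) < M then ∑ j ∈ range N, ⟪V (b i), b j⟫_ℂ * ⟪b j, T (b i)⟫_ℂ else 0 := by
        intro i
        split_ifs
        · rw [Fin.sum_univ_eq_sum_range (fun j => ⟪V (b i), b j⟫_ℂ * ⟪b j, T (b i)⟫_ℂ)]
        · simp
      rw [Finset.sum_congr rfl fun i _ => e1 i, Fin.sum_univ_eq_sum_range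
        (fun i => if i < M then ∑ j ∈ range N, ⟪V (b i), b j⟫_ℂ * ⟪b j, T (b i)⟫_ℂ else 0),
        Finset.sum_ite, Finset.sum_const_zero, add_zero]
      apply Finset.sum_congr _ (fun _ _ => rfl)
      ext i
      simp only [Finset.mem_filter, Finset.mem_range]
      omega
    rw [e]
    linarith

/-- the main inequality for grids of operators -/
theorem operator_main (b : HilbertBasis ℕ ℂ E) {J : Type*} [Fintype J] [DecidableEq J] [Nonempty J]
    {k : ℕ} (hk : 1 ≤ k) (l : ℕ) (f : (J → Fin (k + 1)) → E →L[ℂ] E)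
    (hfin : ∀ x y, tnB b (f x - f y) ≠ ∞) {R Δ L : ℝ} (hR0 : 0 ≤ R) (hΔ0 : 0 ≤ Δ)
    (hR : ∀ x, (tnB b (f x - f 0)).toReal ≤ R)
    (hΔ : ∀ x y, Near x y → (tnB b (f x - f y)).toReal ≤ Δ)
    (hL : ∀ (j : J) (z : J → Fin (k + 1)), z j = 0 →
      L ≤ (tnB b (f (Function.update z j (Fin.last k)) - f z)).toReal) :
    2 * L ≤ 16 * (4 * (2 * R)) ^ (1 / PP l) * (2 * PP l * (2 * Δ)) ^ (1 / qq l)
      * (1 + 2 * k * Real.sqrt (Real.exp 1 * PP l * Fintype.card J) / Fintype.card J) := by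
  set RHS := 16 * (4 * (2 * R)) ^ (1 / PP l) * (2 * PP l * (2 * Δ)) ^ (1 / qq l)
      * (1 + 2 * k * Real.sqrt (Real.exp 1 * PP l * Fintype.card J) / Fintype.card J) with hRHS
  apply le_of_forall_pos_le_add
  intro η hη
  have h1 : ∀ᶠ N in Filter.atTop, ∀ p : J × (J → Fin (k + 1)),
      ∃ Z : Matrix (Fin N) (Fin N) ℂ, ‖Z‖ ≤ 1 ∧
        (tnB b (f (Function.update p.2 p.1 (Fin.last k)) - f p.2)).toReal - η / 2 ≤
          (trace (Z * comp b N (f (Function.update p.2 p.1 (Fin.last k)) - f p.2))).re := by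
    rw [Filter.eventually_all]
    intro p
    exact section_lower b (hfin _ _) (half_pos hη)
  obtain ⟨N, hN⟩ := h1.exists
  have hmain := matrix_main (J := J) hk l (fun x => dil (comp b N (f x - f 0)))
    (fun x => dil_isHermitian _) (R := 2 * R) (Δ := 2 * Δ) (L := 2 * L - η)
    (by positivity) (by positivity)
    (by
      intro x S hS
      refine (trace_dil_le (fun W hW => section_upper b (hfin x 0) W hW) S hS).trans ?_
      exact mul_le_mul_of_nonneg_left (hR x) (by norm_num))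
    (by
      intro x y hxy S hS
      have e : dil (comp b N (f x - f 0)) - dil (comp b N (f y - f 0))
          = dil (comp b N (f x - f y)) := by
        rw [← dil_sub, ← comp_sub]
        congr 2
        abel
      rw [e]
      refine (trace_dil_le (fun W hW => section_upper b (hfin x y) W hW) S hS).trans ?_
      exact mul_le_mul_of_nonneg_left (hΔ x y hxy) (by norm_num))
    (by
      intro j z hz
      obtain ⟨Z, hZ1, hZ2⟩ := hN (j, z)
      dsimp only at hZ2
      obtain ⟨S, hS1, hS2⟩ := exists_dil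
        (A := comp b N (f (Function.update z j (Fin.last k)) - f z)) hZ1
      refine ⟨S, hS1, ?_⟩
      have e : dil (comp b N (f (Function.update z j (Fin.last k)) - f 0))
          - dil (comp b N (f z - f 0))
          = dil (comp b N (f (Function.update z j (Fin.last k)) - f z)) := by
        rw [← dil_sub, ← comp_sub]
        congr 2
        abel
      rw [e, hS2]
      have := hL j z hz
      linarith)
  linarith

end Pool.Agent.H39.Tr
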