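import Pool.Agent.H39.Tr.Ideal

/-!
# Type 2 moment inequality for Schatten norms with exponent `P = 2^(l+1)`
-/

open Matrix Finset
open scoped ComplexOrder MatrixOrder Matrix.Norms.L2Operator

set_option linter.unusedSectionVars false

namespace Pool.Agent.H39.Tr

variable {ι : Type*} [Fintype ι] [DecidableEq ι]
variable {J : Type*} [Fintype J] [DecidableEq J]

/-- the sign `±1` attached to a boolean -/
def sgn (b : Bool) : ℝ := if b then 1 else -1

@[simp] lemma sgn_true : sgn true = 1 := rfl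
@[simp] lemma sgn_false : sgn false = -1 := rfl

/-- `∑_ε ∏_i ε (t i)` is nonnegative. -/
lemma sum_prod_sgn_nonneg {r : ℕ} (t : Fin r → J) :
    0 ≤ ∑ ε : J → Bool, ∏ i, sgn (ε (t i)) := by
  have h1 : ∀ ε : J → Bool, ∏ i, sgn (ε (t i))
      = ∏ j, sgn (ε j) ^ (Finset.univ.filter (fun i => t i = j)).card := by
    intro ε
    rw [← Finset.prod_fiberwise Finset.univ t (fun i => sgn (ε (t i)))]
    apply Finset.prod_congr rfl
    intro j _
    rw [Finset.prod_congr rfl (g := fun _ => sgn (ε j))]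
    · rw [Finset.prod_const]
    · intro i hi
      rw [(Finset.mem_filter.1 hi).2]
  simp only [h1]
  have h2 := Fintype.prod_sum (κ := fun _ : J => Bool)
    (fun (j : J) (b : Bool) => sgn b ^ (Finset.univ.filter (fun i => t i = j)).card)
  rw [← h2]
  apply Finset.prod_nonneg
  intro j _
  rw [Fintype.sum_bool, sgn_true, sgn_false, one_pow]
  rcases neg_one_pow_eq_or ℝ (Finset.univ.filter (fun i => t i = j)).card with h | h <;>
    rw [h] <;> norm_num

/-- expansion of a product of sums -/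
lemma ofFn_sum_prod {r : ℕ} (A : Fin r → J → Matrix ι ι ℂ) (c : J → ℝ) :
    (List.ofFn (fun i => ∑ j, ((c j : ℝ) : ℂ) • A i j)).prod
      = ∑ t : Fin r → J, ((∏ i, c (t i) : ℝ) : ℂ) • (List.ofFn (fun i => A i (t i))).prod := by
  have h := (MultilinearMap.mkPiAlgebraFin ℂ r (Matrix ι ι ℂ)).map_sum
    (α := fun _ => J) (g := fun i j => ((c j : ℝ) : ℂ) • A i j)
  simp only [MultilinearMap.mkPiAlgebraFin_apply] at h
  rw [h]
  apply Finset.sum_congr rfl
  intro t _
  have h2 := (MultilinearMap.mkPiAlgebraFin ℂ r (Matrix ι ι ℂ)).map_smul_univ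
    (fun i => ((c (t i) : ℝ) : ℂ)) (fun i => A i (t i))
  simp only [MultilinearMap.mkPiAlgebraFin_apply] at h2
  rw [h2, Complex.ofReal_prod]

/-- alternating products -/
lemma ofFn_alt_prod (A B : Matrix ι ι ℂ) (h : ℕ) :
    (List.ofFn (fun i : Fin (2 * h) => if (i : ℕ) % 2 = 0 then A else B)).prod = (A * B) ^ h := by
  induction h with
  | zero => simp
  | succ h ih =>
    have e : (List.ofFn (fun i : Fin (2 * (h + 1)) => if (i : ℕ) % 2 = 0 then A else B))
        = A :: B :: List.ofFn (fun i : Fin (2 * h) => if (i : ℕ) % 2 = 0 then A else B) := by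
      have e1 : 2 * (h + 1) = 2 * h + 1 + 1 := by ring
      rw [List.ofFn_congr e1, List.ofFn_succ, List.ofFn_succ]
      simp only [Fin.val_cast, Fin.val_zero, Nat.zero_mod, if_true, Fin.val_succ, zero_add,
        Nat.one_mod, one_ne_zero, if_false]
      congr 2
      apply List.ofFn_inj.2
      funext i
      exact if_congr (by omega) rfl rfl
    rw [e, List.prod_cons, List.prod_cons, ih, pow_succ', mul_assoc]

/-- The moment comparison: `E ‖∑ ε_j H_j‖_P^P ≤ E (∑ ε_j h_j)^P` with `h_j = ‖H_j‖_P`. -/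
lemma moment_comparison (l : ℕ) (H : J → Matrix ι ι ℂ) (h : J → ℝ) (hh : ∀ j, 0 ≤ h j)
    (hH : ∀ j, sN l (H j) = h j ^ (2 ^ (l + 1))) :
    ∑ ε : J → Bool, sN l (∑ j, ((sgn (ε j) : ℝ) : ℂ) • H j)
      ≤ ∑ ε : J → Bool, (∑ j, sgn (ε j) * h j) ^ (2 * 2 ^ l) := by
  set κ := 2 ^ l with hκ
  set A : Fin (2 * κ) → J → Matrix ι ι ℂ := fun i j => if (i : ℕ) % 2 = 0 then (H j)ᴴ else H j
    with hA
  have hAs : ∀ i j, sN l (A i j) = h j ^ (2 ^ (l + 1)) := by
    intro i j
    rw [hA]
    dsimp only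
    split_ifs
    · rw [sN_conjTranspose, hH]
    · rw [hH]
  have hprod : ∀ t : Fin (2 * κ) → J,
      ‖trace (List.ofFn (fun i => A i (t i))).prod‖ ≤ ∏ i, h (t i) := by
    intro t
    have h1 := norm_trace_list_prod_le l (List.ofFn (fun i => A i (t i)))
      (by rw [List.length_ofFn, pow_succ, mul_comm])
    rw [List.map_ofFn, List.prod_ofFn] at h1
    simp only [Function.comp_apply, hAs] at h1
    rw [Finset.prod_pow] at h1
    exact le_of_pow_le_pow_left₀ (by positivity) (Finset.prod_nonneg fun i _ => hh _) h1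
  have hexp : ∀ ε : J → Bool, trace (((∑ j, ((sgn (ε j) : ℝ) : ℂ) • H j)ᴴ *
      (∑ j, ((sgn (ε j) : ℝ) : ℂ) • H j)) ^ κ)
      = ∑ t : Fin (2 * κ) → J, ((∏ i, sgn (ε (t i)) : ℝ) : ℂ) *
          trace (List.ofFn (fun i => A i (t i))).prod := by
    intro ε
    rw [← ofFn_alt_prod]
    have e : (fun i : Fin (2 * κ) => if (i : ℕ) % 2 = 0 then
        (∑ j, ((sgn (ε j) : ℝ) : ℂ) • H j)ᴴ else (∑ j, ((sgn (ε j) : ℝ) : ℂ) • H j))
        = fun i => ∑ j, ((sgn (ε j) : ℝ) : ℂ) • A i j := by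
      funext i
      rw [hA]
      dsimp only
      split_ifs
      · rw [conjTranspose_sum]
        apply Finset.sum_congr rfl
        intro j _
        rw [conjTranspose_smul, Complex.star_def, Complex.conj_ofReal]
      · rfl
    rw [e, ofFn_sum_prod A (fun j => sgn (ε j)), trace_sum]
    apply Finset.sum_congr rfl
    intro t _
    rw [trace_smul, smul_eq_mul]
  have hL : ((∑ ε : J → Bool, sN l (∑ j, ((sgn (ε j) : ℝ) : ℂ) • H j) : ℝ) : ℂ)
      = ∑ t : Fin (2 * κ) → J, ((∑ ε : J → Bool, ∏ i, sgn (ε (t i)) : ℝ) : ℂ) *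
          trace (List.ofFn (fun i => A i (t i))).prod := by
    rw [Complex.ofReal_sum]
    have : ∀ ε : J → Bool, ((sN l (∑ j, ((sgn (ε j) : ℝ) : ℂ) • H j) : ℝ) : ℂ)
        = ∑ t : Fin (2 * κ) → J, ((∏ i, sgn (ε (t i)) : ℝ) : ℂ) *
          trace (List.ofFn (fun i => A i (t i))).prod := by
      intro ε
      rw [← sN_coe, ← hκ, hexp]
    simp only [this]
    rw [Finset.sum_comm]
    apply Finset.sum_congr rfl
    intro t _
    rw [Complex.ofReal_sum, Finset.sum_mul]
  have hR : ∑ ε : J → Bool, (∑ j, sgn (ε j) * h j) ^ (2 * κ)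
      = ∑ t : Fin (2 * κ) → J, (∑ ε : J → Bool, ∏ i, sgn (ε (t i))) * ∏ i, h (t i) := by
    simp only [Fintype.sum_pow]
    rw [Finset.sum_comm]
    apply Finset.sum_congr rfl
    intro t _
    rw [Finset.sum_mul]
    apply Finset.sum_congr rfl
    intro ε _
    rw [Finset.prod_mul_distrib]
  rw [hR]
  have h0 : 0 ≤ ∑ ε : J → Bool, sN l (∑ j, ((sgn (ε j) : ℝ) : ℂ) • H j) :=
    Finset.sum_nonneg fun _ _ => sN_nonneg _ _
  rw [← abs_of_nonneg h0, ← Real.norm_eq_abs, ← Complex.norm_real, hL]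
  refine (norm_sum_le _ _).trans (Finset.sum_le_sum fun t _ => ?_)
  rw [norm_mul, Complex.norm_real, Real.norm_eq_abs, abs_of_nonneg (sum_prod_sgn_nonneg t)]
  exact mul_le_mul_of_nonneg_left (hprod t) (sum_prod_sgn_nonneg t)

lemma sum_exp_sgn (x : J → ℝ) :
    ∑ ε : J → Bool, Real.exp (∑ j, sgn (ε j) * x j)
      ≤ 2 ^ Fintype.card J * Real.exp ((∑ j, x j ^ 2) / 2) := by
  have h1 : ∀ ε : J → Bool, Real.exp (∑ j, sgn (ε j) * x j)
      = ∏ j, Real.exp (sgn (ε j) * x j) := fun ε => Real.exp_sum _ _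
  simp only [h1]
  have h2 := Fintype.prod_sum (κ := fun _ : J => Bool)
    (fun (j : J) (b : Bool) => Real.exp (sgn b * x j))
  rw [← h2]
  have h3 : ∀ j, ∑ b : Bool, Real.exp (sgn b * x j) ≤ 2 * Real.exp (x j ^ 2 / 2) := by
    intro j
    rw [Fintype.sum_bool, sgn_true, sgn_false, one_mul, neg_one_mul]
    have := Real.cosh_le_exp_half_sq (x j)
    rw [Real.cosh_eq] at this
    linarith
  refine (Finset.prod_le_prod (fun j _ => by positivity) (fun j _ => h3 j)).trans (le_of_eq ?_)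
  rw [Finset.prod_mul_distrib, Finset.prod_const, Finset.card_univ, ← Real.exp_sum,
    Finset.sum_div]

/-- scalar Khinchine inequality for even moments -/
lemma khinchine (κ : ℕ) (hκ : 1 ≤ κ) (h : J → ℝ) :
    ∑ ε : J → Bool, (∑ j, sgn (ε j) * h j) ^ (2 * κ)
      ≤ 2 * 2 ^ Fintype.card J * (Real.exp 1 * (2 * κ) * ∑ j, h j ^ 2) ^ κ := by
  set V := ∑ j, h j ^ 2 with hV
  have hV0 : 0 ≤ V := Finset.sum_nonneg fun _ _ => sq_nonneg _
  have hκ0 : (0 : ℝ) < κ := by exact_mod_cast hκ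
  rcases hV0.eq_or_lt with h0 | h0
  · have hz : ∀ j, h j = 0 := by
      intro j
      have := (Finset.sum_eq_zero_iff_of_nonneg (fun j _ => sq_nonneg (h j))).1 h0.symm j
        (Finset.mem_univ j)
      simpa using this
    have : ∀ ε : J → Bool, (∑ j, sgn (ε j) * h j) ^ (2 * κ) = 0 := by
      intro ε
      simp only [hz, mul_zero, Finset.sum_const_zero]
      exact zero_pow (by omega)
    simp only [this, Finset.sum_const_zero]
    rw [← h0]
    positivity
  · set s : ℝ := Real.sqrt (2 * κ / V) with hs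
    have hs2 : s ^ 2 = 2 * κ / V := Real.sq_sqrt (by positivity)
    have hspos : 0 < s := Real.sqrt_pos.2 (by positivity)
    -- pointwise bound
    have hpt : ∀ x : ℝ, x ^ (2 * κ) ≤ (2 * κ).factorial * (Real.exp x + Real.exp (-x)) := by
      intro x
      have h1 := Real.pow_div_factorial_le_exp |x| (abs_nonneg x) (2 * κ)
      rw [div_le_iff₀ (by positivity), Even.pow_abs (by simp)] at h1
      have h2 : Real.exp |x| ≤ Real.exp x + Real.exp (-x) := by
        rcases abs_choice x with h | h <;> rw [h]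
        · linarith [Real.exp_pos (-x)]
        · linarith [Real.exp_pos x]
      have h3 : (0 : ℝ) < (2 * κ).factorial := by positivity
      nlinarith
    have hsum : ∑ ε : J → Bool, (s * ∑ j, sgn (ε j) * h j) ^ (2 * κ)
        ≤ (2 * κ).factorial * (2 * (2 ^ Fintype.card J * Real.exp κ)) := by
      have e1 : (∑ j, (s * h j) ^ 2) / 2 = κ := by
        simp only [mul_pow]
        rw [← Finset.mul_sum, ← hV, hs2]
        field_simp
      have e2 : (∑ j, (-(s * h j)) ^ 2) / 2 = κ := by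
        simp only [neg_sq]; exact e1
      have h1 := sum_exp_sgn (J := J) (fun j => s * h j)
      have h2 := sum_exp_sgn (J := J) (fun j => -(s * h j))
      rw [e1] at h1
      rw [e2] at h2
      calc ∑ ε : J → Bool, (s * ∑ j, sgn (ε j) * h j) ^ (2 * κ)
          ≤ ∑ ε : J → Bool, ((2 * κ).factorial : ℝ) * (Real.exp (∑ j, sgn (ε j) * (s * h j))
              + Real.exp (∑ j, sgn (ε j) * (-(s * h j)))) := by
            apply Finset.sum_le_sum
            intro ε _
            have e3 : s * ∑ j, sgn (ε j) * h j = ∑ j, sgn (ε j) * (s * h j) := by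
              rw [Finset.mul_sum]
              exact Finset.sum_congr rfl fun j _ => by ring
            have e4 : -(s * ∑ j, sgn (ε j) * h j) = ∑ j, sgn (ε j) * (-(s * h j)) := by
              rw [e3, ← Finset.sum_neg_distrib]
              exact Finset.sum_congr rfl fun j _ => by ring
            rw [← e3, ← e4]
            exact hpt _
        _ = (2 * κ).factorial * ((∑ ε : J → Bool, Real.exp (∑ j, sgn (ε j) * (s * h j)))
              + ∑ ε : J → Bool, Real.exp (∑ j, sgn (ε j) * (-(s * h j)))) := by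
            rw [← Finset.mul_sum, Finset.sum_add_distrib]
        _ ≤ _ := by
            apply mul_le_mul_of_nonneg_left _ (by positivity)
            linarith
    have h4 : ∑ ε : J → Bool, (s * ∑ j, sgn (ε j) * h j) ^ (2 * κ)
        = (2 * κ / V) ^ κ * ∑ ε : J → Bool, (∑ j, sgn (ε j) * h j) ^ (2 * κ) := by
      rw [Finset.mul_sum]
      apply Finset.sum_congr rfl
      intro ε _
      rw [mul_pow, pow_mul s, hs2]
    rw [h4] at hsum
    have h5 : ((2 * κ).factorial : ℝ) ≤ (2 * κ) ^ (2 * κ) := by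
      exact_mod_cast Nat.factorial_le_pow (2 * κ)
    have h6 : (0 : ℝ) < (2 * κ / V) ^ κ := by positivity
    rw [mul_comm, ← le_div_iff₀ h6] at hsum
    refine hsum.trans ?_
    rw [div_le_iff₀ h6]
    have h7 : (Real.exp 1 * (2 * κ) * V) ^ κ * (2 * κ / V) ^ κ
        = Real.exp κ * (2 * κ) ^ (2 * κ) := by
      rw [← mul_pow]
      have : Real.exp 1 * (2 * ↑κ) * V * (2 * ↑κ / V) = Real.exp 1 * (2 * κ) ^ 2 := by
        field_simp
      rw [this, mul_pow, ← pow_mul, ← Real.exp_nat_mul, mul_one]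
    calc ((2 * κ).factorial : ℝ) * (2 * (2 ^ Fintype.card J * Real.exp κ))
        ≤ (2 * κ) ^ (2 * κ) * (2 * (2 ^ Fintype.card J * Real.exp κ)) :=
          mul_le_mul_of_nonneg_right h5 (by positivity)
      _ = 2 * 2 ^ Fintype.card J * (Real.exp κ * (2 * κ) ^ (2 * κ)) := by ring
      _ = _ := by rw [← h7]; ring

/-- **Type 2 inequality** in the form used later. -/
theorem sum_sN_sgn_le (l : ℕ) (H : J → Matrix ι ι ℂ) :
    ∑ ε : J → Bool, sN l (∑ j, ((sgn (ε j) : ℝ) : ℂ) • H j)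
      ≤ 2 * 2 ^ Fintype.card J * (Real.exp 1 * 2 ^ (l + 1)) ^ (2 ^ l) *
          ((Fintype.card J : ℝ) ^ (2 ^ l - 1) * ∑ j, sN l (H j)) := by
  set h : J → ℝ := fun j => sN l (H j) ^ (1 / (2 ^ (l + 1) : ℝ)) with hh
  have hh0 : ∀ j, 0 ≤ h j := fun j => Real.rpow_nonneg (sN_nonneg _ _) _
  have hhH : ∀ j, sN l (H j) = h j ^ (2 ^ (l + 1)) := by
    intro j
    rw [hh]
    dsimp only
    rw [← Real.rpow_natCast, ← Real.rpow_mul (sN_nonneg _ _)]
    push_cast
    rw [one_div, inv_mul_cancel₀ (by positivity), Real.rpow_one]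
  have h1 := moment_comparison l H h hh0 hhH
  have h2 := khinchine (J := J) (2 ^ l) Nat.one_le_two_pow h
  refine h1.trans (h2.trans ?_)
  push_cast
  rw [mul_pow (Real.exp 1 * (2 * 2 ^ l)), ← mul_assoc]
  have e : (2 : ℝ) * 2 ^ l = 2 ^ (l + 1) := by rw [pow_succ]; ring
  rw [e]
  apply mul_le_mul_of_nonneg_left _ (by positivity)
  rcases isEmpty_or_nonempty J with hJ | hJ
  · simp
  · have h3 := pow_sum_div_card_le_sum_pow (s := (Finset.univ : Finset J)) (f := fun j => h j ^ 2)
      (fun i _ => sq_nonneg _) (2 ^ l - 1)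
    rw [Nat.sub_add_cancel Nat.one_le_two_pow, Finset.card_univ,
      div_le_iff₀ (by have := Fintype.card_pos (α := J); positivity)] at h3
    rw [mul_comm]
    refine h3.trans (le_of_eq ?_)
    congr 1
    apply Finset.sum_congr rfl
    intro j _
    rw [hhH, ← pow_mul, pow_succ 2 l, mul_comm 2 (2 ^ l)]

end Pool.Agent.H39.Tr
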